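import Pool.Agent.Lib_MP_92ef0c_lb.FDefs
import Pool.Agent.Lib_MP_92ef0c_sp.ApxN3
import Pool.Agent.Lib_MP_92ef0c_sp.ApxO3

/-!
# The limits of the weights, general bounded functions
-/

set_option autoImplicit false

namespace Pool.Agent.SplL

open Finset Pool.Agent.Spl Pool.Agent.SplB Pool.Agent.GaussMR Pool.Agent.OmAll Pool.Agent.OmEq MeasureTheory Filter

open Classical in
/-- PROOF. Copy of the last theorem `apxN3` of `Lib_MP_92ef0c_sp/ApxN3.lean` (the lemmas before it can be imported): only the bound `1` for the product of the four functions is used there. -/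
theorem apxN4 (h0 Q n0 : ℕ) (hh0 : 0 < h0) (Φ : ℝ → Q4 → ℂ) (hΦ : ∀ X e, ‖Φ X e‖ ≤ 1) (h : ℝ → ℝ) (h1 h2 : ℝ)
    (hh : HF h h1 h2) (J N n : ℕ) (hJ : 1 ≤ J) (hN : 1 ≤ N) (hn : 1 ≤ n) (b : ℝ) (hb : 0 < b) :
    Tendsto (fun X : ℝ => (∑ e ∈ (SN (n * h0) (b * X)).filter (kap3 n Q n0), Φ X e * ((w3 h J N n X e : ℝ) : ℂ) -
      ∑ e ∈ (SN (n * h0) (b * X)).filter (kap3 n Q n0), Φ X e * WN3 h J N n (yS e / X) (tS e) (uS e)) / X)
      atTop (nhds 0) := by
  have hn' : (1 : ℝ) ≤ n := by exact_mod_cast hn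
  have hJ' : (1 : ℝ) ≤ J := by exact_mod_cast hJ
  have hN' : (1 : ℝ) ≤ N := by exact_mod_cast hN
  obtain ⟨B, hB⟩ : ∃ B : ℝ, B = (2 * Real.log (J + N + 1) + 1) + (Real.log (n + 1) + 1) := ⟨_, rfl⟩
  have hl1 : 0 ≤ Real.log ((J : ℝ) + N + 1) := Real.log_nonneg (by linarith)
  have hl2 : 0 ≤ Real.log ((n : ℝ) + 1) := Real.log_nonneg (by linarith)
  have hB0 : 0 ≤ B := by linarith
  obtain ⟨C, hC, hcnt⟩ := cnt3 B
  obtain ⟨c3, hc3⟩ : ∃ c3 : ℝ, c3 = h1 / (√(b + 1) * Real.exp (B / 2)) := ⟨_, rfl⟩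
  have hc30 : 0 < c3 := by
    rw [hc3]
    have := hh.pos
    positivity
  have hK := apxn3_K_cont hh J N n hc30
  have hcomp : IsCompact (Set.Icc (0 : ℝ) b ×ˢ (Set.Icc (-B) B ×ˢ (Set.Icc (-B) B ×ˢ Set.Icc (0 : ℝ) 1))) :=
    isCompact_Icc.prod (isCompact_Icc.prod (isCompact_Icc.prod isCompact_Icc))
  have huc := hcomp.uniformContinuousOn_of_continuous hK.continuousOn
  rw [Metric.tendsto_atTop]
  intro ε hε
  have hε' : 0 < ε / (2 * (C * b)) := by positivity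
  obtain ⟨η, hη, hK2⟩ := Metric.uniformContinuousOn_iff.1 huc (ε / (2 * (C * b))) hε'
  obtain ⟨m, hm⟩ : ∃ m : ℕ, m = n * h0 := ⟨_, rfl⟩
  have hm0 : 0 < m := by rw [hm]; positivity
  have hm1 : (0 : ℝ) < m := by exact_mod_cast hm0
  refine ⟨max 1 (max (m / b) (max m (max (2 * m / η) (h0 / h1)))), fun X hX => ?_⟩
  have x1 : 1 ≤ X := (le_max_left _ _).trans hX
  have x2 : m / b ≤ X := ((le_max_left _ _).trans (le_max_right _ _)).trans hX
  have hX' : max (m : ℝ) (max (2 * m / η) (h0 / h1)) ≤ X := ((le_max_right _ _).trans (le_max_right _ _)).trans hX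
  have x3 : (m : ℝ) ≤ X := (le_max_left _ _).trans hX'
  have x4 : 2 * m / η ≤ X := ((le_max_left _ _).trans (le_max_right _ _)).trans hX'
  have x5 : (h0 : ℝ) / h1 ≤ X := ((le_max_right _ _).trans (le_max_right _ _)).trans hX'
  have hX0 : 0 < X := by linarith
  have y1 : (m : ℝ) ≤ b * X := by
    rw [div_le_iff₀ hb] at x2
    linarith
  have y2 : (m : ℝ) / X ≤ 1 := by
    rw [div_le_one hX0]
    exact x3
  have y3 : (m : ℝ) / X < η := by
    rw [div_le_iff₀ hη] at x4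
    rw [div_lt_iff₀ hX0]
    nlinarith
  have hterm : ∀ e ∈ SN m (b * X), ‖((w3 h J N n X e : ℝ) : ℂ) - WN3 h J N n (yS e / X) (tS e) (uS e)‖ ≤
      if |tS e| ≤ B ∧ |uS e| ≤ B then ε / (2 * (C * b)) else 0 := by
    intro e he
    rw [mem_SN] at he
    have hm' := yS_pos he.1
    have hy : 0 < yS e / X := div_pos (by linarith) hX0
    have hyb : yS e / X ≤ b := by
      rw [div_le_iff₀ hX0]
      exact he.2
    split_ifs with ht
    · rw [apxn3_w hh hJ hN hn hb hX0 he.1 he.2 ht.1 ht.2 x3,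
        ← apxn3_K_zero (J := J) (N := N) hh hn hb hy hyb ht.1 ht.2, ← hc3, ← Complex.ofReal_sub,
        Complex.norm_real, ← dist_eq_norm]
      refine (hK2 _ ?_ _ ?_ ?_).le
      · rw [abs_le, abs_le] at ht
        exact ⟨⟨hy.le, hyb⟩, ⟨ht.1, ⟨ht.2, ⟨by positivity, y2⟩⟩⟩⟩
      · rw [abs_le, abs_le] at ht
        exact ⟨⟨hy.le, hyb⟩, ⟨ht.1, ⟨ht.2, ⟨le_refl _, zero_le_one⟩⟩⟩⟩
      · rw [Prod.dist_eq, Prod.dist_eq, Prod.dist_eq]
        simp only [dist_self]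
        rw [Real.dist_eq, sub_zero, abs_of_nonneg (by positivity : (0 : ℝ) ≤ m / X)]
        exact max_lt hη (max_lt hη (max_lt hη y3))
    · have z1 : w3 h J N n X e = 0 := by
        by_contra h3
        have := apxn3_w_bound hh hJ hN hn hX0 x5 (by rw [← hm]; exact he.1) h3
        exact ht ⟨by rw [hB]; linarith [this.1], by rw [hB]; linarith [this.2]⟩
      have z2 : WN3 h J N n (yS e / X) (tS e) (uS e) = 0 := by
        by_contra h3
        have := apxn3_W_bound hh hJ hN hn h3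
        exact ht ⟨by rw [hB]; linarith [this.1], by rw [hB]; linarith [this.2]⟩
      rw [z1, z2]
      simp
  rw [dist_zero_right, norm_div, Complex.norm_real, Real.norm_eq_abs, abs_of_pos hX0,
    div_lt_iff₀ hX0]
  rw [← sum_sub_distrib, ← hm]
  have hs : ‖∑ e ∈ (SN m (b * X)).filter (kap3 n Q n0),
      (Φ X e * ((w3 h J N n X e : ℝ) : ℂ) -
        Φ X e * WN3 h J N n (yS e / X) (tS e) (uS e))‖ ≤
      ∑ e ∈ SN m (b * X), if |tS e| ≤ B ∧ |uS e| ≤ B then ε / (2 * (C * b)) else 0 := by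
    refine (norm_sum_le _ _).trans ?_
    refine (sum_le_sum (g := fun e => if |tS e| ≤ B ∧ |uS e| ≤ B then ε / (2 * (C * b)) else 0)
      fun e he => ?_).trans ?_
    · rw [← mul_sub, norm_mul]
      have h3 := hterm e (mem_filter.1 he).1
      have h4 : ‖Φ X e‖ ≤ 1 := hΦ X e
      calc ‖Φ X e‖ * _ ≤ 1 * _ := mul_le_mul_of_nonneg_right h4 (norm_nonneg _)
        _ ≤ _ := by rw [one_mul]; exact h3
    · refine sum_le_sum_of_subset_of_nonneg (filter_subset _ _) fun e _ _ => ?_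
      split_ifs
      · exact hε'.le
      · exact le_refl _
  refine lt_of_le_of_lt hs ?_
  rw [← sum_filter, sum_const, nsmul_eq_mul]
  have h5 := hcnt m hm0 (b * X) y1
  calc (((SN m (b * X)).filter (fun e => |tS e| ≤ B ∧ |uS e| ≤ B)).card : ℝ) * (ε / (2 * (C * b)))
      ≤ C * (b * X) * (ε / (2 * (C * b))) := mul_le_mul_of_nonneg_right (by convert h5) hε'.le
    _ = ε * X / 2 := by field_simp
    _ < ε * X := by
      have : 0 < ε * X := by positivity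
      linarith

/-- PROOF. Copy of the last theorem `apxO3` of `Lib_MP_92ef0c_sp/ApxO3.lean`. -/
theorem apxO4 (h0 Q n0 : ℕ) (hh0 : 0 < h0) (Φ : ℝ → Q4 → ℂ) (hΦ : ∀ X e, ‖Φ X e‖ ≤ 1) (h : ℝ → ℝ) (h1 h2 : ℝ)
    (hh : HF h h1 h2) (J N : ℕ) (hJ : 1 ≤ J) (hN : 1 ≤ N) (b : ℝ) (hb : 0 < b) :
    Tendsto (fun X : ℝ => (∑ e ∈ SQ h0 Q n0 (b * X), Φ X e * ((wV h X e.a e.b * rho J N ((e.c : ℝ) / e.a) : ℝ) : ℂ) -
      ∑ e ∈ SQ h0 Q n0 (b * X), Φ X e * WO3 h J N (yS e / X) (tS e) (uS e)) / X) atTop (nhds 0) := by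
  obtain ⟨B, hB⟩ : ∃ B : ℝ, B = Real.log (3 * (J + N) + h0) + 2 := ⟨_, rfl⟩
  obtain ⟨C, hC, hcnt⟩ := cnt3 B
  have hcomp : IsCompact (Set.Icc h1 b ×ˢ (Set.Icc (-B) B ×ˢ (Set.Icc (-B) B ×ˢ Set.Icc (0 : ℝ) 1))) :=
    isCompact_Icc.prod (isCompact_Icc.prod (isCompact_Icc.prod isCompact_Icc))
  have hKc := apxo3_K_cont hh J N
    (Set.Icc h1 b ×ˢ (Set.Icc (-B) B ×ˢ (Set.Icc (-B) B ×ˢ Set.Icc (0 : ℝ) 1)))
    (fun p hp => ⟨lt_of_lt_of_le hh.pos hp.1.1, hp.2.2.2.1⟩)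
  have huc := hcomp.uniformContinuousOn_of_continuous hKc
  rw [Metric.tendsto_atTop]
  intro ε hε
  have hε' : 0 < ε / (2 * (C * b)) := by positivity
  have hh0' : (0 : ℝ) < h0 := by exact_mod_cast hh0
  obtain ⟨η, hη, hK2⟩ := Metric.uniformContinuousOn_iff.1 huc (ε / (2 * (C * b))) hε'
  refine ⟨max 1 (max h0 (max (h0 / b) (2 * h0 / η))), fun X hX => ?_⟩
  have x1 : 1 ≤ X := (le_max_left _ _).trans hX
  have x2 : (h0 : ℝ) ≤ X := ((le_max_left _ _).trans (le_max_right _ _)).trans hX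
  have x3 : (h0 : ℝ) / b ≤ X :=
    ((le_max_left _ _).trans ((le_max_right _ _).trans (le_max_right _ _))).trans hX
  have x4 : 2 * (h0 : ℝ) / η ≤ X :=
    ((le_max_right _ _).trans ((le_max_right _ _).trans (le_max_right _ _))).trans hX
  have hX0 : 0 < X := by linarith
  have y1 : (h0 : ℝ) ≤ b * X := by
    rw [div_le_iff₀ hb] at x3
    linarith
  have y2 : (h0 : ℝ) / X ≤ 1 := by
    rw [div_le_one hX0]
    exact x2
  have y3 : (h0 : ℝ) / X < η := by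
    rw [div_le_iff₀ hη] at x4
    rw [div_lt_iff₀ hX0]
    nlinarith
  have y4 : 0 ≤ (h0 : ℝ) / X := by positivity
  have hterm : ∀ e ∈ SQ h0 Q n0 (b * X), ‖((wV h X e.a e.b * rho J N ((e.c : ℝ) / e.a) : ℝ) : ℂ) -
      WO3 h J N (yS e / X) (tS e) (uS e)‖ ≤
        if |tS e| ≤ B ∧ |uS e| ≤ B then ε / (2 * (C * b)) else 0 := by
    intro e he
    rw [mem_SQ] at he
    obtain ⟨⟨he1, he2⟩, -⟩ := he
    have hy0 : 0 < yS e / X := div_pos (by linarith [yS_pos he1]) hX0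
    have hyb : yS e / X ≤ b := by
      rw [div_le_iff₀ hX0]
      exact he2
    by_cases hall : h1 ≤ yS e / X ∧ |tS e| ≤ B ∧ |uS e| ≤ B
    · obtain ⟨k1, k2, k3⟩ := hall
      rw [if_pos ⟨k2, k3⟩, apxo3_w h J N hX0 he1, ← apxo3_K_zero h J N hy0, ← Complex.ofReal_sub,
        Complex.norm_real, ← dist_eq_norm]
      rw [abs_le] at k2 k3
      refine (hK2 _ ?_ _ ?_ ?_).le
      · exact ⟨⟨k1, hyb⟩, ⟨k2, ⟨k3, ⟨y4, y2⟩⟩⟩⟩
      · exact ⟨⟨k1, hyb⟩, ⟨k2, ⟨k3, ⟨le_refl _, zero_le_one⟩⟩⟩⟩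
      · rw [Prod.dist_eq, Prod.dist_eq, Prod.dist_eq]
        simp only [dist_self]
        rw [Real.dist_eq, sub_zero, abs_of_nonneg y4]
        exact max_lt hη (max_lt hη (max_lt hη y3))
    · have z1 : wV h X e.a e.b * rho J N ((e.c : ℝ) / e.a) = 0 := by
        by_contra h3
        apply hall
        rw [hB]
        exact apxo3_supp hh hJ hN hX0 he1 h3
      have z2 : WO3 h J N (yS e / X) (tS e) (uS e) = 0 := by
        by_contra h3
        apply hall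
        rw [hB]
        exact apxo3_suppW hh hJ hN h3
      rw [z1, z2]
      simp only [Complex.ofReal_zero, sub_self, norm_zero]
      split_ifs
      · exact hε'.le
      · exact le_refl _
  rw [dist_zero_right, norm_div, Complex.norm_real, Real.norm_eq_abs, abs_of_pos hX0,
    div_lt_iff₀ hX0]
  rw [← sum_sub_distrib]
  have hs : ‖∑ e ∈ SQ h0 Q n0 (b * X),
      (Φ X e * ((wV h X e.a e.b * rho J N ((e.c : ℝ) / e.a) : ℝ) : ℂ) -
        Φ X e * WO3 h J N (yS e / X) (tS e) (uS e))‖ ≤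
      ∑ e ∈ SN h0 (b * X), if |tS e| ≤ B ∧ |uS e| ≤ B then ε / (2 * (C * b)) else 0 := by
    refine (norm_sum_le _ _).trans ?_
    have hsub : SQ h0 Q n0 (b * X) ⊆ SN h0 (b * X) := by
      intro e he
      rw [mem_SQ] at he
      exact mem_SN.2 he.1
    refine le_trans (sum_le_sum fun e he => ?_)
      (sum_le_sum_of_subset_of_nonneg hsub fun e _ _ => ?_)
    · rw [← mul_sub, norm_mul]
      have h3 := hterm e he
      have h4 := hΦ X e
      exact (mul_le_of_le_one_left (norm_nonneg _) h4).trans h3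
    · split_ifs
      · exact hε'.le
      · exact le_refl _
  refine lt_of_le_of_lt hs ?_
  rw [← sum_filter, sum_const, nsmul_eq_mul]
  have h5 := hcnt h0 hh0 (b * X) y1
  have h6 : (((SN h0 (b * X)).filter (fun e => |tS e| ≤ B ∧ |uS e| ≤ B)).card : ℝ) *
      (ε / (2 * (C * b))) ≤ C * (b * X) * (ε / (2 * (C * b))) := by
    refine mul_le_mul_of_nonneg_right (le_trans (le_of_eq ?_) h5) hε'.le
    congr 2
  refine lt_of_le_of_lt h6 ?_
  have h7 : C * (b * X) * (ε / (2 * (C * b))) = ε * X / 2 := by field_simp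
  rw [h7]
  have : 0 < ε * X := by positivity
  linarith

end Pool.Agent.SplL
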