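import Pool.Agent.Lib_MP_92ef0c_la.LDefs
import Pool.Agent.Lib_MP_92ef0c_sp.ArcP3

/-!
# Pairs of rows with close directions, general functions
-/

set_option autoImplicit false

namespace Pool.Agent.SplL

open Finset Pool.Agent.Spl Pool.Agent.SplB Pool.Agent.GaussMR Pool.Agent.OmAll Pool.Agent.OmEq MeasureTheory Filter

open Classical in
/-- the indicator of an arc as a function of its left end -/
private noncomputable def arci4J (δ s τ : ℝ) : ℝ := if τ ≤ s ∧ s < τ + δ then 1 else 0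

private theorem arci4J_eq (δ s : ℝ) :
    arci4J δ s = (Set.Ioc (s - δ) s).indicator (fun _ => (1 : ℝ)) := by
  classical
  funext τ
  unfold arci4J
  by_cases h : τ ≤ s ∧ s < τ + δ
  · rw [if_pos h, Set.indicator_of_mem]
    exact ⟨by linarith [h.2], h.1⟩
  · rw [if_neg h, Set.indicator_of_notMem]
    rintro ⟨h1, h2⟩
    exact h ⟨h2, by linarith⟩

private theorem arci4J_int (δ s : ℝ) : Integrable (arci4J δ s) := by
  rw [arci4J_eq, integrable_indicator_iff measurableSet_Ioc]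
  exact integrableOn_const (by rw [Real.volume_Ioc]; exact ENNReal.ofReal_ne_top)

private theorem arci4J_meas (δ s : ℝ) : Measurable (arci4J δ s) := by
  rw [arci4J_eq]
  exact measurable_const.indicator measurableSet_Ioc

private theorem arci4J_nonneg (δ s τ : ℝ) : 0 ≤ arci4J δ s τ := by
  classical
  unfold arci4J
  split_ifs <;> norm_num

private theorem arci4J_le (δ s τ : ℝ) : arci4J δ s τ ≤ 1 := by
  classical
  unfold arci4J
  split_ifs <;> norm_num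

private theorem arci4_ov (s s' δ : ℝ) (hδ : 0 < δ) (l : ℕ) :
    ∫ τ : ℝ, arci4J δ s τ * arci4J δ s' (τ + l * δ) = δ * max 0 (1 - |(s' - s) / δ - l|) :=
  arc_overlap3 s s' δ hδ l

private theorem arci4_meas2 (s s' δ c : ℝ) :
    Measurable (fun τ : ℝ => arci4J δ s τ * arci4J δ s' (τ + c)) :=
  (arci4J_meas δ s).mul ((arci4J_meas δ s').comp (measurable_id.add_const c))

private theorem arci4_int2 (s s' δ c : ℝ) (φ : ℝ → ℝ) (hφm : Measurable φ) (B : ℝ) (hB : 0 ≤ B) (hφ : ∀ τ, arci4J δ s τ ≠ 0 → |φ τ| ≤ B) :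
    Integrable (fun τ : ℝ => arci4J δ s τ * arci4J δ s' (τ + c) * φ τ) := by
  refine ((arci4J_int δ s).mul_const B).mono' ((arci4_meas2 s s' δ c).mul hφm).aestronglyMeasurable
    (Filter.Eventually.of_forall (fun τ => ?_))
  rw [Real.norm_eq_abs, abs_mul, abs_mul, abs_of_nonneg (arci4J_nonneg δ s τ),
    abs_of_nonneg (arci4J_nonneg δ s' (τ + c))]
  by_cases h : arci4J δ s τ = 0
  · rw [h, zero_mul, zero_mul, zero_mul]
  · have h1 := hφ τ h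
    have h2 := arci4J_nonneg δ s τ
    have h3 := arci4J_le δ s' (τ + c)
    have h4 := arci4J_nonneg δ s' (τ + c)
    calc arci4J δ s τ * arci4J δ s' (τ + c) * |φ τ| ≤ arci4J δ s τ * 1 * B := by gcongr
      _ = arci4J δ s τ * B := by ring

private theorem arci4_term (s s' δ : ℝ) (hδ : 0 < δ) (l : ℕ) (φ : ℝ → ℝ) (hφm : Measurable φ) (L : ℝ) (hL : 0 ≤ L)
    (hφ : ∀ s t, |φ s - φ t| ≤ L * |s - t|) (hφ1 : ∀ s, |φ s| ≤ 1) :
    |(∫ τ : ℝ, arci4J δ s τ * arci4J δ s' (τ + l * δ) * φ τ) - φ s * (δ * max 0 (1 - |(s' - s) / δ - l|))| ≤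
      L * δ * (δ * max 0 (1 - |(s' - s) / δ - l|)) := by
  have i1 := arci4_int2 s s' δ (l * δ) φ hφm 1 zero_le_one (fun τ _ => hφ1 τ)
  have i2 := arci4_int2 s s' δ (l * δ) (fun _ => φ s) measurable_const 1 zero_le_one (fun _ _ => hφ1 s)
  have i3 := arci4_int2 s s' δ (l * δ) (fun _ => L * δ) measurable_const (L * δ) (by positivity)
    (fun _ _ => by rw [abs_of_nonneg (by positivity)])
  have e0 := arci4_ov s s' δ hδ l
  have e1 : φ s * (δ * max 0 (1 - |(s' - s) / δ - l|)) =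
      ∫ τ : ℝ, arci4J δ s τ * arci4J δ s' (τ + l * δ) * φ s := by
    rw [integral_mul_const, e0]
    ring
  have e2 : L * δ * (δ * max 0 (1 - |(s' - s) / δ - l|)) =
      ∫ τ : ℝ, arci4J δ s τ * arci4J δ s' (τ + l * δ) * (L * δ) := by
    rw [integral_mul_const, e0]
    ring
  rw [e1, e2, ← integral_sub i1 i2, ← Real.norm_eq_abs]
  refine norm_integral_le_of_norm_le i3 (Filter.Eventually.of_forall (fun τ => ?_))
  rw [← mul_sub, Real.norm_eq_abs, abs_mul, abs_mul, abs_of_nonneg (arci4J_nonneg δ s τ),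
    abs_of_nonneg (arci4J_nonneg δ s' (τ + l * δ))]
  by_cases h : arci4J δ s τ = 0
  · rw [h, zero_mul, zero_mul, zero_mul]
  · have h2 := arci4J_nonneg δ s τ
    have h4 := arci4J_nonneg δ s' (τ + l * δ)
    refine mul_le_mul_of_nonneg_left ?_ (mul_nonneg h2 h4)
    refine (hφ τ s).trans (mul_le_mul_of_nonneg_left ?_ hL)
    have h5 : τ ≤ s ∧ s < τ + δ := by
      by_contra h6
      apply h
      unfold arci4J
      exact if_neg h6
    rw [abs_le]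
    exact ⟨by linarith [h5.2], by linarith [h5.1]⟩

open Classical in
private theorem arci4_S2 (β : ℕ × ℕ → ℂ) (m : ℕ) (b : ℕ × ℕ) (C D δ τ : ℝ) :
    S2 β m b C D δ τ = ∑ z ∈ (PB C D).filter (fun z => z.1 ≡ b.1 [MOD m] ∧ z.2 ≡ b.2 [MOD m]),
      β z * ((arci4J δ (dirn z) τ : ℝ) : ℂ) := by
  unfold S2
  rw [Finset.sum_filter, Finset.sum_filter]
  refine Finset.sum_congr rfl (fun z _ => ?_)
  unfold arci4J
  by_cases h1 : z.1 ≡ b.1 [MOD m] ∧ z.2 ≡ b.2 [MOD m]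
  · by_cases h : τ ≤ dirn z ∧ dirn z < τ + δ
    · rw [if_pos h1, if_pos h, if_pos ⟨h1, h⟩, Complex.ofReal_one, mul_one]
    · rw [if_pos h1, if_neg h, if_neg (fun hh => h hh.2), Complex.ofReal_zero, mul_zero]
  · rw [if_neg h1, if_neg (fun hh => h1 hh.1)]

private theorem arci4_max (s s' δ : ℝ) (hδ : 0 < δ) (l : ℕ) (h : ¬ |s' - s| ≤ (l + 1) * δ) :
    max 0 (1 - |(s' - s) / δ - l|) = 0 := by
  push Not at h
  refine max_eq_left ?_
  have h1 : |s' - s| / δ = |(s' - s) / δ| := by rw [abs_div, abs_of_pos hδ]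
  have h2 : (l : ℝ) + 1 < |s' - s| / δ := by
    rw [lt_div_iff₀ hδ]
    exact h
  have h3 : |(s' - s) / δ| ≤ |(s' - s) / δ - l| + |(l : ℝ)| := by
    have := abs_add_le ((s' - s) / δ - l) (l : ℝ)
    rwa [sub_add_cancel] at this
  rw [abs_of_nonneg (Nat.cast_nonneg l : (0 : ℝ) ≤ l)] at h3
  rw [h1] at h2
  linarith

/-- PROOF. Copy of `arc_bound3` (`Lib_MP_92ef0c_sp/ArcI3.lean`; the private lemmas on `arci4J` have to be copied), with `β` in place of `F2 f`. -/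
theorem arc_bound4 (β : ℕ × ℕ → ℂ) (hβ : ∀ z, ‖β z‖ ≤ 1) (m : ℕ) (b b' : ℕ × ℕ) (C D C' D' δ A : ℝ) (hδ : 0 < δ) (l : ℕ)
    (φ : ℝ → ℝ) (L : ℝ) (hL : 0 ≤ L) (hφ : ∀ s t, |φ s - φ t| ≤ L * |s - t|) (hφ1 : ∀ s, |φ s| ≤ 1)
    (h1 : ∫ τ, ‖S2 β m b C D δ τ‖ ^ 2 ≤ A) (h2 : ∫ τ, ‖S2 β m b' C' D' δ τ‖ ^ 2 ≤ A) :
    ‖∑ V ∈ (PB C D).filter (fun z => z.1 ≡ b.1 [MOD m] ∧ z.2 ≡ b.2 [MOD m]),
      ∑ V' ∈ (PB C' D').filter (fun z => z.1 ≡ b'.1 [MOD m] ∧ z.2 ≡ b'.2 [MOD m]),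
      β V * (starRingEnd ℂ) (β V') * ((φ (dirn V) * max 0 (1 - |(dirn V' - dirn V) / δ - l|) : ℝ) : ℂ)‖ ≤
    A / δ + L * δ * (((PB C D ×ˢ PB C' D').filter
      (fun e : (ℕ × ℕ) × (ℕ × ℕ) => |dirn e.2 - dirn e.1| ≤ (l + 1) * δ)).card : ℝ) := by
  have hφc : Continuous φ := by
    have : LipschitzWith (Real.toNNReal L) φ := by
      refine LipschitzWith.of_dist_le_mul (fun x y => ?_)
      rw [Real.dist_eq, Real.dist_eq, Real.coe_toNNReal L hL]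
      exact hφ x y
    exact this.continuous
  have hφm : Measurable φ := hφc.measurable
  set G1 := (PB C D).filter (fun z => z.1 ≡ b.1 [MOD m] ∧ z.2 ≡ b.2 [MOD m]) with hG1
  set G2 := (PB C' D').filter (fun z => z.1 ≡ b'.1 [MOD m] ∧ z.2 ≡ b'.2 [MOD m]) with hG2
  set T1 : ℝ → ℂ := fun τ => S2 β m b C D δ τ with hT1
  set T2 : ℝ → ℂ := fun τ => S2 β m b' C' D' δ (τ + l * δ) with hT2
  have e1 : ∀ τ, T1 τ = ∑ V ∈ G1, β V * ((arci4J δ (dirn V) τ : ℝ) : ℂ) := fun τ => arci4_S2 β m b C D δ τ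
  have e2' : ∀ τ, S2 β m b' C' D' δ τ = ∑ V ∈ G2, β V * ((arci4J δ (dirn V) τ : ℝ) : ℂ) :=
    fun τ => arci4_S2 β m b' C' D' δ τ
  have e2 : ∀ τ, T2 τ = ∑ V ∈ G2, β V * ((arci4J δ (dirn V) (τ + l * δ) : ℝ) : ℂ) :=
    fun τ => arci4_S2 β m b' C' D' δ (τ + l * δ)
  -- general facts for sums of indicators
  have gen : ∀ (G : Finset (ℕ × ℕ)) (S : ℝ → ℂ) (c : ℝ),
      (∀ τ, S τ = ∑ V ∈ G, β V * ((arci4J δ (dirn V) (τ + c) : ℝ) : ℂ)) →
      Measurable S ∧ Integrable (fun τ => ‖S τ‖ ^ 2) := by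
    intro G S c hS
    have hm : Measurable S := by
      have : S = fun τ => ∑ V ∈ G, β V * ((arci4J δ (dirn V) (τ + c) : ℝ) : ℂ) := funext hS
      rw [this]
      refine Finset.measurable_sum _ (fun V _ => ?_)
      exact (Complex.measurable_ofReal.comp ((arci4J_meas δ (dirn V)).comp (measurable_id.add_const c))).const_mul _
    refine ⟨hm, ?_⟩
    have hb : ∀ τ, ‖S τ‖ ≤ ∑ V ∈ G, arci4J δ (dirn V) (τ + c) := by
      intro τ
      rw [hS]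
      refine norm_sum_le_of_le _ (fun V _ => ?_)
      rw [norm_mul, Complex.norm_real, Real.norm_eq_abs, abs_of_nonneg (arci4J_nonneg _ _ _)]
      exact mul_le_of_le_one_left (arci4J_nonneg _ _ _) (hβ V)
    have hb' : ∀ τ, ‖S τ‖ ≤ (G.card : ℝ) := by
      intro τ
      refine (hb τ).trans ?_
      calc ∑ V ∈ G, arci4J δ (dirn V) (τ + c) ≤ ∑ _V ∈ G, (1 : ℝ) := Finset.sum_le_sum (fun V _ => arci4J_le _ _ _)
        _ = (G.card : ℝ) := by rw [Finset.sum_const, nsmul_eq_mul, mul_one]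
    have hi : Integrable (fun τ => (G.card : ℝ) * ∑ V ∈ G, arci4J δ (dirn V) (τ + c)) := by
      refine Integrable.const_mul ?_ _
      exact integrable_finset_sum _ (fun V _ => (arci4J_int δ (dirn V)).comp_add_right c)
    refine hi.mono' (hm.norm.pow_const 2).aestronglyMeasurable (Filter.Eventually.of_forall (fun τ => ?_))
    rw [Real.norm_eq_abs, abs_of_nonneg (by positivity), pow_two]
    exact mul_le_mul (hb' τ) (hb τ) (norm_nonneg _) (Nat.cast_nonneg _)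
  obtain ⟨m1, hi1⟩ := gen G1 T1 0 (fun τ => by rw [e1 τ]; simp only [add_zero])
  obtain ⟨m2, hi2⟩ := gen G2 T2 (l * δ) e2
  have h2' : ∫ τ, ‖T2 τ‖ ^ 2 ≤ A := by
    have k1 := integral_add_right_eq_self (fun τ => ‖S2 β m b' C' D' δ τ‖ ^ 2) ((l : ℝ) * δ) (μ := volume)
    rw [hT2]
    simp only at k1 ⊢
    rw [k1]
    exact h2
  set K : (ℕ × ℕ) → (ℕ × ℕ) → ℝ := fun V V' =>
    ∫ τ : ℝ, arci4J δ (dirn V) τ * arci4J δ (dirn V') (τ + l * δ) * φ τ with hK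
  have hmain : ∫ τ, T1 τ * (starRingEnd ℂ) (T2 τ) * ((φ τ : ℝ) : ℂ) =
      ∑ V ∈ G1, ∑ V' ∈ G2, β V * (starRingEnd ℂ) (β V') * ((K V V' : ℝ) : ℂ) := by
    have k1 : ∀ τ : ℝ, T1 τ * (starRingEnd ℂ) (T2 τ) * ((φ τ : ℝ) : ℂ) = ∑ p ∈ G1 ×ˢ G2,
        (β p.1 * (starRingEnd ℂ) (β p.2)) *
          ((arci4J δ (dirn p.1) τ * arci4J δ (dirn p.2) (τ + l * δ) * φ τ : ℝ) : ℂ) := by
      intro τ
      rw [e1, e2, map_sum, Finset.sum_mul_sum, Finset.sum_mul, Finset.sum_product]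
      refine Finset.sum_congr rfl (fun V _ => ?_)
      rw [Finset.sum_mul]
      refine Finset.sum_congr rfl (fun V' _ => ?_)
      rw [map_mul, Complex.conj_ofReal]
      push_cast
      ring
    have k2 : ∀ p ∈ G1 ×ˢ G2, Integrable (fun τ => (β p.1 * (starRingEnd ℂ) (β p.2)) *
          ((arci4J δ (dirn p.1) τ * arci4J δ (dirn p.2) (τ + l * δ) * φ τ : ℝ) : ℂ)) := by
      intro p _
      exact ((arci4_int2 (dirn p.1) (dirn p.2) δ (l * δ) φ hφm 1 zero_le_one (fun τ _ => hφ1 τ)).ofReal).const_mul _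
    simp only [k1]
    rw [integral_finset_sum _ k2, Finset.sum_product]
    refine Finset.sum_congr rfl (fun V _ => Finset.sum_congr rfl (fun V' _ => ?_))
    rw [integral_const_mul, integral_complex_ofReal]
  have hb : ‖∫ τ, T1 τ * (starRingEnd ℂ) (T2 τ) * ((φ τ : ℝ) : ℂ)‖ ≤ A := by
    calc ‖∫ τ, T1 τ * (starRingEnd ℂ) (T2 τ) * ((φ τ : ℝ) : ℂ)‖
        ≤ ∫ τ, ((1 / 2 : ℝ) * ‖T1 τ‖ ^ 2 + (1 / 2 : ℝ) * ‖T2 τ‖ ^ 2) := by
          refine norm_integral_le_of_norm_le ((hi1.const_mul _).add (hi2.const_mul _)) ?_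
          refine Filter.Eventually.of_forall (fun τ => ?_)
          rw [norm_mul, norm_mul, RCLike.norm_conj, Complex.norm_real, Real.norm_eq_abs]
          have k3 : ‖T1 τ‖ * ‖T2 τ‖ * |φ τ| ≤ ‖T1 τ‖ * ‖T2 τ‖ * 1 :=
            mul_le_mul_of_nonneg_left (hφ1 τ) (by positivity)
          nlinarith [sq_nonneg (‖T1 τ‖ - ‖T2 τ‖)]
      _ = (1 / 2 : ℝ) * (∫ τ, ‖T1 τ‖ ^ 2) + (1 / 2 : ℝ) * (∫ τ, ‖T2 τ‖ ^ 2) := by
          rw [integral_add (hi1.const_mul _) (hi2.const_mul _), integral_const_mul, integral_const_mul]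
      _ ≤ A := by linarith
  set T := ∑ V ∈ G1, ∑ V' ∈ G2, β V * (starRingEnd ℂ) (β V') *
        ((φ (dirn V) * max 0 (1 - |(dirn V' - dirn V) / δ - l|) : ℝ) : ℂ) with hT
  set N : ℝ := (((PB C D ×ˢ PB C' D').filter
      (fun e : (ℕ × ℕ) × (ℕ × ℕ) => |dirn e.2 - dirn e.1| ≤ (l + 1) * δ)).card : ℝ) with hN
  have hdiff : ‖(δ : ℂ) * T - ∫ τ, T1 τ * (starRingEnd ℂ) (T2 τ) * ((φ τ : ℝ) : ℂ)‖ ≤ L * δ ^ 2 * N := by
    have k1 : (δ : ℂ) * T - ∫ τ, T1 τ * (starRingEnd ℂ) (T2 τ) * ((φ τ : ℝ) : ℂ) =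
        ∑ p ∈ G1 ×ˢ G2, β p.1 * (starRingEnd ℂ) (β p.2) *
          ((φ (dirn p.1) * (δ * max 0 (1 - |(dirn p.2 - dirn p.1) / δ - l|)) - K p.1 p.2 : ℝ) : ℂ) := by
      rw [hmain, hT, ← Finset.sum_product', ← Finset.sum_product', Finset.mul_sum, ← Finset.sum_sub_distrib]
      refine Finset.sum_congr rfl (fun p _ => ?_)
      push_cast
      ring
    rw [k1]
    have k2 : ∀ p ∈ G1 ×ˢ G2, ‖β p.1 * (starRingEnd ℂ) (β p.2) *
          ((φ (dirn p.1) * (δ * max 0 (1 - |(dirn p.2 - dirn p.1) / δ - l|)) - K p.1 p.2 : ℝ) : ℂ)‖ ≤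
          if |dirn p.2 - dirn p.1| ≤ (l + 1) * δ then L * δ ^ 2 else 0 := by
      intro p _
      rw [norm_mul, norm_mul, RCLike.norm_conj, Complex.norm_real, Real.norm_eq_abs, abs_sub_comm]
      have k3 := arci4_term (dirn p.1) (dirn p.2) δ hδ l φ hφm L hL hφ hφ1
      have k4 : ‖β p.1‖ * ‖β p.2‖ ≤ 1 := mul_le_one₀ (hβ _) (norm_nonneg _) (hβ _)
      have k5 : ‖β p.1‖ * ‖β p.2‖ *
          |K p.1 p.2 - φ (dirn p.1) * (δ * max 0 (1 - |(dirn p.2 - dirn p.1) / δ - l|))| ≤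
          1 * (L * δ * (δ * max 0 (1 - |(dirn p.2 - dirn p.1) / δ - l|))) :=
        mul_le_mul k4 k3 (abs_nonneg _) zero_le_one
      refine k5.trans ?_
      rw [one_mul]
      by_cases hc : |dirn p.2 - dirn p.1| ≤ (l + 1) * δ
      · rw [if_pos hc]
        have k6 : max 0 (1 - |(dirn p.2 - dirn p.1) / δ - l|) ≤ 1 :=
          max_le zero_le_one (by linarith [abs_nonneg ((dirn p.2 - dirn p.1) / δ - l)])
        calc L * δ * (δ * max 0 (1 - |(dirn p.2 - dirn p.1) / δ - l|)) ≤ L * δ * (δ * 1) := by gcongr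
          _ = L * δ ^ 2 := by ring
      · rw [if_neg hc, arci4_max _ _ δ hδ l hc, mul_zero, mul_zero]
    refine (norm_sum_le_of_le _ k2).trans ?_
    rw [← Finset.sum_filter, Finset.sum_const, nsmul_eq_mul, mul_comm]
    have k7 : ((G1 ×ˢ G2).filter (fun e : (ℕ × ℕ) × (ℕ × ℕ) => |dirn e.2 - dirn e.1| ≤ (l + 1) * δ)).card ≤
        ((PB C D ×ˢ PB C' D').filter
          (fun e : (ℕ × ℕ) × (ℕ × ℕ) => |dirn e.2 - dirn e.1| ≤ (l + 1) * δ)).card := by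
      refine Finset.card_le_card (Finset.filter_subset_filter _ ?_)
      exact Finset.product_subset_product (Finset.filter_subset _ _) (Finset.filter_subset _ _)
    have k8 : (0 : ℝ) ≤ L * δ ^ 2 := by positivity
    refine mul_le_mul_of_nonneg_left ?_ k8
    rw [hN]
    exact_mod_cast k7
  have hfin : ‖(δ : ℂ) * T‖ ≤ A + L * δ ^ 2 * N := by
    have k1 : (δ : ℂ) * T = ((δ : ℂ) * T - ∫ τ, T1 τ * (starRingEnd ℂ) (T2 τ) * ((φ τ : ℝ) : ℂ)) +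
        ∫ τ, T1 τ * (starRingEnd ℂ) (T2 τ) * ((φ τ : ℝ) : ℂ) := by ring
    rw [k1]
    refine (norm_add_le _ _).trans ?_
    linarith
  rw [norm_mul, Complex.norm_real, Real.norm_eq_abs, abs_of_pos hδ] at hfin
  have k9 : A / δ + L * δ * N = (A + L * δ ^ 2 * N) / δ := by
    field_simp
  rw [k9, le_div_iff₀ hδ]
  linarith


open Classical in
/-- bound for one quadruple of cells -/
theorem arcp4_term (g : ℕ × ℕ → ℂ) (hg : ∀ z, ‖g z‖ ≤ 1) (D : ℕ) (hD : 0 < D) (κ : ℕ × ℕ → ℕ × ℕ → ℂ)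
    (hκ : ∀ V V', ‖κ V V'‖ ≤ 2) (hper : ∀ V V' U U' : ℕ × ℕ, V.1 ≡ U.1 [MOD D] → V.2 ≡ U.2 [MOD D] →
      V'.1 ≡ U'.1 [MOD D] → V'.2 ≡ U'.2 [MOD D] → κ V V' = κ U U')
    {C0 K s Y N A δ M : ℝ} (hC0 : 0 < C0) (hs : 0 < s) (hY : 0 < Y) (hN : 0 < N) {I i j k l β : ℕ}
    (hi : i < I) (hj : j < I) (hδ : δ = N / (I * Y)) (hA : 0 ≤ A) (hM : 0 ≤ M)
    (hS : ∀ b ∈ arcp3R D, ∀ k ∈ Icc 1 I,
      ∫ τ, ‖S2 g D b (C0 * s * (k : ℝ) / I) (K * s) δ τ‖ ^ 2 ≤ A)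
    (hcnt : (((PB (C0 * s) (K * s) ×ˢ PB (C0 * s) (K * s)).filter
      (fun e : (ℕ × ℕ) × (ℕ × ℕ) => |dirn e.2 - dirn e.1| ≤ (l + 1) * δ)).card : ℝ) ≤ M) :
    ‖∑ V ∈ PB (C0 * s) (K * s), ∑ V' ∈ PB (C0 * s) (K * s), κ V V' * (g V * (starRingEnd ℂ) (g V')) *
      ((cell C0 I i (V.1 / s) * cell C0 I j (V'.1 / s) * max 0 (1 - |I * (dirn V + β) - k|) *
        max 0 (1 - |I * (Y * (dirn V' - dirn V) / N) - l|) : ℝ) : ℂ)‖ ≤
      8 * ((D : ℝ) ^ 4) * (A / δ + I * δ * M) := by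
  have hI : (0 : ℝ) < I := by exact_mod_cast (Nat.zero_le i).trans_lt hi
  have hδ0 : 0 < δ := by
    rw [hδ]
    positivity
  have hE0 : 0 ≤ A / δ + I * δ * M := by positivity
  have e0 : ∀ V V' : ℕ × ℕ, κ V V' * (g V * (starRingEnd ℂ) (g V')) *
      ((cell C0 I i (V.1 / s) * cell C0 I j (V'.1 / s) * max 0 (1 - |I * (dirn V + β) - k|) *
        max 0 (1 - |I * (Y * (dirn V' - dirn V) / N) - l|) : ℝ) : ℂ) =
      κ V V' * (g V * (starRingEnd ℂ) (g V') * ((max 0 (1 - |I * (dirn V + β) - k|) *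
        max 0 (1 - |(dirn V' - dirn V) / δ - l|) : ℝ) : ℂ) *
        ((cell C0 I j (V'.1 / s) : ℝ) : ℂ) * ((cell C0 I i (V.1 / s) : ℝ) : ℂ)) := by
    intro V V'
    have e1 : (I : ℝ) * (Y * (dirn V' - dirn V) / N) = (dirn V' - dirn V) / δ := by
      rw [hδ]
      field_simp
    rw [e1]
    push_cast
    ring
  simp only [e0]
  rw [arcp3_split2 hD _ κ hper]
  have hcard : ((arcp3R D).card : ℝ) = (D : ℝ) * D := by
    rw [arcp3_card]
    push_cast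
    ring
  have hφL : ∀ x y : ℝ, |max 0 (1 - |I * (x + β) - k|) - max 0 (1 - |I * (y + β) - k|)| ≤ I * |x - y| := by
    intro x y
    have g1 : |max 0 (1 - |I * (x + β) - k|) - max 0 (1 - |I * (y + β) - k|)| ≤
        |(1 - |I * (x + β) - k|) - (1 - |I * (y + β) - k|)| := by
      have := abs_max_sub_max_le_abs (1 - |(I : ℝ) * (x + β) - k|) (1 - |(I : ℝ) * (y + β) - k|) 0
      rwa [max_comm 0, max_comm 0]
    refine g1.trans ?_
    have g2 : (1 - |(I : ℝ) * (x + β) - k|) - (1 - |(I : ℝ) * (y + β) - k|) =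
        |(I : ℝ) * (y + β) - k| - |(I : ℝ) * (x + β) - k| := by ring
    rw [g2]
    refine (abs_abs_sub_abs_le_abs_sub _ _).trans (le_of_eq ?_)
    have g3 : (I : ℝ) * (y + β) - k - (I * (x + β) - k) = I * (y - x) := by ring
    rw [g3, abs_mul, abs_of_pos hI, abs_sub_comm]
  have hφ1 : ∀ x : ℝ, |max 0 (1 - |(I : ℝ) * (x + β) - k|)| ≤ 1 := by
    intro x
    rw [abs_of_nonneg (le_max_left _ _)]
    exact max_le zero_le_one (by linarith [abs_nonneg ((I : ℝ) * (x + β) - k)])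
  have hterm : ∀ b ∈ arcp3R D, ∀ b' ∈ arcp3R D, ‖κ b b' *
      ∑ V ∈ (PB (C0 * s) (K * s)).filter (fun z => z.1 ≡ b.1 [MOD D] ∧ z.2 ≡ b.2 [MOD D]),
      ∑ V' ∈ (PB (C0 * s) (K * s)).filter (fun z => z.1 ≡ b'.1 [MOD D] ∧ z.2 ≡ b'.2 [MOD D]),
        (g V * (starRingEnd ℂ) (g V') * ((max 0 (1 - |I * (dirn V + β) - k|) *
        max 0 (1 - |(dirn V' - dirn V) / δ - l|) : ℝ) : ℂ) *
        ((cell C0 I j (V'.1 / s) : ℝ) : ℂ) * ((cell C0 I i (V.1 / s) : ℝ) : ℂ))‖ ≤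
        8 * (A / δ + I * δ * M) := by
    intro b hb b' hb'
    rw [norm_mul]
    have h4 : ‖∑ V ∈ (PB (C0 * s) (K * s)).filter (fun z => z.1 ≡ b.1 [MOD D] ∧ z.2 ≡ b.2 [MOD D]),
      ∑ V' ∈ (PB (C0 * s) (K * s)).filter (fun z => z.1 ≡ b'.1 [MOD D] ∧ z.2 ≡ b'.2 [MOD D]),
        (g V * (starRingEnd ℂ) (g V') * ((max 0 (1 - |I * (dirn V + β) - k|) *
        max 0 (1 - |(dirn V' - dirn V) / δ - l|) : ℝ) : ℂ) *
        ((cell C0 I j (V'.1 / s) : ℝ) : ℂ) * ((cell C0 I i (V.1 / s) : ℝ) : ℂ))‖ ≤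
        4 * (A / δ + I * δ * M) := by
      apply arcp3_cells hC0 hs hi hj (fun z => z.1 ≡ b.1 [MOD D] ∧ z.2 ≡ b.2 [MOD D])
        (fun z => z.1 ≡ b'.1 [MOD D] ∧ z.2 ≡ b'.2 [MOD D])
        (fun V V' => g V * (starRingEnd ℂ) (g V') * ((max 0 (1 - |I * (dirn V + β) - k|) *
        max 0 (1 - |(dirn V' - dirn V) / δ - l|) : ℝ) : ℂ))
      intro k1 k2 hk1 hk2
      rcases Nat.eq_zero_or_pos k1 with h0 | h0
      · rw [h0, Nat.cast_zero, mul_zero, zero_div, arcp3_PB0, filter_empty, sum_empty, norm_zero]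
        exact hE0
      · rcases Nat.eq_zero_or_pos k2 with h0' | h0'
        · rw [h0', Nat.cast_zero, mul_zero, zero_div, arcp3_PB0, filter_empty]
          simp only [sum_empty, sum_const_zero, norm_zero]
          exact hE0
        · refine (arc_bound4 g hg D b b' _ _ _ _ δ A hδ0 l (fun x => max 0 (1 - |I * (x + β) - k|)) I hI.le
            hφL hφ1 (hS b hb k1 (mem_Icc.2 ⟨h0, hk1⟩)) (hS b' hb' k2 (mem_Icc.2 ⟨h0', hk2⟩))).trans ?_
          have hbox : ∀ m : ℕ, m ≤ I → PB (C0 * s * (m : ℝ) / I) (K * s) ⊆ PB (C0 * s) (K * s) := by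
            intro m hm
            apply arcp3_mono _ (le_refl _)
            rw [div_le_iff₀ hI]
            have hm' : (m : ℝ) ≤ I := by exact_mod_cast hm
            exact mul_le_mul_of_nonneg_left hm' (by positivity)
          have h5 : (((PB (C0 * s * (k1 : ℝ) / I) (K * s) ×ˢ PB (C0 * s * (k2 : ℝ) / I) (K * s)).filter
            (fun e : (ℕ × ℕ) × (ℕ × ℕ) => |dirn e.2 - dirn e.1| ≤ (l + 1) * δ)).card : ℝ) ≤ M := by
            refine le_trans ?_ hcnt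
            exact_mod_cast card_le_card (filter_subset_filter _ (product_subset_product (hbox k1 hk1) (hbox k2 hk2)))
          have h6 : (I : ℝ) * δ * _ ≤ I * δ * M := mul_le_mul_of_nonneg_left h5 (by positivity)
          linarith
    calc _ ≤ 2 * (4 * (A / δ + I * δ * M)) := mul_le_mul (hκ _ _) h4 (norm_nonneg _) (by norm_num)
      _ = 8 * (A / δ + I * δ * M) := by ring
  refine (norm_sum_le _ _).trans ?_
  refine (sum_le_card_nsmul _ _ ((D : ℝ) * D * (8 * (A / δ + I * δ * M))) (fun b hb => ?_)).trans ?_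
  · refine (norm_sum_le _ _).trans ?_
    refine (sum_le_card_nsmul _ _ (8 * (A / δ + I * δ * M)) (fun b' hb' => hterm b hb b' hb')).trans ?_
    rw [nsmul_eq_mul, hcard]
  · rw [nsmul_eq_mul, hcard]
    exact le_of_eq (by ring)

theorem arcp4_ev (g : ℝ → ℕ × ℕ → ℂ) (hM : MRG g) {D : ℕ} (hD : 0 < D) {C0 K ε : ℝ} (hC0 : 0 < C0) (hK : C0 ≤ K)
    (hε : 0 < ε) {I : ℕ} (hI : 1 ≤ I) : ∀ᶠ N : ℕ in atTop, ∀ a : ℝ, 0 < a → ∀ᶠ Y : ℝ in atTop,
      ∀ b ∈ arcp3R D, ∀ k ∈ Icc 1 I,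
      ∫ τ, ‖S2 (g (a * Y)) D b (C0 * Real.sqrt Y * (k : ℝ) / I) (K * Real.sqrt Y) (N / (I * Y)) τ‖ ^ 2 ≤
        ε * ((N : ℝ) * C0 ^ 2 / I) ^ 2 := by
  have hI' : (0 : ℝ) < I := by exact_mod_cast hI
  have hK0 : 0 < K := hC0.trans_le hK
  have h1 : ∀ᶠ N : ℕ in atTop, ∀ b ∈ arcp3R D, ∀ k ∈ Icc 1 I, ∀ a : ℝ, 0 < a → ∀ᶠ X : ℝ in atTop,
      ∫ τ, ‖S2 (g (a * X)) D b (Real.sqrt X) (K * I / (C0 * k) * Real.sqrt X)
        (((N : ℝ) * ((C0 * k / I) ^ 2 / I)) / X) τ‖ ^ 2 ≤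
        ε * ((N : ℝ) * ((C0 * k / I) ^ 2 / I)) ^ 2 := by
    rw [eventually_all_finset]
    intro b _
    rw [eventually_all_finset]
    intro k hk
    have hk1 : (1 : ℝ) ≤ k := by exact_mod_cast (mem_Icc.1 hk).1
    have hk2 : (k : ℝ) ≤ I := by exact_mod_cast (mem_Icc.1 hk).2
    have hK1 : 1 ≤ K * I / (C0 * k) := by
      rw [le_div_iff₀ (by positivity), one_mul]
      exact mul_le_mul hK hk2 (by positivity) hK0.le
    obtain ⟨H0, -, h⟩ := hM D hD b _ hK1 ε hε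
    have ht : Tendsto (fun N : ℕ => (N : ℝ) * ((C0 * k / I) ^ 2 / I)) atTop atTop :=
      tendsto_natCast_atTop_atTop.atTop_mul_const (by positivity)
    filter_upwards [ht.eventually_ge_atTop H0] with N hN
    exact h _ hN
  filter_upwards [h1] with N hN
  intro a ha
  rw [eventually_all_finset]
  intro b hb
  rw [eventually_all_finset]
  intro k hk
  have hk1 : (1 : ℝ) ≤ k := by exact_mod_cast (mem_Icc.1 hk).1
  have hk2 : (k : ℝ) ≤ I := by exact_mod_cast (mem_Icc.1 hk).2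
  have hck : 0 < (C0 * k / I) ^ 2 := by positivity
  have ht : Tendsto (fun Y : ℝ => (C0 * k / I) ^ 2 * Y) atTop atTop :=
    tendsto_id.const_mul_atTop (by positivity)
  filter_upwards [ht.eventually (hN b hb k hk (a / (C0 * k / I) ^ 2) (div_pos ha hck)),
    eventually_gt_atTop 0] with Y hY hY0
  have e0 : a / (C0 * k / I) ^ 2 * ((C0 * k / I) ^ 2 * Y) = a * Y := by
    rw [← mul_assoc, div_mul_cancel₀ _ hck.ne']
  have e1 : Real.sqrt ((C0 * k / I) ^ 2 * Y) = C0 * Real.sqrt Y * k / I := by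
    rw [Real.sqrt_mul (by positivity), Real.sqrt_sq (by positivity)]
    ring
  have e2 : K * I / (C0 * k) * (C0 * Real.sqrt Y * k / I) = K * Real.sqrt Y := by
    field_simp
  have e3 : (N : ℝ) * ((C0 * k / I) ^ 2 / I) / ((C0 * k / I) ^ 2 * Y) = N / (I * Y) := by
    field_simp
  rw [e0, e1, e2, e3] at hY
  refine hY.trans (mul_le_mul_of_nonneg_left (pow_le_pow_left₀ (by positivity) ?_ 2) hε.le)
  rw [mul_div_assoc (N : ℝ)]
  refine mul_le_mul_of_nonneg_left (div_le_div_of_nonneg_right ?_ hI'.le) (Nat.cast_nonneg _)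
  refine pow_le_pow_left₀ (by positivity) ?_ 2
  rw [div_le_iff₀ hI']
  exact mul_le_mul_of_nonneg_left hk2 hC0.le

/-- PROOF. Copy of `arcp3` (`Lib_MP_92ef0c_sp/ArcP3.lean`; `arcp3_split`, `arcp3_split2`, `arcp3_mono`, `arcp3_cell`, `arcp3_cells` can be imported; `arcp3_term`, `arcp3_ev` have to be copied). The box `PB (C0 k sqrt Y / I) (K sqrt Y)` is `PB (sqrt X_k) (K_k sqrt X_k)` with `X_k = (C0 k / I)^2 Y`; the family at `a Y` is the
family at `a_k X_k` with `a_k = a / (C0 k / I)^2`, and in `MRG` the bound `H0` does not depend on `a`. So: `N0` first, then `a`, then `Y` large. -/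
theorem arcp4 (β : ℝ → ℕ × ℕ → ℂ) (hβ : ∀ X z, ‖β X z‖ ≤ 1) (hM : MRG β) (D : ℕ) (hD : 0 < D) (κ : ℕ × ℕ → ℕ × ℕ → ℂ)
    (hκ : ∀ V V', ‖κ V V'‖ ≤ 2) (hper : ∀ V V' U U' : ℕ × ℕ, V.1 ≡ U.1 [MOD D] → V.2 ≡ U.2 [MOD D] → V'.1 ≡ U'.1 [MOD D] →
      V'.2 ≡ U'.2 [MOD D] → κ V V' = κ U U')
    (c0 C0 B K : ℝ) (hc0 : 0 < c0) (hC0 : c0 ≤ C0) (hB : 0 < B) (hK : C0 ≤ K) (F : ℝ → ℝ → ℝ → ℝ → ℝ)
    (hF : Continuous (fun v : ℝ × ℝ × ℝ × ℝ => F v.1 v.2.1 v.2.2.1 v.2.2.2))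
    (h1 : ∀ x x' τ σ, x ≤ c0 ∨ x' ≤ c0 ∨ C0 ≤ x ∨ C0 ≤ x' ∨ B ≤ |τ| ∨ σ ≤ 0 ∨ B ≤ σ → F x x' τ σ = 0) (ε : ℝ) (hε : 0 < ε) :
    ∃ N0 : ℕ, ∀ N : ℕ, N0 ≤ N → ∀ a : ℝ, 0 < a → ∀ᶠ Y : ℝ in atTop,
      ‖∑ V ∈ PB (C0 * Real.sqrt Y) (K * Real.sqrt Y), ∑ V' ∈ PB (C0 * Real.sqrt Y) (K * Real.sqrt Y),
        κ V V' * (β (a * Y) V * (starRingEnd ℂ) (β (a * Y) V')) *
        ((F (V.1 / Real.sqrt Y) (V'.1 / Real.sqrt Y) (dirn V) (Y * (dirn V' - dirn V) / N) : ℝ) : ℂ)‖ ≤ ε * N * Y := by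
  classical
  have hC0' : 0 < C0 := hc0.trans_le hC0
  have hK0 : 0 < K := hC0'.trans_le hK
  have hD' : (0 : ℝ) < D := by exact_mod_cast hD
  obtain ⟨C, hC, hcnt⟩ := cntA3 (c0 / 2) C0 K (B + 1) (by linarith) (by linarith) hK0 (by linarith)
  obtain ⟨C', hC', hcnt'⟩ := cntB3 C0 K (⌈B⌉₊ + 1) hC0' hK0 (by positivity)
  set ε1 : ℝ := ε / (4 * C) with hε1
  have hε1' : 0 < ε1 := by positivity
  obtain ⟨I, hI, happ⟩ := appG4 c0 C0 B hc0 hC0 hB F hF h1 ε1 hε1'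
  have hI' : (0 : ℝ) < I := by exact_mod_cast hI
  set Q : Finset (ℕ × ℕ × ℕ × ℕ) :=
    range I ×ˢ range I ×ˢ range (2 * ⌈B⌉₊ * I + 1) ×ˢ range (⌈B⌉₊ * I + 1) with hQ
  set cc : ℕ × ℕ × ℕ × ℕ → ℝ := fun q => F (C0 * q.1 / I) (C0 * q.2.1 / I) ((q.2.2.1 : ℝ) / I - ⌈B⌉₊)
    ((q.2.2.2 : ℝ) / I) with hcc
  set S : ℝ := ∑ q ∈ Q, |cc q| with hS
  have hS0 : 0 ≤ S := sum_nonneg fun _ _ => abs_nonneg _
  set ε2 : ℝ := ε / (32 * (S + 1) * D ^ 4 * C0 ^ 4) with hε2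
  have hε2' : 0 < ε2 := by positivity
  obtain ⟨N0, hN0⟩ := eventually_atTop.1 (arcp4_ev β hM hD hC0' hK hε2' hI)
  refine ⟨max N0 1, fun N hN a ha => ?_⟩
  have hN1 : 1 ≤ N := (le_max_right _ _).trans hN
  have hNr : (0 : ℝ) < N := by exact_mod_cast hN1
  have hlog : ∀ᶠ Y : ℝ in atTop, Real.log Y ≤ ε / (32 * (S + 1) * D ^ 4 * C' * N) * Y := by
    have := Real.isLittleO_log_id_atTop.bound (c := ε / (32 * (S + 1) * D ^ 4 * C' * N)) (by positivity)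
    filter_upwards [this, eventually_ge_atTop 1] with Y hY hY1
    rw [Real.norm_eq_abs, Real.norm_eq_abs, abs_of_nonneg (Real.log_nonneg hY1)] at hY
    simpa only [id, abs_of_pos (lt_of_lt_of_le zero_lt_one hY1)] using hY
  filter_upwards [hN0 N ((le_max_left _ _).trans hN) a ha, hcnt N hN1, hcnt' N hN1, eventually_gt_atTop 1,
    hlog] with Y hY1 hY2 hY3 hYone hY4
  have hY0 : 0 < Y := by linarith
  set s : ℝ := Real.sqrt Y with hs
  have hs0 : 0 < s := Real.sqrt_pos.2 hY0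
  have hlogY : 0 ≤ Real.log Y := Real.log_nonneg hYone.le
  set δ : ℝ := N / (I * Y) with hδ
  have hδ0 : 0 < δ := by positivity
  set P := PB (C0 * s) (K * s) with hP
  set w : ℕ × ℕ → ℕ × ℕ → ℂ := fun V V' => β (a * Y) V * (starRingEnd ℂ) (β (a * Y) V') with hw
  have hF2 : ∀ V, ‖β (a * Y) V‖ ≤ 1 := fun V => hβ _ V
  have hwb : ∀ V V', ‖w V V'‖ ≤ 1 := by
    intro V V'
    rw [hw]
    dsimp only
    rw [norm_mul, RCLike.norm_conj]
    exact mul_le_one₀ (hF2 _) (norm_nonneg _) (hF2 _)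
  set u : ℕ × ℕ × ℕ × ℕ → ℕ × ℕ → ℕ × ℕ → ℝ := fun q V V' =>
    cell C0 I q.1 (V.1 / s) * cell C0 I q.2.1 (V'.1 / s) * max 0 (1 - |I * (dirn V + ⌈B⌉₊) - q.2.2.1|) *
    max 0 (1 - |I * (Y * (dirn V' - dirn V) / N) - q.2.2.2|) with hu
  set Ap : ℕ × ℕ → ℕ × ℕ → ℝ := fun V V' => ∑ q ∈ Q, cc q * u q V V' with hAp
  have hap : ∀ V ∈ P, ∀ V' ∈ P,
      |F (V.1 / s) (V'.1 / s) (dirn V) (Y * (dirn V' - dirn V) / N) - Ap V V'| ≤
      if c0 / 2 * s ≤ V.1 ∧ c0 / 2 * s ≤ V'.1 ∧ |dirn V' - dirn V| ≤ (B + 1) * N / Y then ε1 else 0 := by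
    intro V hV V' hV'
    rw [hP, mem_PB] at hV hV'
    have b1 : (0 : ℝ) < V.1 := by exact_mod_cast hV.1.1
    have b2 : (0 : ℝ) < V'.1 := by exact_mod_cast hV'.1.1
    have a1 : (0 : ℝ) < V.1 / s := by positivity
    have a2 : (0 : ℝ) < V'.1 / s := by positivity
    have a3 : (V.1 : ℝ) / s ≤ C0 := by
      rw [div_le_iff₀ hs0]
      exact hV.1.2
    have a4 : (V'.1 : ℝ) / s ≤ C0 := by
      rw [div_le_iff₀ hs0]
      exact hV'.1.2
    have h3 := happ _ _ (dirn V) (Y * (dirn V' - dirn V) / N) a1 a3 a2 a4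
    have e1 : Ap V V' = ∑ i ∈ range I, ∑ j ∈ range I, ∑ k ∈ range (2 * ⌈B⌉₊ * I + 1), ∑ l ∈ range (⌈B⌉₊ * I + 1),
        F (C0 * i / I) (C0 * j / I) ((k : ℝ) / I - ⌈B⌉₊) ((l : ℝ) / I) * cell C0 I i (V.1 / s) *
          cell C0 I j (V'.1 / s) * max 0 (1 - |I * (dirn V + ⌈B⌉₊) - k|) *
          max 0 (1 - |I * (Y * (dirn V' - dirn V) / N) - l|) := by
      rw [hAp]
      dsimp only
      rw [hQ, sum_product]
      apply sum_congr rfl
      intro i _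
      rw [sum_product]
      apply sum_congr rfl
      intro j _
      rw [sum_product]
      apply sum_congr rfl
      intro k _
      apply sum_congr rfl
      intro l _
      rw [hcc, hu]
      dsimp only
      ring
    rw [e1]
    refine h3.trans ?_
    split_ifs with b1 b2 b3
    · exact le_rfl
    · exfalso
      apply b2
      obtain ⟨c1, c2, -, c3⟩ := b1
      rw [le_div_iff₀ hs0] at c1 c2
      refine ⟨c1, c2, ?_⟩
      rw [abs_div, abs_mul, abs_of_pos hY0, abs_of_pos hNr, div_le_iff₀ hNr] at c3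
      rw [le_div_iff₀ hY0]
      linarith
    · exact hε1'.le
    · exact le_rfl
  -- first part
  have hfirst : ‖∑ V ∈ P, ∑ V' ∈ P, κ V V' * w V V' *
      (((F (V.1 / s) (V'.1 / s) (dirn V) (Y * (dirn V' - dirn V) / N) : ℝ) : ℂ) - ((Ap V V' : ℝ) : ℂ))‖ ≤
      ε / 2 * N * Y := by
    have e1 : ∀ V ∈ P, ∀ V' ∈ P, ‖κ V V' * w V V' *
        (((F (V.1 / s) (V'.1 / s) (dirn V) (Y * (dirn V' - dirn V) / N) : ℝ) : ℂ) - ((Ap V V' : ℝ) : ℂ))‖ ≤
        2 * (if c0 / 2 * s ≤ V.1 ∧ c0 / 2 * s ≤ V'.1 ∧ |dirn V' - dirn V| ≤ (B + 1) * N / Y then ε1 else 0) := by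
      intro V hV V' hV'
      rw [← Complex.ofReal_sub, norm_mul, Complex.norm_real, Real.norm_eq_abs, norm_mul]
      have h3 := hap V hV V' hV'
      have h4 : ‖κ V V'‖ * ‖w V V'‖ ≤ 2 := by
        have := mul_le_mul (hκ V V') (hwb V V') (norm_nonneg _) (by norm_num)
        linarith
      exact mul_le_mul h4 h3 (abs_nonneg _) (by norm_num)
    refine (norm_sum_le _ _).trans ?_
    refine (sum_le_sum fun V hV => (norm_sum_le _ _).trans (sum_le_sum fun V' hV' => e1 V hV V' hV')).trans ?_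
    rw [← sum_product' P P (fun V V' => 2 * (if c0 / 2 * s ≤ (V.1 : ℝ) ∧ c0 / 2 * s ≤ (V'.1 : ℝ) ∧
      |dirn V' - dirn V| ≤ (B + 1) * N / Y then ε1 else 0)), ← mul_sum, ← sum_filter, sum_const, nsmul_eq_mul]
    have h5 : 2 * (C * N * Y * ε1) = ε / 2 * N * Y := by
      rw [hε1]
      field_simp
      ring
    rw [← h5]
    exact mul_le_mul_of_nonneg_left (mul_le_mul_of_nonneg_right hY2 hε1'.le) (by norm_num)
  -- second part
  have hsecond : ‖∑ V ∈ P, ∑ V' ∈ P, κ V V' * w V V' * ((Ap V V' : ℝ) : ℂ)‖ ≤ ε / 2 * N * Y := by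
    have e1 : ∑ V ∈ P, ∑ V' ∈ P, κ V V' * w V V' * ((Ap V V' : ℝ) : ℂ) =
        ∑ q ∈ Q, ((cc q : ℝ) : ℂ) * ∑ V ∈ P, ∑ V' ∈ P, κ V V' * w V V' * ((u q V V' : ℝ) : ℂ) := by
      have e2 : ∀ V V' : ℕ × ℕ, κ V V' * w V V' * ((Ap V V' : ℝ) : ℂ) =
          ∑ q ∈ Q, ((cc q : ℝ) : ℂ) * (κ V V' * w V V' * ((u q V V' : ℝ) : ℂ)) := by
        intro V V'
        rw [hAp]
        dsimp only
        rw [Complex.ofReal_sum, mul_sum]
        apply sum_congr rfl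
        intro q _
        rw [Complex.ofReal_mul]
        ring
      simp only [e2, mul_sum]
      rw [sum_congr rfl (fun V _ => sum_comm), sum_comm]
    rw [e1]
    refine (norm_sum_le _ _).trans ?_
    set A : ℝ := ε2 * ((N : ℝ) * C0 ^ 2 / I) ^ 2 with hA
    have hA0 : 0 ≤ A := by positivity
    set M : ℝ := C' * N * Y * Real.log Y with hMd
    have hM0 : 0 ≤ M := by positivity
    have e3 : ∀ q ∈ Q, ‖((cc q : ℝ) : ℂ) * ∑ V ∈ P, ∑ V' ∈ P, κ V V' * w V V' * ((u q V V' : ℝ) : ℂ)‖ ≤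
        |cc q| * (8 * ((D : ℝ) ^ 4) * (A / δ + I * δ * M)) := by
      intro q hq
      rw [hQ, mem_product, mem_product, mem_product, mem_range, mem_range, mem_range, mem_range] at hq
      rw [norm_mul, Complex.norm_real, Real.norm_eq_abs]
      refine mul_le_mul_of_nonneg_left ?_ (abs_nonneg _)
      refine arcp4_term (β (a * Y)) (hβ _) D hD κ hκ hper hC0' hs0 hY0 hNr hq.1 hq.2.1 hδ hA0 hM0 hY1 ?_
      refine le_trans ?_ hY3
      have h7 : ((q.2.2.2 : ℝ) + 1) * δ ≤ (⌈B⌉₊ + 1) * N / Y := by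
        have h8 : (q.2.2.2 : ℝ) ≤ ⌈B⌉₊ * I := by
          have : q.2.2.2 ≤ ⌈B⌉₊ * I := by omega
          exact_mod_cast this
        have h9 : (1 : ℝ) ≤ I := by exact_mod_cast hI
        have h10 : (⌈B⌉₊ + 1 : ℝ) * N / Y = ((⌈B⌉₊ + 1) * I) * δ := by
          rw [hδ]
          field_simp
        rw [h10]
        refine mul_le_mul_of_nonneg_right ?_ hδ0.le
        nlinarith
      refine Nat.cast_le.2 (card_le_card fun e he => ?_)
      rw [mem_filter] at he ⊢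
      exact ⟨he.1, he.2.trans h7⟩
    refine (sum_le_sum e3).trans ?_
    rw [← sum_mul, ← hS]
    have e4 : A / δ = ε2 * C0 ^ 4 * N * Y / I := by
      rw [hA, hδ]
      field_simp
    have e4' : I * δ * M = C' * N ^ 2 * Real.log Y := by
      rw [hMd, hδ]
      field_simp
    rw [e4, e4']
    have e5 : ε2 * C0 ^ 4 * N * Y / I ≤ ε2 * C0 ^ 4 * N * Y := by
      apply div_le_self (by positivity)
      exact_mod_cast hI
    have e5' : C' * N ^ 2 * Real.log Y ≤ C' * N ^ 2 * (ε / (32 * (S + 1) * D ^ 4 * C' * N) * Y) :=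
      mul_le_mul_of_nonneg_left hY4 (by positivity)
    have e6 : (S + 1) * (8 * (D : ℝ) ^ 4 * (ε2 * C0 ^ 4 * N * Y +
        C' * N ^ 2 * (ε / (32 * (S + 1) * D ^ 4 * C' * N) * Y))) = ε / 2 * N * Y := by
      rw [hε2]
      field_simp
      ring
    rw [← e6]
    refine mul_le_mul (by linarith) (mul_le_mul_of_nonneg_left (add_le_add e5 e5') (by positivity)) ?_
      (by linarith)
    have : 0 ≤ C' * N ^ 2 * Real.log Y := by positivity
    positivity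
  have hsum : ∑ V ∈ P, ∑ V' ∈ P, κ V V' * (β (a * Y) V * (starRingEnd ℂ) (β (a * Y) V')) *
        ((F (V.1 / s) (V'.1 / s) (dirn V) (Y * (dirn V' - dirn V) / N) : ℝ) : ℂ) =
      ∑ V ∈ P, ∑ V' ∈ P, κ V V' * w V V' *
        (((F (V.1 / s) (V'.1 / s) (dirn V) (Y * (dirn V' - dirn V) / N) : ℝ) : ℂ) - ((Ap V V' : ℝ) : ℂ)) +
      ∑ V ∈ P, ∑ V' ∈ P, κ V V' * w V V' * ((Ap V V' : ℝ) : ℂ) := by
    rw [← sum_add_distrib]
    apply sum_congr rfl
    intro V _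
    rw [← sum_add_distrib]
    apply sum_congr rfl
    intro V' _
    rw [hw]
    dsimp only
    ring
  rw [hsum]
  refine (norm_add_le _ _).trans ((add_le_add hfirst hsecond).trans (le_of_eq ?_))
  ring

end Pool.Agent.SplL
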