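import Pool.Agent.Lib_MP_92ef0c_lb.FDefs

/-!
# The interface theorems of block B as one hypothesis (only to keep the import graph flat)
-/

set_option autoImplicit false

namespace Pool.Agent.SplL

open Finset Pool.Agent.Spl Pool.Agent.SplB MeasureTheory Filter

/-- the interface theorems `mrb`, `mf_zero`, `mf_prog` of `Lib_MP_92ef0c_lb/MRB.lean` -/
structure BS : Prop where
  mrb : ∀ (q Q : ℕ), 0 < q → 0 < Q → ∀ (z1 z2 : ℂ), z1 ^ q = 1 → z2 ^ q = 1 → ∀ (f g : ℝ → ℕ → ℂ),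
    FS Q z1 f → FS Q z2 g → ∀ (μ : ℝ → ℂ), Tendsto (fun Y => mf Q f Y * mf Q g Y - μ Y) atTop (nhds 0) → MRB Q f g μ
  mf_zero : ∀ (q Q : ℕ), 0 < q → 0 < Q → ∀ (z : ℂ), z ^ q = 1 → z ≠ 1 → ∀ (f : ℝ → ℕ → ℂ),
    FS Q z f → Tendsto (mf Q f) atTop (nhds 0)
  mf_prog : ∀ (q Q : ℕ), 0 < q → 0 < Q → ∀ (z : ℂ), z ^ q = 1 → ∀ (f : ℝ → ℕ → ℂ), FS Q z f →
    ∀ (m : ℕ), 0 < m → ∀ (r : ℕ) (c : ℝ), 0 < c →
    Tendsto (fun Y : ℝ => (∑ n ∈ (Icc 1 ⌊c * Real.sqrt Y⌋₊).filter (fun n => n ≡ r [MOD m]),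
      (f Y n - mf Q f Y * f00 Q n)) / Real.sqrt Y) atTop (nhds 0)

end Pool.Agent.SplL
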