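import Pool.Agent.Lib_MP_92ef0c_la.BHyp
import Pool.Agent.Lib_MP_92ef0c_lb.MRB

/-!
# The hypothesis on block B holds
-/

set_option autoImplicit false

namespace Pool.Agent.SplL

theorem bs : BS := ⟨Pool.Agent.SplB.mrb, Pool.Agent.SplB.mf_zero, Pool.Agent.SplB.mf_prog⟩

end Pool.Agent.SplL
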