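import Pool.Agent.Lib_MP_f1a94e_lp.ProfD

/-!
# Profiles from window counts (real scale)
-/

set_option autoImplicit false

namespace Pool.Agent.SplL

open Finset Filter Pool.Agent.LPr

private theorem Big4_wc_mul (x u v : ℝ) {a b : ℕ} (ha : a ≠ 0) (hb : b ≠ 0) :
    wc x u v (a * b) = wc x u v a + wc x u v b := by
  classical
  unfold wc
  rw [((Nat.perm_primeFactorsList_mul ha hb).filter _).length_eq, List.filter_append,
    List.length_append]

private theorem Big4_wc_prime {x u v : ℝ} {q : ℕ} (hq : q.Prime) (h1 : x ^ u < (q : ℝ))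
    (h2 : (q : ℝ) ≤ x ^ v) : wc x u v q = 1 := by
  classical
  unfold wc
  rw [Nat.primeFactorsList_prime hq]
  simp [h1, h2]

private theorem Big4_wc_one (x u v : ℝ) : wc x u v 1 = 0 := by
  classical
  simp [wc]

private theorem Big4_wc_prod {x u v : ℝ} {ι : Type} (S : Finset ι) (q : ι → ℕ)
    (hq : ∀ i ∈ S, (q i).Prime ∧ x ^ u < (q i : ℝ) ∧ (q i : ℝ) ≤ x ^ v) :
    wc x u v (∏ i ∈ S, q i) = S.card := by
  classical
  induction S using Finset.induction_on with
  | empty => simp [Big4_wc_one]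
  | insert a S ha ih =>
    have h1 : ∏ i ∈ S, q i ≠ 0 :=
      Finset.prod_ne_zero_iff.2 (fun i hi => (hq i (mem_insert_of_mem hi)).1.ne_zero)
    have h2 := hq a (mem_insert_self a S)
    rw [prod_insert ha, Big4_wc_mul x u v h2.1.ne_zero h1, ih (fun i hi => hq i (mem_insert_of_mem hi)),
      Big4_wc_prime h2.1 h2.2.1 h2.2.2, card_insert_of_notMem ha, add_comm]

/-- as `big_prof` in `Lib_MP_f1a94e_lp/BigP.lean`, for a real scale `y` -/
theorem big_prof4 (k : ℕ) (t : Fin k → ℝ) (hinj : Function.Injective t) (ε : ℝ) (hε : 0 < ε) (ht : ∀ i, ε < t i)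
    (ht1 : ∀ i, t i ≤ 1) (C : ℝ) (_hC : 0 < C) :
    ∃ δ0 : ℝ, 0 < δ0 ∧ δ0 ≤ 1 / 2 ∧ ∀ δ : ℝ, 0 < δ → δ ≤ δ0 → ∃ x0 : ℝ, 2 ≤ x0 ∧ ∀ x : ℝ, x0 ≤ x →
      ∀ y : ℝ, x ^ (1 - δ) < y → y ≤ x → ∀ n : ℕ, n ≠ 0 → (n : ℝ) ≤ C * y →
        (∀ i, wc x (t i - δ) (t i) n = 1) → wc x (ε / 2) 2 n = k → BigG k t ε y n := by
  classical
  -- choice of δ0
  have hg : ∀ i j : Fin k, ∀ᶠ δ : ℝ in nhdsWithin 0 (Set.Ioi 0), i ≠ j → δ < |t i - t j| := by
    intro i j
    by_cases hij : i = j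
    · exact Eventually.of_forall (fun δ h => absurd hij h)
    · have hp : 0 < |t i - t j| := abs_pos.2 (sub_ne_zero.2 (fun h => hij (hinj h)))
      have : ∀ᶠ δ : ℝ in nhds 0, δ < |t i - t j| := gt_mem_nhds hp
      exact (this.filter_mono nhdsWithin_le_nhds).mono (fun δ h _ => h)
  have hg2 : ∀ᶠ δ : ℝ in nhdsWithin 0 (Set.Ioi 0), ∀ i j : Fin k, i ≠ j → δ < |t i - t j| :=
    eventually_all.2 (fun i => eventually_all.2 (fun j => hg i j))
  obtain ⟨g, hg0, hgg⟩ := (nhdsGT_basis (0 : ℝ)).eventually_iff.1 hg2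
  have hk1 : (0 : ℝ) < (k : ℝ) + 1 := by positivity
  set δ0 : ℝ := min (min (1 / 2) (g / 2)) (min (ε / 4 / ((k : ℝ) + 1)) (ε / (1 + ε))) with hδ0
  have hδ0p : 0 < δ0 := by
    rw [hδ0]
    refine lt_min (lt_min (by norm_num) (by linarith)) (lt_min (by positivity) (by positivity))
  refine ⟨δ0, hδ0p, (min_le_left _ _).trans (min_le_left _ _), ?_⟩
  intro δ hδ hδle
  have hδ12 : δ ≤ 1 / 2 := hδle.trans ((min_le_left _ _).trans (min_le_left _ _))
  have hδg : δ < g := by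
    have : δ ≤ g / 2 := hδle.trans ((min_le_left _ _).trans (min_le_right _ _))
    linarith
  have hδk : ((k : ℝ) + 1) * δ ≤ ε / 4 := by
    have : δ ≤ ε / 4 / ((k : ℝ) + 1) := hδle.trans ((min_le_right _ _).trans (min_le_left _ _))
    rw [le_div_iff₀ hk1] at this
    linarith
  have hδε : δ * (1 + ε) ≤ ε := by
    have : δ ≤ ε / (1 + ε) := hδle.trans ((min_le_right _ _).trans (min_le_right _ _))
    rwa [le_div_iff₀ (by linarith)] at this
  have hkδ : 0 ≤ (k : ℝ) * δ := by positivity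
  have hδ4 : δ ≤ ε / 4 := by nlinarith
  have hkδ4 : (k : ℝ) * δ ≤ ε / 4 := by nlinarith
  have hsep : ∀ i j : Fin k, i ≠ j → δ < |t i - t j| := hgg ⟨hδ, hδg⟩
  -- choice of x0
  have hx1 : ∀ᶠ x : ℝ in atTop, C ≤ x ^ (ε / 8) :=
    (tendsto_rpow_atTop (by linarith : 0 < ε / 8)).eventually_ge_atTop C
  have hx2 : ∀ᶠ x : ℝ in atTop, C ≤ x := eventually_ge_atTop C
  obtain ⟨a, ha⟩ := eventually_atTop.1 (hx1.and hx2)
  refine ⟨max a 2, le_max_right _ _, ?_⟩
  intro x hx y hm1 hm2 n hn hnC hwi hwk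
  have hx2' : (2 : ℝ) ≤ x := (le_max_right a 2).trans hx
  obtain ⟨hC1, hC2⟩ := ha x ((le_max_left a 2).trans hx)
  have hx1' : (1 : ℝ) ≤ x := by linarith
  have hx0' : (0 : ℝ) < x := by linarith
  have hy1 : 1 ≤ y := (Real.one_le_rpow hx1' (by linarith)).trans hm1.le
  have hy0 : 0 < y := by linarith
  have hyh : x ^ (1 / 2 : ℝ) ≤ y :=
    (Real.rpow_le_rpow_of_exponent_le hx1' (by linarith)).trans hm1.le
  -- the primes
  have hex : ∀ i, ∃ q : ℕ, q.Prime ∧ q ∣ n ∧ x ^ (t i - δ) < (q : ℝ) ∧ (q : ℝ) ≤ x ^ (t i) := by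
    intro i
    have h1 := hwi i
    unfold wc at h1
    obtain ⟨q, hq⟩ := List.length_eq_one_iff.1 h1
    have h2 : q ∈ n.primeFactorsList.filter
        (fun p : ℕ => x ^ (t i - δ) < (p : ℝ) ∧ (p : ℝ) ≤ x ^ (t i)) := by
      rw [hq]; exact List.mem_singleton.2 rfl
    rw [List.mem_filter] at h2
    have h3 := (Nat.mem_primeFactorsList hn).1 h2.1
    have h4 := of_decide_eq_true h2.2
    exact ⟨q, h3.1, h3.2, h4.1, h4.2⟩
  choose p hpp hpd hp1 hp2 using hex
  have hlt : ∀ i j : Fin k, t i < t j → i ≠ j → p i < p j := by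
    intro i j hij hne
    have h1 := hsep i j hne
    rw [abs_of_neg (by linarith)] at h1
    have h2 : (p i : ℝ) < p j :=
      ((hp2 i).trans (Real.rpow_le_rpow_of_exponent_le hx1' (by linarith))).trans_lt (hp1 j)
    exact_mod_cast h2
  have hpinj : Function.Injective p := by
    intro i j hij
    by_contra hne
    rcases lt_trichotomy (t i) (t j) with h | h | h
    · exact absurd hij (hlt i j h hne).ne
    · exact hne (hinj h)
    · exact absurd hij (hlt j i h (Ne.symm hne)).ne'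
  have hdvd : ∏ i, p i ∣ n := by
    have h1 : ∏ q ∈ univ.image p, q ∣ n := by
      apply Finset.prod_primes_dvd
      · intro q hq
        obtain ⟨i, -, rfl⟩ := mem_image.1 hq
        exact (hpp i).prime
      · intro q hq
        obtain ⟨i, -, rfl⟩ := mem_image.1 hq
        exact hpd i
    rwa [prod_image (fun i _ j _ h => hpinj h)] at h1
  obtain ⟨s, hs⟩ := hdvd
  rw [mul_comm] at hs
  have hs0 : s ≠ 0 := by
    rintro rfl
    rw [zero_mul] at hs
    exact hn hs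
  have hP0 : ∏ i, p i ≠ 0 := Finset.prod_ne_zero_iff.2 (fun i _ => (hpp i).ne_zero)
  have htδ : ∀ i, 0 ≤ t i - δ := fun i => by linarith [ht i]
  -- the window count of the cofactor
  have hws : wc x (ε / 2) 2 s = 0 := by
    have h1 : wc x (ε / 2) 2 (∏ i, p i) = k := by
      rw [Big4_wc_prod univ p, card_univ, Fintype.card_fin]
      intro i _
      refine ⟨hpp i, (Real.rpow_le_rpow_of_exponent_le hx1' ?_).trans_lt (hp1 i),
        (hp2 i).trans (Real.rpow_le_rpow_of_exponent_le hx1' ?_)⟩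
      · linarith [ht i]
      · linarith [ht1 i]
    have h2 := Big4_wc_mul x (ε / 2) 2 hs0 hP0
    rw [← hs, h1, hwk] at h2
    omega
  have hsn : (s : ℝ) * ∏ i, (p i : ℝ) ≤ C * y := by
    have : ((s * ∏ i, p i : ℕ) : ℝ) ≤ C * y := by rw [← hs]; exact hnC
    rwa [Nat.cast_mul, Nat.cast_prod] at this
  have hyx : y ≤ x := hm2
  refine ⟨s, p, ?_, hs, ?_, ?_⟩
  · intro i
    refine ⟨hpp i, ?_, ?_⟩
    · calc y ^ (t i - ε) ≤ x ^ (t i - ε) := Real.rpow_le_rpow hy0.le hyx (by linarith [ht i])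
        _ ≤ x ^ (t i - δ) := Real.rpow_le_rpow_of_exponent_le hx1' (by linarith)
        _ ≤ p i := (hp1 i).le
    · have hti : 0 < t i := by linarith [ht i]
      calc (p i : ℝ) ≤ x ^ (t i) := hp2 i
        _ ≤ x ^ ((1 - δ) * (t i + ε)) := by
            apply Real.rpow_le_rpow_of_exponent_le hx1'
            nlinarith [ht1 i, mul_le_mul_of_nonneg_left (ht1 i) hδ.le]
        _ = (x ^ (1 - δ)) ^ (t i + ε) := by rw [Real.rpow_mul hx0'.le]
        _ ≤ y ^ (t i + ε) :=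
            Real.rpow_le_rpow (Real.rpow_nonneg hx0'.le _) hm1.le (by linarith)
  · have hprod : y ^ (∑ i, t i - k * δ) ≤ ∏ i, (p i : ℝ) := by
      have h1 : y ^ (∑ i, t i - k * δ) = ∏ i, y ^ (t i - δ) := by
        rw [← Real.rpow_sum_of_pos hy0, Finset.sum_sub_distrib]
        simp
      rw [h1]
      apply Finset.prod_le_prod
      · intro i _
        exact Real.rpow_nonneg hy0.le _
      · intro i _
        exact (Real.rpow_le_rpow hy0.le hyx (htδ i)).trans (hp1 i).le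
    have hCy : C ≤ y ^ (ε / 4) := by
      calc C ≤ x ^ (ε / 8) := hC1
        _ = (x ^ (1 / 2 : ℝ)) ^ (ε / 4) := by
            rw [← Real.rpow_mul hx0'.le]
            congr 1
            ring
        _ ≤ y ^ (ε / 4) := Real.rpow_le_rpow (Real.rpow_nonneg hx0'.le _) hyh (by linarith)
    have hs0' : (0 : ℝ) ≤ s := Nat.cast_nonneg s
    have hD : 0 < y ^ (∑ i, t i - k * δ) := Real.rpow_pos_of_pos hy0 _
    have h2 : (s : ℝ) * y ^ (∑ i, t i - k * δ) ≤ y ^ (ε / 4) * y := by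
      calc (s : ℝ) * y ^ (∑ i, t i - k * δ) ≤ (s : ℝ) * ∏ i, (p i : ℝ) := by gcongr
        _ ≤ C * y := hsn
        _ ≤ y ^ (ε / 4) * y := by gcongr
    have h3 : y ^ (ε / 4) * y ≤ y ^ (1 - ∑ i, t i + ε) * y ^ (∑ i, t i - k * δ) := by
      rw [← Real.rpow_add hy0]
      calc y ^ (ε / 4) * y = y ^ (ε / 4 + 1) := by rw [Real.rpow_add hy0, Real.rpow_one]
        _ ≤ _ := by
            apply Real.rpow_le_rpow_of_exponent_le hy1
            linarith
    exact le_of_mul_le_mul_right (h2.trans h3) hD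
  · intro r hr hrs
    have hrmem : r ∈ s.primeFactorsList := (Nat.mem_primeFactorsList hs0).2 ⟨hr, hrs⟩
    have hrle : (r : ℝ) ≤ x ^ (2 : ℝ) := by
      have h1 : (r : ℝ) ≤ n := by
        have : r ≤ n := (Nat.le_of_dvd (Nat.pos_of_ne_zero hs0) hrs).trans
          (Nat.le_of_dvd (Nat.pos_of_ne_zero hn) ⟨_, hs⟩)
        exact_mod_cast this
      calc (r : ℝ) ≤ n := h1
        _ ≤ C * y := hnC
        _ ≤ x * x := by gcongr
        _ = x ^ (2 : ℝ) := by rw [Real.rpow_two, sq]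
    have h4 : (r : ℝ) ≤ x ^ (ε / 2) := by
      by_contra h
      rw [not_le] at h
      unfold wc at hws
      rw [List.length_eq_zero_iff, List.filter_eq_nil_iff] at hws
      exact hws r hrmem (decide_eq_true ⟨h, hrle⟩)
    calc (r : ℝ) ≤ x ^ (ε / 2) := h4
      _ = (x ^ (1 / 2 : ℝ)) ^ ε := by
          rw [← Real.rpow_mul hx0'.le]
          congr 1
          ring
      _ ≤ y ^ ε := Real.rpow_le_rpow (Real.rpow_nonneg hx0'.le _) hyh hε.le

end Pool.Agent.SplL
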