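import Pool.Agent.Lib_MP_92ef0c_lb.FDefs
import Pool.Agent.Lib_MP_92ef0c_sp.SDefs
import Pool.Agent.Lib_MP_92ef0c_sp.TDefs

/-!
# MP_92ef0c_nt, split twin of the joint law: definitions of block A

Families (the index of a family is `a * X` with a fixed `a > 0`, `X` the geometric scale), general bounded functions of
the rows `(a, b)`, `(c, d)` of a matrix.
-/

set_option autoImplicit false

namespace Pool.Agent.SplL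

open Finset Pool.Agent.Spl Pool.Agent.SplB Pool.Agent.GaussMR Pool.Agent.OmAll Pool.Agent.OmEq MeasureTheory Filter

/-- families of completely multiplicative functions bounded by one which at every fixed prime outside `E` are
eventually equal to `ω` -/
structure FT (f : ℝ → ℕ → ℂ) (E : Finset ℕ) (ω : ℂ) : Prop where
  mul : ∀ X m n, f X (m * n) = f X m * f X n
  bd : ∀ X n, ‖f X n‖ ≤ 1
  pr : ∀ T : ℕ, ∀ᶠ X : ℝ in atTop, ∀ p : ℕ, p ≤ T → p.Prime → p ∉ E → f X p = ω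

/-- functions that are multiplied by `g p` when a prime `p ≤ T`, `p ∉ E`, moves from `d` to `a` -/
structure CmpTA (n : ℕ) (E : Finset ℕ) (T : ℕ) (g : ℕ → ℂ) (Φ : Q4 → ℂ) : Prop where
  bd : ∀ e, ‖Φ e‖ ≤ 1
  mv : ∀ p a b c d : ℕ, p.Prime → p ≤ T → p ∉ E → Sn n ⟨p * a, b, c, d⟩ → ¬ p ^ 2 ∣ p * a * d →
    Φ ⟨p * a, b, c, d⟩ = g p * Φ ⟨a, b, c, p * d⟩

/-- functions that are multiplied by `g p` when a prime `p ≤ T`, `p ∉ E`, moves from `c` to `b` -/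
structure CmpTB (n : ℕ) (E : Finset ℕ) (T : ℕ) (g : ℕ → ℂ) (Φ : Q4 → ℂ) : Prop where
  bd : ∀ e, ‖Φ e‖ ≤ 1
  mv : ∀ p a b c d : ℕ, p.Prime → p ≤ T → p ∉ E → Sn n ⟨a, p * b, c, d⟩ → ¬ p ^ 2 ∣ p * b * c →
    Φ ⟨a, p * b, c, d⟩ = g p * Φ ⟨a, b, p * c, d⟩

/-! ### Functions of the rows -/

/-- product of functions of the two rows -/
def R2 (α β : ℕ × ℕ → ℂ) (e : Q4) : ℂ := α (e.a, e.b) * β (e.c, e.d)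

/-- the complex conjugate -/
def cjr (β : ℕ × ℕ → ℂ) (z : ℕ × ℕ) : ℂ := (starRingEnd ℂ) (β z)

/-- test functions of mean zero in `(t, u)` give nothing -/
def TVR (α β : ℝ → ℕ × ℕ → ℂ) : Prop :=
  ∀ a : ℝ, 0 < a → ∀ n M : ℕ, ∀ [NeZero M], 0 < n → n.primeFactors ⊆ M.primeFactors →
    ∀ ψ : ZMod M → ZMod M → ZMod M → ZMod M → ℂ, (∀ x1 x2 x3 x4, ‖ψ x1 x2 x3 x4‖ ≤ 1) →
    ∀ (b : ℝ) (W : ℝ → ℝ → ℝ → ℂ), TS b W → (∀ y, (∫ t, ∫ u, W y t u) = 0) →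
    Tendsto (fun X : ℝ => (∑ e ∈ SN n (b * X), R2 (α (a * X)) (β (a * X)) e * cz M ψ e *
      W (yS e / X) (tS e) (uS e)) / X) atTop (nhds 0)

/-- the average over the classes `(v a, b, c, v⁻¹ d)`, `v` a unit modulo `M` (`psA M ψ 1` of `PsiA.lean`) -/
noncomputable def avA (M : ℕ) [NeZero M] (ψ : ZMod M → ZMod M → ZMod M → ZMod M → ℂ) (x1 x2 x3 x4 : ZMod M) : ℂ :=
  (M.totient : ℂ)⁻¹ * ∑ v : (ZMod M)ˣ, ψ ((v : ZMod M) * x1) x2 x3 (((v⁻¹ : (ZMod M)ˣ) : ZMod M) * x4)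

/-- functions of the class may be replaced by their averages -/
def CHR (α β : ℝ → ℕ × ℕ → ℂ) : Prop :=
  ∀ a : ℝ, 0 < a → ∀ n M : ℕ, ∀ [NeZero M], 0 < n → n.primeFactors ⊆ M.primeFactors →
    ∀ ψ : ZMod M → ZMod M → ZMod M → ZMod M → ℂ, (∀ x1 x2 x3 x4, ‖ψ x1 x2 x3 x4‖ ≤ 1) →
    ∀ (b : ℝ) (W : ℝ → ℝ → ℝ → ℂ), TS b W →
    Tendsto (fun X : ℝ => (∑ e ∈ SN n (b * X), R2 (α (a * X)) (β (a * X)) e * (cz M ψ e - cz M (avA M ψ) e) *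
      W (yS e / X) (tS e) (uS e)) / X) atTop (nhds 0)

/-- the sum over unbalanced matrices -/
noncomputable def SX4 (h0 Q n0 : ℕ) (α β : ℕ × ℕ → ℂ) (h : ℝ → ℝ) (J N : ℕ) (x X : ℝ) : ℂ :=
  ∑ e ∈ SQ h0 Q n0 x, R2 α β e * ((wV h X e.a e.b * rho J N ((e.c : ℝ) / e.a) : ℝ) : ℂ)

open Classical in
/-- the correlations of determinant `n h0` -/
noncomputable def Gm4 (h0 Q n0 : ℕ) (β : ℕ × ℕ → ℂ) (h : ℝ → ℝ) (J N n : ℕ) (x X : ℝ) : ℂ :=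
  ∑ e ∈ (SN (n * h0) x).filter (kap3 n Q n0), R2 β (cjr β) e * ((w3 h J N n X e : ℝ) : ℂ)

/-- the sum over all classes -/
noncomputable def Qs4 (β : ℕ × ℕ → ℂ) (n : ℕ) (x : ℝ) (W : ℝ → ℝ → ℝ → ℂ) (X : ℝ) : ℂ :=
  ∑ e ∈ SN n x, R2 β (cjr β) e * W (yS e / X) (tS e) (uS e)

/-- the correlations are small on average -/
def GmSmall4 (h0 Q n0 : ℕ) (β : ℝ → ℕ × ℕ → ℂ) : Prop :=
  ∀ (h : ℝ → ℝ) (h1 h2 : ℝ), HF h h1 h2 → ∀ ε : ℝ, 0 < ε → ∃ N0 : ℕ, ∀ N : ℕ, N0 ≤ N → ∃ J0 : ℕ, ∀ J : ℕ, J0 ≤ J →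
    ∀ a : ℝ, 0 < a → ∀ᶠ X : ℝ in atTop,
      ‖∑ n ∈ Icc 1 N, Gm4 h0 Q n0 (β (a * X)) h J N n (((J + N) ^ 2 * (h0 + 1) * h2) * X) X‖ ≤ ε * N ^ 2 * X

/-- weighted sums over the determinants `n h0`, `Q ∣ n` -/
def QSmall4 (h0 Q : ℕ) (β : ℝ → ℕ × ℕ → ℂ) : Prop :=
  ∀ (h : ℝ → ℝ) (h1 h2 : ℝ), HF h h1 h2 → ∀ ε : ℝ, 0 < ε → ∃ N0 : ℕ, ∀ N : ℕ, N0 ≤ N → ∀ a : ℝ, 0 < a →
    ∀ᶠ Y : ℝ in atTop,
    ‖∑ n ∈ (Icc 1 N).filter (fun n => Q ∣ n), (((n / n.totient) * ww ((n : ℝ) / N) : ℝ) : ℂ) *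
      Qs4 (β (a * Y)) (n * h0) (h2 * Y) (Wh (fun y => h y ^ 2)) Y‖ ≤ ε * N * Y

/-- the same over the multiples of `D`, without the factor `n / φ(n)` -/
def QdSmall4 (β : ℝ → ℕ × ℕ → ℂ) : Prop :=
  ∀ D : ℕ, 1 ≤ D → ∀ (h : ℝ → ℝ) (h1 h2 : ℝ), HF h h1 h2 → ∀ ε : ℝ, 0 < ε → ∃ N0 : ℕ, ∀ N : ℕ, N0 ≤ N →
    ∀ a : ℝ, 0 < a → ∀ᶠ Y : ℝ in atTop, ‖∑ n ∈ (Icc 1 N).filter (fun n => D ∣ n), ((ww ((n : ℝ) / N) : ℝ) : ℂ) *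
      Qs4 (β (a * Y)) n (h2 * Y) (Wh (fun y => h y ^ 2)) Y‖ ≤ ε * N * Y

/-- Matomaki-Radziwill in arcs for a family of functions of a row -/
def MRG (β : ℝ → ℕ × ℕ → ℂ) : Prop :=
  ∀ m : ℕ, 0 < m → ∀ b : ℕ × ℕ, ∀ K : ℝ, 1 ≤ K → ∀ ε : ℝ, 0 < ε → ∃ H0 : ℝ, 0 < H0 ∧ ∀ H : ℝ, H0 ≤ H →
    ∀ a : ℝ, 0 < a → ∀ᶠ X : ℝ in atTop,
    ∫ τ, ‖S2 (β (a * X)) m b (Real.sqrt X) (K * Real.sqrt X) (H / X) τ‖ ^ 2 ≤ ε * H ^ 2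

/-! ### Simple facts -/

theorem FT.conj {f : ℝ → ℕ → ℂ} {E : Finset ℕ} {ω : ℂ} (h : FT f E ω) :
    FT (fun X => cj (f X)) E ((starRingEnd ℂ) ω) := by
  refine ⟨fun X m n => ?_, fun X n => ?_, fun T => ?_⟩
  · unfold cj
    rw [h.mul, map_mul]
  · rw [norm_cj]
    exact h.bd X n
  · filter_upwards [h.pr T] with X hX p h1 h2 h3
    unfold cj
    rw [hX p h1 h2 h3]

theorem FT.dil {f : ℝ → ℕ → ℂ} {E : Finset ℕ} {ω : ℂ} (h : FT f E ω) {a : ℝ} (ha : 0 < a) :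
    FT (fun X => f (a * X)) E ω :=
  ⟨fun X => h.mul (a * X), fun X => h.bd (a * X),
    fun T => (tendsto_id.const_mul_atTop ha).eventually (h.pr T)⟩

theorem FS.ft {Q : ℕ} (hQ : 0 < Q) {z : ℂ} {f : ℝ → ℕ → ℂ} (h : FS Q z f) : FT f Q.primeFactors z := by
  obtain ⟨κ, hκ, hp⟩ := h.pr
  refine ⟨h.mul, h.bd, fun T => ?_⟩
  have h1 : ∀ᶠ X : ℝ in atTop, (T : ℝ) ≤ X ^ κ := (tendsto_rpow_atTop hκ).eventually_ge_atTop _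
  filter_upwards [h1, eventually_ge_atTop 1] with X h2 h3 p h4 h5 h6
  refine hp X h3 p h5 (fun hd => h6 (Nat.mem_primeFactors.2 ⟨h5, hd, hQ.ne'⟩)) ?_
  exact le_trans (by exact_mod_cast h4) h2

theorem F4_R2 (f1 f2 f3 f4 : ℕ → ℂ) (e : Q4) : F4 f1 f2 f3 f4 e = R2 (pf f1 f2) (pf f3 f4) e := by
  unfold F4 R2 pf
  ring

theorem cjr_pf (f g : ℕ → ℂ) : cjr (pf f g) = pf (cj f) (cj g) := by
  funext z
  unfold cjr pf cj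
  rw [map_mul]

theorem norm_cjr (β : ℕ × ℕ → ℂ) (z : ℕ × ℕ) : ‖cjr β z‖ = ‖β z‖ := by
  unfold cjr
  exact RCLike.norm_conj (β z)

theorem norm_R2_le {α β : ℕ × ℕ → ℂ} (h1 : ∀ z, ‖α z‖ ≤ 1) (h2 : ∀ z, ‖β z‖ ≤ 1) (e : Q4) : ‖R2 α β e‖ ≤ 1 := by
  unfold R2
  rw [norm_mul]
  exact mul_le_one₀ (h1 _) (norm_nonneg _) (h2 _)

end Pool.Agent.SplL
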