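import Pool.Agent.Lib_MP_92ef0c_sp.Cs3
import Pool.Agent.Lib_MP_92ef0c_la.LDefs

/-!
# Cauchy-Schwarz over the first rows, general functions of the rows
-/

set_option autoImplicit false

namespace Pool.Agent.SplL

open Finset Pool.Agent.Spl Pool.Agent.SplB Pool.Agent.GaussMR Pool.Agent.OmAll Pool.Agent.OmEq MeasureTheory Filter

/-- the inner sum -/
noncomputable def l4T (h0 Q n0 : ℕ) (β : ℕ × ℕ → ℂ) (J N : ℕ) (V : ℕ × ℕ) : ℂ :=
  ∑ B ∈ c3B h0 Q n0 J N V, β (B.1, B.2) * ((rho J N ((B.1 : ℝ) / V.1) : ℝ) : ℂ)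

/-- the term of the pair `p` in the square of the inner sum -/
noncomputable def l4F (β : ℕ × ℕ → ℂ) (J N : ℕ) (V : ℕ × ℕ) (p : (ℕ × ℕ) × (ℕ × ℕ)) : ℂ :=
  β (p.1.1, p.1.2) * cjr β (p.2.1, p.2.2) *
    ((rho J N ((p.1.1 : ℝ) / V.1) * rho J N ((p.2.1 : ℝ) / V.1) : ℝ) : ℂ)

theorem l4_SX (h0 Q n0 : ℕ) (hQ : HQ h0 Q n0) (α β : ℕ × ℕ → ℂ) (h : ℝ → ℝ) (h2 : ℝ)
    (hh2 : ∀ y, h2 ≤ y → h y = 0) (J N : ℕ) (hJ : 1 ≤ J) (hN : 1 ≤ N) (X : ℝ) (hX : 1 ≤ X) (x : ℝ)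
    (hx : (J + N) * h2 * X ≤ x) :
    SX4 h0 Q n0 α β h J N x X = ∑ V ∈ c3A (h2 * X), α (V.1, V.2) * ((wV h X V.1 V.2 : ℝ) : ℂ) *
      l4T h0 Q n0 β J N V := by
  classical
  have hX0 : (0 : ℝ) < X := by linarith
  have h3 : ∑ V ∈ c3A (h2 * X), α (V.1, V.2) * ((wV h X V.1 V.2 : ℝ) : ℂ) * l4T h0 Q n0 β J N V =
      ∑ a ∈ (c3A (h2 * X)).sigma (fun V => c3B h0 Q n0 J N V), α (a.1.1, a.1.2) *
        ((wV h X a.1.1 a.1.2 : ℝ) : ℂ) * (β (a.2.1, a.2.2) * ((rho J N ((a.2.1 : ℝ) / a.1.1) : ℝ) : ℂ)) := by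
    rw [sum_sigma]
    apply sum_congr rfl
    intro V _
    unfold l4T
    rw [mul_sum]
  rw [h3]
  symm
  unfold SX4
  apply sum_bij_ne_zero (fun a _ _ => (⟨a.1.1, a.1.2, a.2.1, a.2.2⟩ : Q4))
  · rintro ⟨V, B⟩ ha hne
    rw [mem_sigma] at ha
    obtain ⟨hA, hB⟩ := ha
    simp only at hA hB hne
    obtain ⟨hV1, hV2⟩ := c3_memA hA
    rw [c3_memB hV1] at hB
    obtain ⟨c1, c2, -, -, c5, c6⟩ := c3_facts hQ hJ hV1 hB
    have hw : wV h X V.1 V.2 ≠ 0 := by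
      intro h0
      apply hne
      rw [h0]
      simp
    have h4 := c3_ab_lt hh2 hX0 (c3_wV hw).1
    rw [mem_SQ]
    refine ⟨⟨⟨hB.1, hV1, hV2, c5, c6, c1, c2⟩, ?_⟩, hB.2.1⟩
    unfold yS
    have h5 : (B.1 : ℝ) ≤ (J + N) * V.1 := by exact_mod_cast hB.2.2.2
    have hb : (0 : ℝ) ≤ V.2 := Nat.cast_nonneg _
    calc (V.2 : ℝ) * B.1 ≤ V.2 * ((J + N) * V.1) := mul_le_mul_of_nonneg_left h5 hb
      _ = (J + N) * (V.1 * V.2) := by ring
      _ ≤ (J + N) * (h2 * X) := mul_le_mul_of_nonneg_left h4.le (by positivity)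
      _ = (J + N) * h2 * X := by ring
      _ ≤ x := hx
  · rintro ⟨V, B⟩ _ _ ⟨V', B'⟩ _ _ heq
    simp only [Q4.mk.injEq] at heq
    obtain ⟨e1, e2, e3, e4⟩ := heq
    have hV : V = V' := Prod.ext e1 e2
    have hB : B = B' := Prod.ext e3 e4
    rw [hV, hB]
  · rintro ⟨a, b, c, d⟩ he hne
    rw [mem_SQ] at he
    obtain ⟨⟨⟨hdet, pa, pb, pc, pd, -, -⟩, -⟩, hmod⟩ := he
    simp only at hdet pa pb pc pd hmod hne
    have hw : wV h X (((a, b) : ℕ × ℕ).1 : ℝ) (((a, b) : ℕ × ℕ).2 : ℝ) ≠ 0 := by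
      intro h0
      apply hne
      simp only at h0
      rw [h0]
      simp
    have hr : rho J N ((c : ℝ) / a) ≠ 0 := by
      intro h0
      apply hne
      rw [h0]
      simp
    have hA := c3_inA hh2 hX0 (V := (a, b)) pa pb hw
    have hr' := csN_rho_ne hN hr
    have ha0 : (0 : ℝ) < a := by exact_mod_cast pa
    rw [le_div_iff₀ ha0, div_le_iff₀ ha0] at hr'
    have hB : c3R h0 Q n0 J N (a, b) (c, d) :=
      ⟨hdet, hmod, by exact_mod_cast hr'.1, by exact_mod_cast hr'.2⟩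
    refine ⟨⟨(a, b), (c, d)⟩, ?_, ?_, rfl⟩
    · rw [mem_sigma]
      exact ⟨hA, (c3_memB (V := (a, b)) pa).2 hB⟩
    · intro h0
      apply hne
      rw [← h0]
      unfold R2
      simp only
      push_cast
      ring
  · rintro ⟨V, B⟩ _ _
    unfold R2
    simp only
    push_cast
    ring

theorem l4_conj (β : ℕ × ℕ → ℂ) (J N : ℕ) (V : ℕ × ℕ) (p : (ℕ × ℕ) × (ℕ × ℕ)) :
    (starRingEnd ℂ) (l4F β J N V p) = l4F β J N V (p.2, p.1) := by
  unfold l4F cjr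
  rw [map_mul, map_mul, Complex.conj_conj, Complex.conj_ofReal]
  push_cast
  ring

open Classical in
/-- the pairs with the larger row first -/
noncomputable def l4U (h0 Q n0 : ℕ) (β : ℕ × ℕ → ℂ) (J N : ℕ) (V : ℕ × ℕ) : ℂ :=
  ∑ p ∈ c3B h0 Q n0 J N V ×ˢ c3B h0 Q n0 J N V, if p.2.1 < p.1.1 then l4F β J N V p else 0

theorem l4_TT {h0 Q n0 : ℕ} (hQ : HQ h0 Q n0) (β : ℕ × ℕ → ℂ) {J N : ℕ} (hJ : 1 ≤ J) {V : ℕ × ℕ} (hV : 1 ≤ V.1) :
    l4T h0 Q n0 β J N V * (starRingEnd ℂ) (l4T h0 Q n0 β J N V) =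
      ∑ B ∈ c3B h0 Q n0 J N V, l4F β J N V (B, B) + l4U h0 Q n0 β J N V +
        (starRingEnd ℂ) (l4U h0 Q n0 β J N V) := by
  classical
  have h1 : l4T h0 Q n0 β J N V * (starRingEnd ℂ) (l4T h0 Q n0 β J N V) =
      ∑ p ∈ c3B h0 Q n0 J N V ×ˢ c3B h0 Q n0 J N V, l4F β J N V p := by
    unfold l4T
    rw [map_sum, sum_mul_sum, sum_product]
    apply sum_congr rfl
    intro B _
    apply sum_congr rfl
    intro B' _
    unfold l4F cjr
    rw [map_mul, Complex.conj_ofReal]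
    push_cast
    ring
  have h2 : ∑ p ∈ c3B h0 Q n0 J N V ×ˢ c3B h0 Q n0 J N V, l4F β J N V p =
      ∑ p ∈ c3B h0 Q n0 J N V ×ˢ c3B h0 Q n0 J N V, (if p.1 = p.2 then l4F β J N V p else 0) +
      ∑ p ∈ c3B h0 Q n0 J N V ×ˢ c3B h0 Q n0 J N V, (if p.2.1 < p.1.1 then l4F β J N V p else 0) +
      ∑ p ∈ c3B h0 Q n0 J N V ×ˢ c3B h0 Q n0 J N V, (if p.1.1 < p.2.1 then l4F β J N V p else 0) := by
    rw [← sum_add_distrib, ← sum_add_distrib]
    apply sum_congr rfl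
    intro p hp
    rw [mem_product, c3_memB hV, c3_memB hV] at hp
    rcases lt_trichotomy p.1.1 p.2.1 with h | h | h
    · rw [if_neg (fun h3 => by rw [h3] at h; exact lt_irrefl _ h), if_neg (not_lt.2 h.le), if_pos h]
      ring
    · rw [if_pos (c3_eq_of hQ hJ hV hp.1 hp.2 h), if_neg (by omega), if_neg (by omega)]
      ring
    · rw [if_neg (fun h3 => by rw [h3] at h; exact lt_irrefl _ h), if_pos h, if_neg (not_lt.2 h.le)]
      ring
  have h3 : ∑ p ∈ c3B h0 Q n0 J N V ×ˢ c3B h0 Q n0 J N V, (if p.1 = p.2 then l4F β J N V p else 0) =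
      ∑ B ∈ c3B h0 Q n0 J N V, l4F β J N V (B, B) := by
    rw [sum_product]
    apply sum_congr rfl
    intro B hB
    rw [sum_ite_eq, if_pos hB]
  have h4 : ∑ p ∈ c3B h0 Q n0 J N V ×ˢ c3B h0 Q n0 J N V, (if p.1.1 < p.2.1 then l4F β J N V p else 0) =
      (starRingEnd ℂ) (l4U h0 Q n0 β J N V) := by
    unfold l4U
    rw [map_sum, sum_product, sum_product, sum_comm]
    apply sum_congr rfl
    intro B _
    apply sum_congr rfl
    intro B' _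
    show (if B'.1 < B.1 then l4F β J N V (B', B) else 0) =
      (starRingEnd ℂ) (if B'.1 < B.1 then l4F β J N V (B, B') else 0)
    split_ifs
    · rw [l4_conj]
    · rw [map_zero]
  rw [h1, h2, h3, h4]
  rfl

theorem l4_U {h0 Q n0 : ℕ} (hQ : HQ h0 Q n0) (β : ℕ × ℕ → ℂ) {J N : ℕ} (hJ : 1 ≤ J) {V : ℕ × ℕ} (hV : 1 ≤ V.1) :
    l4U h0 Q n0 β J N V = ∑ n ∈ Icc 1 N, ∑ p ∈ c3B h0 Q n0 J N V ×ˢ c3B h0 Q n0 J N V,
      if p.1.1 = p.2.1 + n * V.1 ∧ p.1.2 = p.2.2 + n * V.2 then l4F β J N V p else 0 := by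
  classical
  unfold l4U
  rw [sum_comm]
  apply sum_congr rfl
  intro p hp
  rw [mem_product, c3_memB hV, c3_memB hV] at hp
  by_cases hlt : p.2.1 < p.1.1
  · rw [if_pos hlt]
    obtain ⟨k, hk, h1, h2⟩ := c3_diff hQ hJ hV hp.1 hp.2 hlt.le
    have hk1 : 1 ≤ k := by
      by_contra hc
      have : k = 0 := by omega
      rw [this, zero_mul, add_zero] at h1
      omega
    rw [sum_eq_single k]
    · rw [if_pos ⟨h1, h2⟩]
    · intro n hn hnk
      rw [if_neg]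
      rintro ⟨h3, -⟩
      apply hnk
      have h4 : n * V.1 = k * V.1 := by omega
      exact Nat.eq_of_mul_eq_mul_right (by omega) h4
    · intro hm
      exfalso
      apply hm
      rw [mem_Icc]
      omega
  · rw [if_neg hlt]
    symm
    apply sum_eq_zero
    intro n hn
    rw [mem_Icc] at hn
    rw [if_neg]
    rintro ⟨h3, -⟩
    apply hlt
    have : 0 < n * V.1 := Nat.mul_pos (by omega) (by omega)
    omega

theorem l4_Gm (h0 Q n0 : ℕ) (hQ : HQ h0 Q n0) (β : ℕ × ℕ → ℂ) (h : ℝ → ℝ) (hlo : ∀ y, y ≤ 0 → h y = 0) (h2 : ℝ)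
    (hh2 : ∀ y, h2 ≤ y → h y = 0) (J N : ℕ) (hJ : 1 ≤ J) (hN : 1 ≤ N) (X : ℝ) (hX : 1 ≤ X) (x' : ℝ)
    (hx' : (J + N) ^ 2 * (h0 + 1) * h2 * X ≤ x') (n : ℕ) (hn : 1 ≤ n) :
    ∑ V ∈ c3A (h2 * X), ((wV h X V.1 V.2 ^ 2 : ℝ) : ℂ) * ∑ p ∈ c3B h0 Q n0 J N V ×ˢ c3B h0 Q n0 J N V,
      (if p.1.1 = p.2.1 + n * V.1 ∧ p.1.2 = p.2.2 + n * V.2 then l4F β J N V p else 0) =
      Gm4 h0 Q n0 β h J N n x' X := by
  classical
  have hX0 : (0 : ℝ) < X := by linarith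
  have hn0 : (1 : ℝ) ≤ n := by exact_mod_cast hn
  set S : Finset ((_ : ℕ × ℕ) × ((ℕ × ℕ) × (ℕ × ℕ))) := (c3A (h2 * X)).sigma
    (fun V => (c3B h0 Q n0 J N V ×ˢ c3B h0 Q n0 J N V).filter
      (fun p => p.1.1 = p.2.1 + n * V.1 ∧ p.1.2 = p.2.2 + n * V.2)) with hS
  have h1 : ∑ V ∈ c3A (h2 * X), ((wV h X V.1 V.2 ^ 2 : ℝ) : ℂ) *
      ∑ p ∈ c3B h0 Q n0 J N V ×ˢ c3B h0 Q n0 J N V,
      (if p.1.1 = p.2.1 + n * V.1 ∧ p.1.2 = p.2.2 + n * V.2 then l4F β J N V p else 0) =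
      ∑ a ∈ S, ((wV h X a.1.1 a.1.2 ^ 2 : ℝ) : ℂ) * l4F β J N a.1 a.2 := by
    rw [hS, sum_sigma]
    apply sum_congr rfl
    intro V _
    rw [mul_sum, sum_filter]
    apply sum_congr rfl
    intro p _
    split_ifs
    · rfl
    · rw [mul_zero]
  have hSmem : ∀ a : (_ : ℕ × ℕ) × ((ℕ × ℕ) × (ℕ × ℕ)), a ∈ S → (1 ≤ a.1.1 ∧ 1 ≤ a.1.2) ∧
      (c3R h0 Q n0 J N a.1 a.2.1 ∧ c3R h0 Q n0 J N a.1 a.2.2) ∧
      a.2.1.1 = a.2.2.1 + n * a.1.1 ∧ a.2.1.2 = a.2.2.2 + n * a.1.2 := by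
    intro a ha
    rw [hS, mem_sigma, mem_filter, mem_product] at ha
    have hV := c3_memA ha.1
    rw [c3_memB hV.1, c3_memB hV.1] at ha
    exact ⟨hV, ha.2.1, ha.2.2⟩
  -- the weight
  have hfacts : ∀ V B B' : ℕ × ℕ, 1 ≤ V.1 → B.1 = B'.1 + n * V.1 → B.2 = B'.2 + n * V.2 →
      w3 h J N n X ⟨B.1, B.2, B'.1, B'.2⟩ =
        wV h X V.1 V.2 ^ 2 * rho J N ((B.1 : ℝ) / V.1) * rho J N ((B'.1 : ℝ) / V.1) := by
    intro V B B' hV h3 h4
    have hV0 : (1 : ℝ) ≤ V.1 := by exact_mod_cast hV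
    have h5 : (B.1 : ℝ) - B'.1 = n * V.1 := by
      rw [h3]
      push_cast
      ring
    have h6 : (B.2 : ℝ) - B'.2 = n * V.2 := by
      rw [h4]
      push_cast
      ring
    unfold w3
    simp only
    rw [h5, h6, mul_div_cancel_left₀ _ (by linarith : (n : ℝ) ≠ 0),
      mul_div_cancel_left₀ _ (by linarith : (n : ℝ) ≠ 0),
      mul_div_mul_left _ _ (by linarith : (n : ℝ) ≠ 0), mul_div_mul_left _ _ (by linarith : (n : ℝ) ≠ 0)]
  rw [h1]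
  unfold Gm4
  apply sum_bij_ne_zero (fun a _ _ => (⟨a.2.1.1, a.2.1.2, a.2.2.1, a.2.2.2⟩ : Q4))
  · rintro ⟨V, B, B'⟩ ha hne
    obtain ⟨⟨hV1, hV2⟩, ⟨hB, hB'⟩, e1, e2⟩ := hSmem _ ha
    simp only at hV1 hV2 hB hB' e1 e2 hne
    obtain ⟨c1, c2, c3, c4, c5, c6⟩ := c3_facts hQ hJ hV1 hB
    obtain ⟨-, c2', -, -, c5', c6'⟩ := c3_facts hQ hJ hV1 hB'
    have hw : wV h X V.1 V.2 ≠ 0 := by
      intro h0
      apply hne
      rw [h0]
      simp
    have h4 := c3_ab_lt hh2 hX0 (c3_wV hw).1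
    obtain ⟨r1, r2, r3, r4⟩ := hB
    obtain ⟨s1, s2, s3, s4⟩ := hB'
    rw [mem_filter, mem_SN]
    refine ⟨⟨⟨?_, c5, c6, c5', c6', c2, c2'⟩, ?_⟩, ?_, ⟨?_, ?_⟩, ?_⟩
    · show B.1 * B'.2 = B.2 * B'.1 + n * h0
      rw [e1, e2]
      have : (B'.1 + n * V.1) * B'.2 = B'.1 * B'.2 + n * (V.1 * B'.2) := by ring
      rw [this, s1]
      ring
    · show (B.2 : ℝ) * B'.1 ≤ x'
      have ha : (1 : ℝ) ≤ V.1 := by exact_mod_cast hV1
      have hb : (1 : ℝ) ≤ V.2 := by exact_mod_cast hV2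
      have t1 : (V.1 : ℝ) * B.2 = V.2 * B.1 + h0 := by exact_mod_cast r1
      have t2 : (B.1 : ℝ) ≤ (J + N) * V.1 := by exact_mod_cast r4
      have t3 : (B'.1 : ℝ) ≤ (J + N) * V.1 := by exact_mod_cast s4
      have hJN : (1 : ℝ) ≤ J + N := by
        have : (1 : ℝ) ≤ J := by exact_mod_cast hJ
        have : (0 : ℝ) ≤ N := Nat.cast_nonneg _
        linarith
      have hh0' : (0 : ℝ) ≤ h0 := Nat.cast_nonneg _
      have hB2 : (0 : ℝ) ≤ B.2 := Nat.cast_nonneg _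
      calc (B.2 : ℝ) * B'.1 ≤ B.2 * ((J + N) * V.1) := mul_le_mul_of_nonneg_left t3 hB2
        _ = (J + N) * (V.2 * B.1 + h0) := by rw [← t1]; ring
        _ ≤ (J + N) * (V.2 * ((J + N) * V.1) + h0) := by gcongr
        _ ≤ (J + N) * ((J + N) * (V.1 * V.2) + (J + N) * (h0 * (V.1 * V.2))) := by
          have t4 : (h0 : ℝ) ≤ (J + N) * (h0 * (V.1 * V.2)) := by
            have t5 : (1 : ℝ) ≤ (J + N) * (V.1 * V.2) := by
              have : (1 : ℝ) ≤ (V.1 : ℝ) * V.2 := by nlinarith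
              nlinarith
            nlinarith
          have t6 : (V.2 : ℝ) * ((J + N) * V.1) = (J + N) * (V.1 * V.2) := by ring
          rw [t6]
          gcongr
        _ = (J + N) ^ 2 * (h0 + 1) * (V.1 * V.2) := by ring
        _ ≤ (J + N) ^ 2 * (h0 + 1) * (h2 * X) := by gcongr
        _ = (J + N) ^ 2 * (h0 + 1) * h2 * X := by ring
        _ ≤ x' := hx'
    · -- Q divides n
      have t1 : V.2 * B'.1 + V.2 * (n * V.1) ≡ V.2 * B'.1 + 0 [MOD Q] := by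
        have t2 : V.2 * B'.1 + V.2 * (n * V.1) = V.2 * B.1 := by
          rw [e1]
          ring
        rw [t2, add_zero]
        exact r2.trans s2.symm
      have t2 := Nat.ModEq.add_left_cancel' _ t1
      have t3 : Q ∣ V.2 * (n * V.1) := (Nat.modEq_zero_iff_dvd).1 t2
      have t4 : Q ∣ n * V.1 := (Nat.Coprime.symm c4).dvd_of_dvd_mul_left t3
      exact (Nat.Coprime.symm c3).dvd_of_dvd_mul_right t4
    · show B.1 ≡ B'.1 [MOD n]
      rw [e1]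
      have t1 : n * V.1 ≡ 0 [MOD n] := (Nat.modEq_zero_iff_dvd).2 (Dvd.intro _ rfl)
      have t2 := Nat.ModEq.add_left B'.1 t1
      rwa [add_zero] at t2
    · show B.2 ≡ B'.2 [MOD n]
      rw [e2]
      have t1 : n * V.2 ≡ 0 [MOD n] := (Nat.modEq_zero_iff_dvd).2 (Dvd.intro _ rfl)
      have t2 := Nat.ModEq.add_left B'.2 t1
      rwa [add_zero] at t2
    · show B.2 * B'.1 ≡ B'.2 * B'.1 + n * n0 [MOD n * Q]
      have t1 : B.2 * B'.1 = B'.2 * B'.1 + n * (V.2 * B'.1) := by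
        rw [e2]
        ring
      rw [t1]
      exact Nat.ModEq.add_left _ (Nat.ModEq.mul_left' n s2)
  · rintro ⟨V, B, B'⟩ ha _ ⟨W, D, D'⟩ ha₂ _ heq
    obtain ⟨-, -, e1, e2⟩ := hSmem _ ha
    obtain ⟨-, -, e3, e4⟩ := hSmem _ ha₂
    simp only [Q4.mk.injEq] at heq e1 e2 e3 e4
    obtain ⟨q1, q2, q3, q4⟩ := heq
    have t1 : n * V.1 = n * W.1 := by omega
    have t2 : n * V.2 = n * W.2 := by omega
    have t3 : V = W := Prod.ext (Nat.eq_of_mul_eq_mul_left (by omega) t1)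
      (Nat.eq_of_mul_eq_mul_left (by omega) t2)
    have t4 : B = D := Prod.ext q1 q2
    have t5 : B' = D' := Prod.ext q3 q4
    rw [t3, t4, t5]
  · rintro ⟨a, b, c, d⟩ he hne
    rw [mem_filter, mem_SN] at he
    obtain ⟨⟨⟨hdet, pa, pb, pc, pd, -, -⟩, -⟩, hQn, ⟨m1, m2⟩, m3⟩ := he
    simp only at hdet pa pb pc pd m1 m2 m3 hne
    have hw : w3 h J N n X ⟨a, b, c, d⟩ ≠ 0 := by
      intro h0
      apply hne
      rw [h0]
      simp
    have hw' : wV h X (((a : ℝ) - c) / n) (((b : ℝ) - d) / n) ^ 2 * rho J N (n * a / ((a : ℝ) - c)) *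
        rho J N (n * c / ((a : ℝ) - c)) ≠ 0 := hw
    have hr2 := right_ne_zero_of_mul hw'
    have hr1 := right_ne_zero_of_mul (left_ne_zero_of_mul hw')
    have hwV2 := left_ne_zero_of_mul (left_ne_zero_of_mul hw')
    have hwV : wV h X (((a : ℝ) - c) / n) (((b : ℝ) - d) / n) ≠ 0 := fun h0 => hwV2 (by rw [h0]; ring)
    have hr2' := csN_rho_ne hN hr2
    have hr1' := csN_rho_ne hN hr1
    have hJ1 : (1 : ℝ) ≤ J := by exact_mod_cast hJ
    have pc' : (0 : ℝ) < c := by exact_mod_cast pc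
    have hn00 : (0 : ℝ) < n := by linarith
    have hac : (0 : ℝ) < (a : ℝ) - c := by
      by_contra hc
      push Not at hc
      have t1 : n * (c : ℝ) / ((a : ℝ) - c) ≤ 0 := div_nonpos_of_nonneg_of_nonpos (by positivity) hc
      linarith [hr2'.1]
    have hprod := c3_ab_pos hlo hX0 (c3_wV hwV).1
    have hbd : (0 : ℝ) < (b : ℝ) - d := by
      by_contra hc
      push Not at hc
      have t1 : (0 : ℝ) < ((a : ℝ) - c) / n := div_pos hac hn00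
      have t2 : ((b : ℝ) - d) / n ≤ 0 := div_nonpos_of_nonpos_of_nonneg hc hn00.le
      nlinarith
    have hac' : c < a := by
      have : (c : ℝ) < a := by linarith
      exact_mod_cast this
    have hbd' : d < b := by
      have : (d : ℝ) < b := by linarith
      exact_mod_cast this
    obtain ⟨u, hu⟩ := (Nat.modEq_iff_dvd' hac'.le).1 m1.symm
    obtain ⟨v, hv⟩ := (Nat.modEq_iff_dvd' hbd'.le).1 m2.symm
    have ea : a = c + n * u := by omega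
    have eb : b = d + n * v := by omega
    have hu1 : 1 ≤ u := by
      rcases Nat.eq_zero_or_pos u with t | t
      · rw [t, mul_zero] at hu
        omega
      · exact t
    have hv1 : 1 ≤ v := by
      rcases Nat.eq_zero_or_pos v with t | t
      · rw [t, mul_zero] at hv
        omega
      · exact t
    have hu0 : (1 : ℝ) ≤ u := by exact_mod_cast hu1
    have q1 : (a : ℝ) - c = n * u := by
      rw [ea]
      push_cast
      ring
    have q2 : (b : ℝ) - d = n * v := by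
      rw [eb]
      push_cast
      ring
    rw [q1, mul_div_mul_left _ _ hn00.ne'] at hr1' hr2'
    rw [q1, q2, mul_div_cancel_left₀ _ hn00.ne', mul_div_cancel_left₀ _ hn00.ne'] at hwV
    have hu00 : (0 : ℝ) < u := by linarith
    rw [le_div_iff₀ hu00, div_le_iff₀ hu00] at hr1' hr2'
    have hA := c3_inA hh2 hX0 (V := (u, v)) hu1 hv1 hwV
    have d1 : u * d = v * c + h0 := by
      have t1 : n * (u * d) = n * (v * c + h0) := by
        have t2 : (c + n * u) * d = (d + n * v) * c + n * h0 := by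
          rw [← ea, ← eb]
          exact hdet
        have t3 : (c + n * u) * d = c * d + n * (u * d) := by ring
        have t4 : (d + n * v) * c + n * h0 = c * d + n * (v * c + h0) := by ring
        rw [t3, t4] at t2
        omega
      exact Nat.eq_of_mul_eq_mul_left (by omega) t1
    have d2 : u * b = v * a + h0 := by
      rw [ea, eb]
      have t1 : u * (d + n * v) = u * d + n * (u * v) := by ring
      rw [t1, d1]
      ring
    have k1 : v * c ≡ n0 [MOD Q] := by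
      have t1 : d * c + n * (v * c) ≡ d * c + n * n0 [MOD n * Q] := by
        have t2 : d * c + n * (v * c) = b * c := by
          rw [eb]
          ring
        rw [t2]
        exact m3
      have t2 := Nat.ModEq.add_left_cancel' _ t1
      exact Nat.ModEq.mul_left_cancel' (by omega) t2
    have k2 : v * a ≡ n0 [MOD Q] := by
      have t1 : v * a = v * c + n * (u * v) := by
        rw [ea]
        ring
      rw [t1]
      have t2 : n * (u * v) ≡ 0 [MOD Q] := (Nat.modEq_zero_iff_dvd).2 (hQn.trans (Dvd.intro _ rfl))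
      have t3 := Nat.ModEq.add k1 t2
      rwa [add_zero] at t3
    have Rw1 : c3R h0 Q n0 J N (u, v) (a, b) :=
      ⟨d2, k2, by exact_mod_cast hr1'.1, by exact_mod_cast hr1'.2⟩
    have Rw2 : c3R h0 Q n0 J N (u, v) (c, d) :=
      ⟨d1, k1, by exact_mod_cast hr2'.1, by exact_mod_cast hr2'.2⟩
    refine ⟨⟨(u, v), (a, b), (c, d)⟩, ?_, ?_, rfl⟩
    · rw [hS, mem_sigma, mem_filter, mem_product, c3_memB hu1, c3_memB hu1]
      exact ⟨hA, ⟨Rw1, Rw2⟩, ea, eb⟩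
    · intro h0
      apply hne
      rw [← h0]
      have t1 := hfacts (u, v) (a, b) (c, d) hu1 ea eb
      simp only at t1
      rw [t1]
      unfold R2 l4F
      simp only
      push_cast
      ring
  · rintro ⟨V, B, B'⟩ ha _
    obtain ⟨⟨hV1, hV2⟩, -, e1, e2⟩ := hSmem _ ha
    simp only at hV1 hV2 e1 e2
    simp only
    rw [hfacts V B B' hV1 e1 e2]
    unfold R2 l4F
    simp only
    push_cast
    ring

/-- PROOF. Copy of `csN3` (`Lib_MP_92ef0c_sp/Cs3.lean`), where `F4 g f f g e = (g(a) f(b)) (f(c) g(d))` and `Gm3` has the product `f(a) g(b) conj (f(c)) conj (g(d))`; here `g(a) f(b)` is replaced by `α (a, b)` and `f(c) g(d)` by `β (c, d)`.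
The lemmas `c3_memB`, `c3_memA`, `c3_cardA`, `c3_facts`, `c3_diff`, `c3_cardB`, `c3_ab_pos`, .., `c3_inA`, `c3_eq_of` of `Cs3.lean` can be imported (they do not contain `f`, `g`); `c3T`, `c3F`, `c3_SX`, `c3U`, `c3_TT`, `c3_U`, `c3_Gm` have to be copied with `β`. -/
theorem csN4 (h0 Q n0 : ℕ) (hQ : HQ h0 Q n0) (α β : ℕ × ℕ → ℂ) (hα : ∀ z, ‖α z‖ ≤ 1) (hβ : ∀ z, ‖β z‖ ≤ 1) (h : ℝ → ℝ)
    (hh0 : ∀ y, 0 ≤ h y) (hh1 : ∀ y, h y ≤ 1) (hlo : ∀ y, y ≤ 0 → h y = 0) (h2 : ℝ) (hh2 : ∀ y, h2 ≤ y → h y = 0)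
    (J N : ℕ) (hJ : 1 ≤ J) (hN : 1 ≤ N) (X : ℝ) (hX : 1 ≤ X) (hh2' : 1 ≤ h2) (x x' : ℝ)
    (hx : (J + N) * h2 * X ≤ x) (hx' : (J + N) ^ 2 * (h0 + 1) * h2 * X ≤ x') :
    ‖SX4 h0 Q n0 α β h J N x X‖ ^ 2 ≤
      3 * h2 * X * (3 * h2 * X * (N + 1) + 2 * ‖∑ n ∈ Icc 1 N, Gm4 h0 Q n0 β h J N n x' X‖) := by
  classical
  have hX0 : (0 : ℝ) < X := by linarith
  have hY0 : (0 : ℝ) ≤ h2 * X := by positivity
  set 𝒜 := c3A (h2 * X) with h𝒜
  have hcardA : (𝒜.card : ℝ) ≤ 3 * (h2 * X) := c3_cardA hY0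
  rw [l4_SX h0 Q n0 hQ α β h h2 hh2 J N hJ hN X hX x hx]
  -- the sum of the squares
  set R : ℝ := ∑ V ∈ 𝒜, wV h X V.1 V.2 ^ 2 * ‖l4T h0 Q n0 β J N V‖ ^ 2 with hR
  have h1 : ‖∑ V ∈ 𝒜, α (V.1, V.2) * ((wV h X V.1 V.2 : ℝ) : ℂ) * l4T h0 Q n0 β J N V‖ ^ 2 ≤
      3 * h2 * X * R := by
    have h3 : ‖∑ V ∈ 𝒜, α (V.1, V.2) * ((wV h X V.1 V.2 : ℝ) : ℂ) * l4T h0 Q n0 β J N V‖ ≤
        ∑ V ∈ 𝒜, wV h X V.1 V.2 * ‖l4T h0 Q n0 β J N V‖ := by
      apply norm_sum_le_of_le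
      intro V _
      have h6 := c3_wV_nonneg hh0 X V.1 V.2
      rw [norm_mul, norm_mul, Complex.norm_real, Real.norm_eq_abs, abs_of_nonneg h6]
      have h4 := hα (V.1, V.2)
      have h7 := norm_nonneg (l4T h0 Q n0 β J N V)
      calc ‖α (V.1, V.2)‖ * wV h X V.1 V.2 * ‖l4T h0 Q n0 β J N V‖
          ≤ 1 * wV h X V.1 V.2 * ‖l4T h0 Q n0 β J N V‖ := by gcongr
        _ = _ := by ring
    have h4 : (∑ V ∈ 𝒜, wV h X V.1 V.2 * ‖l4T h0 Q n0 β J N V‖) ^ 2 ≤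
        𝒜.card * ∑ V ∈ 𝒜, (wV h X V.1 V.2 * ‖l4T h0 Q n0 β J N V‖) ^ 2 := sq_sum_le_card_mul_sum_sq
    have h5 : ∑ V ∈ 𝒜, (wV h X V.1 V.2 * ‖l4T h0 Q n0 β J N V‖) ^ 2 = R := by
      rw [hR]
      apply sum_congr rfl
      intro V _
      ring
    have hR0 : 0 ≤ R := by
      rw [hR]
      apply sum_nonneg
      intro V _
      positivity
    calc ‖∑ V ∈ 𝒜, α (V.1, V.2) * ((wV h X V.1 V.2 : ℝ) : ℂ) * l4T h0 Q n0 β J N V‖ ^ 2
        ≤ (∑ V ∈ 𝒜, wV h X V.1 V.2 * ‖l4T h0 Q n0 β J N V‖) ^ 2 :=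
          pow_le_pow_left₀ (norm_nonneg _) h3 2
      _ ≤ 𝒜.card * R := by rw [← h5]; exact h4
      _ ≤ 3 * (h2 * X) * R := mul_le_mul_of_nonneg_right hcardA hR0
      _ = 3 * h2 * X * R := by ring
  refine h1.trans ?_
  apply mul_le_mul_of_nonneg_left _ (by positivity)
  -- expansion of the squares
  set D : ℂ := ∑ V ∈ 𝒜, ((wV h X V.1 V.2 ^ 2 : ℝ) : ℂ) *
    ∑ B ∈ c3B h0 Q n0 J N V, l4F β J N V (B, B) with hD
  set U : ℂ := ∑ V ∈ 𝒜, ((wV h X V.1 V.2 ^ 2 : ℝ) : ℂ) * l4U h0 Q n0 β J N V with hU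
  have h3 : ((R : ℝ) : ℂ) = D + U + (starRingEnd ℂ) U := by
    rw [hR, hD, hU, map_sum, ← sum_add_distrib, ← sum_add_distrib]
    push_cast
    apply sum_congr rfl
    intro V hV
    have h4 : ((‖l4T h0 Q n0 β J N V‖ : ℝ) : ℂ) ^ 2 =
        l4T h0 Q n0 β J N V * (starRingEnd ℂ) (l4T h0 Q n0 β J N V) := by
      rw [Complex.mul_conj, Complex.normSq_eq_norm_sq]
      push_cast
      rfl
    rw [h4, l4_TT hQ β hJ (c3_memA hV).1, map_mul, map_pow, Complex.conj_ofReal]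
    ring
  have hUG : U = ∑ n ∈ Icc 1 N, Gm4 h0 Q n0 β h J N n x' X := by
    rw [hU]
    have h4 : ∀ V ∈ 𝒜, ((wV h X V.1 V.2 ^ 2 : ℝ) : ℂ) * l4U h0 Q n0 β J N V =
        ∑ n ∈ Icc 1 N, ((wV h X V.1 V.2 ^ 2 : ℝ) : ℂ) *
          ∑ p ∈ c3B h0 Q n0 J N V ×ˢ c3B h0 Q n0 J N V,
          (if p.1.1 = p.2.1 + n * V.1 ∧ p.1.2 = p.2.2 + n * V.2 then l4F β J N V p else 0) := by
      intro V hV
      rw [l4_U hQ β hJ (c3_memA hV).1, mul_sum]
    rw [sum_congr rfl h4, sum_comm]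
    apply sum_congr rfl
    intro n hn
    rw [mem_Icc] at hn
    exact l4_Gm h0 Q n0 hQ β h hlo h2 hh2 J N hJ hN X hX x' hx' n hn.1
  have hDle : ‖D‖ ≤ 3 * h2 * X * (N + 1) := by
    rw [hD]
    have h4 : ‖∑ V ∈ 𝒜, ((wV h X V.1 V.2 ^ 2 : ℝ) : ℂ) *
        ∑ B ∈ c3B h0 Q n0 J N V, l4F β J N V (B, B)‖ ≤ ∑ _V ∈ 𝒜, ((N : ℝ) + 1) := by
      apply norm_sum_le_of_le
      intro V hV
      have hV1 := (c3_memA hV).1
      rw [norm_mul, Complex.norm_real, Real.norm_eq_abs, abs_of_nonneg (sq_nonneg _)]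
      have h5 : ‖∑ B ∈ c3B h0 Q n0 J N V, l4F β J N V (B, B)‖ ≤
          ∑ _B ∈ c3B h0 Q n0 J N V, (1 : ℝ) := by
        apply norm_sum_le_of_le
        intro B _
        unfold l4F
        rw [norm_mul, norm_mul, Complex.norm_real, norm_cjr, Real.norm_eq_abs]
        have h6 := hβ (B.1, B.2)
        have h7 := csN_rho_nonneg J N ((B.1 : ℝ) / V.1)
        have h8 := csN_rho_le J N ((B.1 : ℝ) / V.1)
        simp only
        rw [abs_of_nonneg (mul_nonneg h7 h7)]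
        calc ‖β (B.1, B.2)‖ * ‖β (B.1, B.2)‖ * (rho J N ((B.1 : ℝ) / V.1) *
              rho J N ((B.1 : ℝ) / V.1)) ≤ 1 * 1 * (1 * 1) := by gcongr
          _ = 1 := by norm_num
      rw [sum_const, nsmul_eq_mul, mul_one] at h5
      have h6 : wV h X V.1 V.2 ^ 2 ≤ 1 := by
        have h7 := c3_wV_nonneg hh0 X V.1 V.2
        have h8 := c3_wV_le hh0 hh1 X V.1 V.2
        nlinarith
      have h7 : ((c3B h0 Q n0 J N V).card : ℝ) ≤ (N : ℝ) + 1 := by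
        exact_mod_cast c3_cardB hQ hJ hV1
      calc wV h X V.1 V.2 ^ 2 * ‖∑ B ∈ c3B h0 Q n0 J N V, l4F β J N V (B, B)‖
          ≤ 1 * ((N : ℝ) + 1) := by
            apply mul_le_mul h6 (h5.trans h7) (norm_nonneg _) zero_le_one
        _ = (N : ℝ) + 1 := one_mul _
    rw [sum_const, nsmul_eq_mul] at h4
    calc _ ≤ (𝒜.card : ℝ) * ((N : ℝ) + 1) := h4
      _ ≤ 3 * (h2 * X) * ((N : ℝ) + 1) := by
        apply mul_le_mul_of_nonneg_right hcardA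
        positivity
      _ = _ := by ring
  have h4 : R = D.re + 2 * U.re := by
    have h5 := congrArg Complex.re h3
    rw [Complex.ofReal_re, Complex.add_re, Complex.add_re, Complex.conj_re] at h5
    linarith
  rw [h4, ← hUG]
  have h5 := Complex.re_le_norm D
  have h6 := Complex.re_le_norm U
  linarith

end Pool.Agent.SplL
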