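import Pool.Agent.Lib_MP_92ef0c_sp.Ctw3
import Pool.Agent.Lib_MP_92ef0c_la.LDefs

/-!
# The cluster theorems for families: only primes `≤ T` are moved
-/

set_option autoImplicit false

namespace Pool.Agent.SplL

open Finset Pool.Agent.Spl Pool.Agent.Spl.Ctw3P Pool.Agent.SplB Pool.Agent.GaussMR Pool.Agent.OmAll Pool.Agent.OmEq MeasureTheory
  Filter

private theorem cluT_ndvd {n : ℕ} (hn : 0 < n) {E : Finset ℕ} (hE : n.primeFactors ⊆ E) {p : ℕ} (hp : p.Prime) (hpE : p ∉ E) :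
    ¬ p ∣ n :=
  fun h => hpE (hE (Nat.mem_primeFactors.mpr ⟨hp, h, hn.ne'⟩))

/-- moving a prime from `d` to `a` -/
private theorem cluT_moveA {n : ℕ} {p a b c d : ℕ} (hp : p.Prime) (hpn : ¬ p ∣ n) :
    Sn n ⟨p * a, b, c, d⟩ ↔ Sn n ⟨a, b, c, p * d⟩ := by
  have hnb : ∀ k, p * k = b * c + n → ¬ p ∣ b := by
    intro k hk h
    apply hpn
    have h1 : p ∣ b * c + n := ⟨k, hk.symm⟩
    exact (Nat.dvd_add_right (Dvd.dvd.mul_right h c)).1 h1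
  have hnc : ∀ k, p * k = b * c + n → ¬ p ∣ c := by
    intro k hk h
    apply hpn
    have h1 : p ∣ b * c + n := ⟨k, hk.symm⟩
    exact (Nat.dvd_add_right (Dvd.dvd.mul_left h b)).1 h1
  unfold Sn
  constructor
  · rintro ⟨h1, h2, h3, h4, h5, h6, h7⟩
    simp only at h1 h2 h3 h4 h5 h6 h7 ⊢
    have h8 : p * (a * d) = b * c + n := by rw [← h1]; ring
    have hcp : c.Coprime p := ((Nat.Prime.coprime_iff_not_dvd hp).2 (hnc _ h8)).symm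
    refine ⟨by rw [← h8]; ring, Nat.pos_of_mul_pos_left h2, h3, h4, Nat.mul_pos hp.pos h5, ?_, ?_⟩
    · exact Nat.Coprime.coprime_mul_left h6
    · exact Nat.Coprime.mul_right hcp h7
  · rintro ⟨h1, h2, h3, h4, h5, h6, h7⟩
    simp only at h1 h2 h3 h4 h5 h6 h7 ⊢
    have h8 : p * (a * d) = b * c + n := by rw [← h1]; ring
    have hbp : p.Coprime b := (Nat.Prime.coprime_iff_not_dvd hp).2 (hnb _ h8)
    refine ⟨by rw [← h8]; ring, Nat.mul_pos hp.pos h2, h3, h4, Nat.pos_of_mul_pos_left h5, ?_, ?_⟩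
    · exact Nat.Coprime.mul_left hbp h6
    · exact Nat.Coprime.coprime_mul_left_right h7

/-- moving a prime from `c` to `b` -/
private theorem cluT_moveB {n : ℕ} {p a b c d : ℕ} (hp : p.Prime) (hpn : ¬ p ∣ n) :
    Sn n ⟨a, p * b, c, d⟩ ↔ Sn n ⟨a, b, p * c, d⟩ := by
  have hna : ∀ k, a * d = p * k + n → ¬ p ∣ a := by
    intro k hk h
    apply hpn
    have h1 : p ∣ p * k + n := by rw [← hk]; exact Dvd.dvd.mul_right h d
    exact (Nat.dvd_add_right (Dvd.intro k rfl)).1 h1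
  have hnd : ∀ k, a * d = p * k + n → ¬ p ∣ d := by
    intro k hk h
    apply hpn
    have h1 : p ∣ p * k + n := by rw [← hk]; exact Dvd.dvd.mul_left h a
    exact (Nat.dvd_add_right (Dvd.intro k rfl)).1 h1
  unfold Sn
  constructor
  · rintro ⟨h1, h2, h3, h4, h5, h6, h7⟩
    simp only at h1 h2 h3 h4 h5 h6 h7 ⊢
    have h8 : a * d = p * (b * c) + n := by rw [h1]; ring
    have hdp : p.Coprime d := (Nat.Prime.coprime_iff_not_dvd hp).2 (hnd _ h8)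
    refine ⟨by rw [h8]; ring, h2, Nat.pos_of_mul_pos_left h3, Nat.mul_pos hp.pos h4, h5, ?_, ?_⟩
    · exact Nat.Coprime.coprime_mul_left_right h6
    · exact Nat.Coprime.mul_left hdp h7
  · rintro ⟨h1, h2, h3, h4, h5, h6, h7⟩
    simp only at h1 h2 h3 h4 h5 h6 h7 ⊢
    have h8 : a * d = p * (b * c) + n := by rw [h1]; ring
    have hap : a.Coprime p := ((Nat.Prime.coprime_iff_not_dvd hp).2 (hna _ h8)).symm
    refine ⟨by rw [h8]; ring, h2, Nat.mul_pos hp.pos h3, Nat.pos_of_mul_pos_left h4, h5, ?_, ?_⟩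
    · exact Nat.Coprime.mul_right hap h6
    · exact Nat.Coprime.coprime_mul_left h7

open Classical in
/-- PROOF. Copy of `cluA` (`Lib_MP_92ef0c_sp/CluAB.lean`); only primes `p ∈ PP E T` (so `p ≤ T`) are moved there. -/
theorem cluTA (n : ℕ) (hn : 0 < n) (E : Finset ℕ) (hE : n.primeFactors ⊆ E) (g : ℕ → ℂ) (T : ℕ) (Φ : Q4 → ℂ)
    (hΦ : CmpTA n E T g Φ) (x : ℝ) (W : ℝ → ℝ → ℝ → ℂ) :
    ∑ e ∈ SN n x, Φ e * W (yS e) (tS e) (uS e) =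
      ∑ e ∈ (SN n x).filter (bA E T), Φ e * cs g (fun t => W (yS e) t (uS e)) (dA E T e) (tS e) := by
  refine clus_abs (SN n x) (fun e => e.a) (fun e => e.d) (PP E T) (fun p hp => (mem_PP.1 hp).2.1)
    (fun p e => ⟨p * e.a, e.b, e.c, e.d / p⟩) ?_ ?_ ?_ (fun e he => (mem_SN.1 he).1.2.1)
    (fun e he => (mem_SN.1 he).1.2.2.2.2.1) g Φ ?_ (fun e t => W (yS e) t (uS e)) (fun _ _ _ _ _ _ => rfl)
  · rintro p hp ⟨a, b, c, d⟩ he hd hd2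
    obtain ⟨hpT, hpp, hpE⟩ := mem_PP.1 hp
    have hpn := cluT_ndvd hn hE hpp hpE
    obtain ⟨k, rfl⟩ := hd
    obtain ⟨he1, he2⟩ := mem_SN.1 he
    show ((⟨p * a, b, c, p * k / p⟩ : Q4) ∈ SN n x) ∧ p * a = p * a ∧ p * (p * k / p) = p * k
    rw [Nat.mul_div_cancel_left _ hpp.pos]
    exact ⟨mem_SN.2 ⟨(cluT_moveA hpp hpn).2 he1, he2⟩, rfl, rfl⟩
  · rintro p hp ⟨a, b, c, d⟩ he hd hd2
    obtain ⟨hpT, hpp, hpE⟩ := mem_PP.1 hp
    have hpn := cluT_ndvd hn hE hpp hpE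
    obtain ⟨k, rfl⟩ := hd
    obtain ⟨he1, he2⟩ := mem_SN.1 he
    refine ⟨⟨k, b, c, p * d⟩, mem_SN.2 ⟨(cluT_moveA hpp hpn).1 he1, he2⟩, Dvd.intro _ rfl, ?_, ?_⟩
    · show ¬ p ^ 2 ∣ k * (p * d)
      have h1 : k * (p * d) = p * k * d := by ring
      rw [h1]
      exact hd2
    · show (⟨p * k, b, c, p * d / p⟩ : Q4) = ⟨p * k, b, c, d⟩
      rw [Nat.mul_div_cancel_left _ hpp.pos]
  · rintro p hp ⟨a, b, c, d⟩ he ⟨a', b', c', d'⟩ he' hd hd' h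
    obtain ⟨hpT, hpp, hpE⟩ := mem_PP.1 hp
    obtain ⟨k, rfl⟩ := hd
    obtain ⟨k', rfl⟩ := hd'
    simp only [Q4.mk.injEq] at h
    obtain ⟨h1, h2, h3, h4⟩ := h
    rw [Nat.mul_div_cancel_left _ hpp.pos, Nat.mul_div_cancel_left _ hpp.pos] at h4
    have h5 : a = a' := Nat.eq_of_mul_eq_mul_left hpp.pos h1
    rw [h5, h2, h3, h4]
  · rintro p hp ⟨a, b, c, d⟩ he hd hd2
    obtain ⟨hpT, hpp, hpE⟩ := mem_PP.1 hp
    have hpn := cluT_ndvd hn hE hpp hpE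
    obtain ⟨k, rfl⟩ := hd
    obtain ⟨he1, he2⟩ := mem_SN.1 he
    show Φ ⟨p * a, b, c, p * k / p⟩ = g p * Φ ⟨a, b, c, p * k⟩
    rw [Nat.mul_div_cancel_left _ hpp.pos]
    refine hΦ.mv p a b c k hpp hpT hpE ((cluT_moveA hpp hpn).2 he1) ?_
    have h1 : p * a * k = a * (p * k) := by ring
    rw [h1]
    exact hd2

open Classical in
/-- PROOF. Copy of `cluB` (`Lib_MP_92ef0c_sp/CluAB.lean`). -/
theorem cluTB (n : ℕ) (hn : 0 < n) (E : Finset ℕ) (hE : n.primeFactors ⊆ E) (g : ℕ → ℂ) (T : ℕ) (Φ : Q4 → ℂ)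
    (hΦ : CmpTB n E T g Φ) (x : ℝ) (W : ℝ → ℝ → ℝ → ℂ) :
    ∑ e ∈ SN n x, Φ e * W (yS e) (tS e) (uS e) =
      ∑ e ∈ (SN n x).filter (bB E T), Φ e * cs g (fun u => W (yS e) (tS e) u) (dB E T e) (uS e) := by
  have hy : ∀ p a b k d : ℕ, yS ⟨a, p * b, k, d⟩ = yS ⟨a, b, p * k, d⟩ := by
    intro p a b k d
    unfold yS
    push_cast
    ring
  refine clus_abs (SN n x) (fun e => e.b) (fun e => e.c) (PP E T) (fun p hp => (mem_PP.1 hp).2.1)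
    (fun p e => ⟨e.a, p * e.b, e.c / p, e.d⟩) ?_ ?_ ?_ (fun e he => (mem_SN.1 he).1.2.2.1)
    (fun e he => (mem_SN.1 he).1.2.2.2.1) g Φ ?_ (fun e u => W (yS e) (tS e) u) ?_
  · rintro p hp ⟨a, b, c, d⟩ he hd hd2
    obtain ⟨hpT, hpp, hpE⟩ := mem_PP.1 hp
    have hpn := cluT_ndvd hn hE hpp hpE
    obtain ⟨k, rfl⟩ := hd
    obtain ⟨he1, he2⟩ := mem_SN.1 he
    show ((⟨a, p * b, p * k / p, d⟩ : Q4) ∈ SN n x) ∧ p * b = p * b ∧ p * (p * k / p) = p * k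
    rw [Nat.mul_div_cancel_left _ hpp.pos]
    refine ⟨mem_SN.2 ⟨(cluT_moveB hpp hpn).2 he1, ?_⟩, rfl, rfl⟩
    rw [hy]
    exact he2
  · rintro p hp ⟨a, b, c, d⟩ he hd hd2
    obtain ⟨hpT, hpp, hpE⟩ := mem_PP.1 hp
    have hpn := cluT_ndvd hn hE hpp hpE
    obtain ⟨k, rfl⟩ := hd
    obtain ⟨he1, he2⟩ := mem_SN.1 he
    refine ⟨⟨a, k, p * c, d⟩, mem_SN.2 ⟨(cluT_moveB hpp hpn).1 he1, ?_⟩, Dvd.intro _ rfl, ?_, ?_⟩
    · rw [← hy]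
      exact he2
    · show ¬ p ^ 2 ∣ k * (p * c)
      have h1 : k * (p * c) = p * k * c := by ring
      rw [h1]
      exact hd2
    · show (⟨a, p * k, p * c / p, d⟩ : Q4) = ⟨a, p * k, c, d⟩
      rw [Nat.mul_div_cancel_left _ hpp.pos]
  · rintro p hp ⟨a, b, c, d⟩ he ⟨a', b', c', d'⟩ he' hd hd' h
    obtain ⟨hpT, hpp, hpE⟩ := mem_PP.1 hp
    obtain ⟨k, rfl⟩ := hd
    obtain ⟨k', rfl⟩ := hd'
    simp only [Q4.mk.injEq] at h
    obtain ⟨h1, h2, h3, h4⟩ := h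
    rw [Nat.mul_div_cancel_left _ hpp.pos, Nat.mul_div_cancel_left _ hpp.pos] at h3
    have h5 : b = b' := Nat.eq_of_mul_eq_mul_left hpp.pos h2
    rw [h5, h1, h3, h4]
  · rintro p hp ⟨a, b, c, d⟩ he hd hd2
    obtain ⟨hpT, hpp, hpE⟩ := mem_PP.1 hp
    have hpn := cluT_ndvd hn hE hpp hpE
    obtain ⟨k, rfl⟩ := hd
    obtain ⟨he1, he2⟩ := mem_SN.1 he
    show Φ ⟨a, p * b, p * k / p, d⟩ = g p * Φ ⟨a, b, p * k, d⟩
    rw [Nat.mul_div_cancel_left _ hpp.pos]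
    refine hΦ.mv p a b k d hpp hpT hpE ((cluT_moveB hpp hpn).2 he1) ?_
    have h1 : p * b * k = b * (p * k) := by ring
    rw [h1]
    exact hd2
  · rintro p hp ⟨a, b, c, d⟩ he hd hd2
    obtain ⟨hpT, hpp, hpE⟩ := mem_PP.1 hp
    obtain ⟨k, rfl⟩ := hd
    show (fun u => W (yS ⟨a, p * b, p * k / p, d⟩) (tS ⟨a, p * b, p * k / p, d⟩) u) =
      fun u => W (yS ⟨a, b, p * k, d⟩) (tS ⟨a, b, p * k, d⟩) u
    rw [Nat.mul_div_cancel_left _ hpp.pos, hy]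
    rfl

/-- PROOF. Copy of `ctwA` (`Lib_MP_92ef0c_sp/Ctw3.lean`): there `T` is fixed first and then `X → ∞`; use `cluTA` for the large `X` with `CmpTA n E T g (Φ X)`. -/
theorem ctwTA (n : ℕ) (hn : 0 < n) (E : Finset ℕ) (hE : n.primeFactors ⊆ E) (g : ℕ → ℂ)
    (hg1 : ∀ p : ℕ, p.Prime → p ∉ E → ‖g p‖ = 1) (R : ℝ) (hR0 : 0 ≤ R) (hR1 : R ≤ 1) (hNP : NPS E g R)
    (Φ : ℝ → Q4 → ℂ) (hΦ : ∀ T : ℕ, ∀ᶠ X : ℝ in atTop, CmpTA n E T g (Φ X)) (b : ℝ) (W : ℝ → ℝ → ℝ → ℂ) (hW : TS b W)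
    (h0 : R < 1 ∨ ∀ y u, (∫ t, W y t u) = 0) :
    Tendsto (fun X : ℝ => (∑ e ∈ SN n (b * X), Φ X e * W (yS e / X) (tS e) (uS e)) / X) atTop (nhds 0) := by
  classical
  obtain ⟨κ, hκ, htr⟩ := trA n hn
  obtain ⟨R1, hR1pos, hbox⟩ := box hW.supp
  simp only at hbox
  rw [Metric.tendsto_atTop]
  intro ε hε
  set Ψ : Finset ℕ → ℝ → ℝ → ℝ → ℝ := fun D y t u => ‖cs g (fun t => W y t u) D t‖ with hΨ
  have hΨc : ∀ D, Continuous (fun v : ℝ × ℝ × ℝ => Ψ D v.1 v.2.1 v.2.2) := by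
    intro D
    rw [hΨ]
    simp only
    unfold cs
    refine continuous_norm.comp (continuous_finsetSum _ fun a _ => continuous_const.mul ?_)
    exact hW.cont.comp (f := fun v : ℝ × ℝ × ℝ => (v.1, v.2.1 - 2 * lg a, v.2.2)) (by fun_prop)
  have hΨs : ∀ D, ∃ R2 : ℝ, ∀ y t u, Ψ D y t u ≠ 0 → |y| ≤ R2 ∧ |t| ≤ R2 ∧ |u| ≤ R2 := by
    intro D
    obtain ⟨L, hL0, hL⟩ := lg_bd D
    refine ⟨R1 + L, fun y t u h => ?_⟩
    obtain ⟨s, hs, hst⟩ := cs_ne hL h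
    obtain ⟨h1, h2, h3⟩ := hbox y s u hs
    exact ⟨by linarith, by linarith, by linarith⟩
  have hΨ0 : ∀ D y t u, (∀ s, W y s u = 0) → Ψ D y t u = 0 := by
    intro D y t u h
    rw [hΨ]
    simp only
    unfold cs
    rw [sum_eq_zero, norm_zero]
    intro a _
    simp only [h, mul_zero]
  have hTR : ∀ D, TR b (Ψ D) := by
    intro D
    obtain ⟨R2, hR2⟩ := hΨs D
    refine ⟨hΨc D, hcs3 _ R2 (fun y t u h => hR2 y t u h), ?_, ?_⟩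
    · intro y t u hy
      exact hΨ0 D y t u fun s => hW.lo y s u hy
    · intro y t u hy
      exact hΨ0 D y t u fun s => hW.hi y s u hy
  obtain ⟨T, hT⟩ := limT E g hg1 R hR0 hR1 hNP (fun v t => W v.1 t v.2)
    (hW.cont.comp (f := fun w : (ℝ × ℝ) × ℝ => (w.1.1, w.2, w.1.2)) (by fun_prop)) R1
    (fun y u t h => by
      obtain ⟨h1, h2, h3⟩ := hbox y t u h
      exact ⟨h1, h3, h2⟩) (h0.imp id fun h v => h v.1 v.2) κ ε hε
  have ht := htr E hE T Ψ b hTR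
  have hsum : ∑ D ∈ (PP E T).powerset, PrS E T D * ∫ y, ∫ t, ∫ u, Ψ D y t u =
      ∑ D ∈ (PP E T).powerset, PrS E T D * ∫ v : ℝ × ℝ, ∫ t, ‖cs g (fun t => W v.1 t v.2) D t‖ := by
    refine sum_congr rfl fun D _ => ?_
    obtain ⟨R2, hR2⟩ := hΨs D
    rw [ord_A (Ψ D) (hΨc D) R2 hR2]
  rw [hsum] at ht
  obtain ⟨X0, hX0⟩ := eventually_atTop.1 ((ht.eventually (gt_mem_nhds hT)).and (hΦ T))
  refine ⟨max X0 1, fun X hX => ?_⟩
  have hX1 : X0 ≤ X := (le_max_left _ _).trans hX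
  have hX2 : 0 < X := lt_of_lt_of_le one_pos ((le_max_right _ _).trans hX)
  obtain ⟨h3, hΦX⟩ := hX0 X hX1
  rw [dist_zero_right, norm_div, Complex.norm_real, Real.norm_eq_abs, abs_of_pos hX2]
  refine lt_of_le_of_lt ?_ h3
  refine div_le_div_of_nonneg_right ?_ hX2.le
  have h4 := cluTA n hn E hE g T (Φ X) hΦX (b * X) (fun y t u => W (y / X) t u)
  rw [h4]
  refine (norm_sum_le _ _).trans (sum_le_sum fun e _ => ?_)
  rw [norm_mul]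
  exact mul_le_of_le_one_left (norm_nonneg _) (hΦX.bd e)

/-- PROOF. Copy of `ctwB`. -/
theorem ctwTB (n : ℕ) (hn : 0 < n) (E : Finset ℕ) (hE : n.primeFactors ⊆ E) (g : ℕ → ℂ)
    (hg1 : ∀ p : ℕ, p.Prime → p ∉ E → ‖g p‖ = 1) (R : ℝ) (hR0 : 0 ≤ R) (hR1 : R ≤ 1) (hNP : NPS E g R)
    (Φ : ℝ → Q4 → ℂ) (hΦ : ∀ T : ℕ, ∀ᶠ X : ℝ in atTop, CmpTB n E T g (Φ X)) (b : ℝ) (W : ℝ → ℝ → ℝ → ℂ) (hW : TS b W)
    (h0 : R < 1 ∨ ∀ y t, (∫ u, W y t u) = 0) :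
    Tendsto (fun X : ℝ => (∑ e ∈ SN n (b * X), Φ X e * W (yS e / X) (tS e) (uS e)) / X) atTop (nhds 0) := by
  classical
  obtain ⟨κ, hκ, htr⟩ := trB n hn
  obtain ⟨R1, hR1pos, hbox⟩ := box hW.supp
  simp only at hbox
  rw [Metric.tendsto_atTop]
  intro ε hε
  set Ψ : Finset ℕ → ℝ → ℝ → ℝ → ℝ := fun D y t u => ‖cs g (fun u => W y t u) D u‖ with hΨ
  have hΨc : ∀ D, Continuous (fun v : ℝ × ℝ × ℝ => Ψ D v.1 v.2.1 v.2.2) := by
    intro D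
    rw [hΨ]
    simp only
    unfold cs
    refine continuous_norm.comp (continuous_finsetSum _ fun a _ => continuous_const.mul ?_)
    exact hW.cont.comp (f := fun v : ℝ × ℝ × ℝ => (v.1, v.2.1, v.2.2 - 2 * lg a)) (by fun_prop)
  have hΨs : ∀ D, ∃ R2 : ℝ, ∀ y t u, Ψ D y t u ≠ 0 → |y| ≤ R2 ∧ |t| ≤ R2 ∧ |u| ≤ R2 := by
    intro D
    obtain ⟨L, hL0, hL⟩ := lg_bd D
    refine ⟨R1 + L, fun y t u h => ?_⟩
    obtain ⟨s, hs, hst⟩ := cs_ne hL h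
    obtain ⟨h1, h2, h3⟩ := hbox y t s hs
    exact ⟨by linarith, by linarith, by linarith⟩
  have hΨ0 : ∀ D y t u, (∀ s, W y t s = 0) → Ψ D y t u = 0 := by
    intro D y t u h
    rw [hΨ]
    simp only
    unfold cs
    rw [sum_eq_zero, norm_zero]
    intro a _
    simp only [h, mul_zero]
  have hTR : ∀ D, TR b (Ψ D) := by
    intro D
    obtain ⟨R2, hR2⟩ := hΨs D
    refine ⟨hΨc D, hcs3 _ R2 (fun y t u h => hR2 y t u h), ?_, ?_⟩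
    · intro y t u hy
      exact hΨ0 D y t u fun s => hW.lo y t s hy
    · intro y t u hy
      exact hΨ0 D y t u fun s => hW.hi y t s hy
  obtain ⟨T, hT⟩ := limT E g hg1 R hR0 hR1 hNP (fun v u => W v.1 v.2 u)
    (hW.cont.comp (f := fun w : (ℝ × ℝ) × ℝ => (w.1.1, w.1.2, w.2)) (by fun_prop)) R1
    (fun y t u h => hbox y t u h) (h0.imp id fun h v => h v.1 v.2) κ ε hε
  have ht := htr E hE T Ψ b hTR
  have hsum : ∑ D ∈ (PP E T).powerset, PrS E T D * ∫ y, ∫ t, ∫ u, Ψ D y t u =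
      ∑ D ∈ (PP E T).powerset, PrS E T D * ∫ v : ℝ × ℝ, ∫ u, ‖cs g (fun u => W v.1 v.2 u) D u‖ := by
    refine sum_congr rfl fun D _ => ?_
    obtain ⟨R2, hR2⟩ := hΨs D
    rw [ord_B (Ψ D) (hΨc D) R2 hR2]
  rw [hsum] at ht
  obtain ⟨X0, hX0⟩ := eventually_atTop.1 ((ht.eventually (gt_mem_nhds hT)).and (hΦ T))
  refine ⟨max X0 1, fun X hX => ?_⟩
  have hX1 : X0 ≤ X := (le_max_left _ _).trans hX
  have hX2 : 0 < X := lt_of_lt_of_le one_pos ((le_max_right _ _).trans hX)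
  obtain ⟨h3, hΦX⟩ := hX0 X hX1
  rw [dist_zero_right, norm_div, Complex.norm_real, Real.norm_eq_abs, abs_of_pos hX2]
  refine lt_of_le_of_lt ?_ h3
  refine div_le_div_of_nonneg_right ?_ hX2.le
  have h4 := cluTB n hn E hE g T (Φ X) hΦX (b * X) (fun y t u => W (y / X) t u)
  rw [h4]
  refine (norm_sum_le _ _).trans (sum_le_sum fun e _ => ?_)
  rw [norm_mul]
  exact mul_le_of_le_one_left (norm_nonneg _) (hΦX.bd e)

end Pool.Agent.SplL
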