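import Pool.Agent.Lib_MP_92ef0c_sp.DSum3
import Pool.Agent.Lib_MP_92ef0c_la.LDefs

/-!
# The factor `n / φ(n)`
-/

set_option autoImplicit false

namespace Pool.Agent.SplL

open Finset Pool.Agent.Spl Pool.Agent.SplB Pool.Agent.GaussMR Pool.Agent.OmAll Pool.Agent.OmEq MeasureTheory Filter

theorem dsum4_Qs (h : ℝ → ℝ) (h1 h2 : ℝ) (hh : HF h h1 h2) :
    ∃ C : ℝ, 0 < C ∧ ∀ β : ℕ × ℕ → ℂ, (∀ z, ‖β z‖ ≤ 1) → ∀ n : ℕ, 0 < n → ∀ Y : ℝ, (n : ℝ) ≤ h2 * Y →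
      ‖Qs4 β n (h2 * Y) (Wh (fun y => h y ^ 2)) Y‖ ≤ C * (h2 * Y) := by
  classical
  obtain ⟨C, hC, hcnt⟩ := cnt3 1
  refine ⟨C, hC, fun β hβ n hn Y hY => ?_⟩
  refine le_trans ?_ (hcnt n hn (h2 * Y) hY)
  unfold Qs4
  have hterm : ∀ e : Q4, ‖R2 β (cjr β) e * Wh (fun y => h y ^ 2) (yS e / Y) (tS e) (uS e)‖ ≤
      if |tS e| ≤ 1 ∧ |uS e| ≤ 1 then 1 else 0 := by
    intro e
    unfold Wh
    rw [norm_mul, Complex.norm_real, Real.norm_eq_abs]
    have hc : ∀ z, ‖cjr β z‖ ≤ 1 := fun z => by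
      rw [norm_cjr]
      exact hβ z
    have a5 : ‖R2 β (cjr β) e‖ ≤ 1 := norm_R2_le hβ hc e
    have a3 := hh.nn (yS e / Y)
    have a4 := hh.le (yS e / Y)
    obtain ⟨p1, p2, p3⟩ := dsum3_ps0 (tS e)
    obtain ⟨q1, q2, q3⟩ := dsum3_ps0 (uS e)
    by_cases ht : |tS e| ≤ 1 ∧ |uS e| ≤ 1
    · rw [if_pos ht]
      have a8 : h (yS e / Y) ^ 2 ≤ 1 := pow_le_one₀ a3 a4
      have a9 : h (yS e / Y) ^ 2 * ps0 (tS e) * ps0 (uS e) ≤ 1 :=
        mul_le_one₀ (mul_le_one₀ a8 p1 p2) q1 q2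
      rw [abs_of_nonneg (by positivity)]
      exact mul_le_one₀ a5 (by positivity) a9
    · rw [if_neg ht]
      rcases not_and_or.1 ht with ht' | ht'
      · rw [p3 (not_le.1 ht'), mul_zero, zero_mul, abs_zero, mul_zero]
      · rw [q3 (not_le.1 ht'), mul_zero, abs_zero, mul_zero]
  calc ‖∑ e ∈ SN n (h2 * Y), R2 β (cjr β) e * Wh (fun y => h y ^ 2) (yS e / Y) (tS e) (uS e)‖
      ≤ ∑ e ∈ SN n (h2 * Y), (if |tS e| ≤ 1 ∧ |uS e| ≤ 1 then (1 : ℝ) else 0) :=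
        norm_sum_le_of_le _ (fun e _ => hterm e)
    _ = (((SN n (h2 * Y)).filter (fun e => |tS e| ≤ 1 ∧ |uS e| ≤ 1)).card : ℝ) := by
        rw [← Finset.sum_filter, Finset.sum_const, nsmul_eq_mul, mul_one]

/-- PROOF. Copy of `dsum3` (`Lib_MP_92ef0c_sp/DSum3.lean`), with `Qs4` and the family at `a Y`; `N0` does not depend on `a`, only the threshold for `Y` does. -/
theorem dsum4 (β : ℝ → ℕ × ℕ → ℂ) (hβ : ∀ X z, ‖β X z‖ ≤ 1) (hQ : QdSmall4 β) (h0 Q : ℕ) (hh0 : 0 < h0) (hQ0 : 0 < Q) :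
    QSmall4 h0 Q β := by
  classical
  intro h h1 h2 hh ε hε
  obtain ⟨C, hC, hCQ⟩ := dsum4_Qs h h1 h2 hh
  have h2one : (1 : ℝ) ≤ h2 := hh.one
  have h2pos : 0 < h2 := by linarith
  have hh0R : (0 : ℝ) < h0 := by exact_mod_cast hh0
  obtain ⟨-, hw0, hw1, -⟩ := ww_props
  -- the tail
  have hε' : 0 < ε / (2 * C * h2) := by positivity
  obtain ⟨s, hs⟩ := summable_iff_vanishing_norm.mp dsumC_summable _ hε'
  set K : ℕ := s.sup id with hK
  have htail : ∀ N : ℕ, ∑ d ∈ (Icc 1 N).filter (fun d => K < d), dsumC d / d ≤ ε / (2 * C * h2) := by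
    intro N
    have hd : Disjoint ((Icc 1 N).filter (fun d => K < d)) s := by
      rw [Finset.disjoint_left]
      intro d hd hds
      have h3 := (mem_filter.mp hd).2
      have h4 : d ≤ K := Finset.le_sup (f := id) hds
      omega
    exact (le_abs_self _).trans (hs _ hd).le
  set SK : ℝ := ∑ d ∈ Icc 1 K, dsumC d with hSK
  have hSK0 : 0 ≤ SK := Finset.sum_nonneg (fun d _ => dsumC_nonneg d)
  set ε2 : ℝ := ε / (2 * (SK + 1)) with hε2
  have hε2pos : 0 < ε2 := by positivity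
  have hex : ∀ d : ℕ, ∃ N0 : ℕ, 1 ≤ d → ∀ N : ℕ, N0 ≤ N →
    ∀ a : ℝ, 0 < a → ∀ᶠ Y : ℝ in atTop, ‖∑ n ∈ (Icc 1 N).filter (fun n => Q ∣ n ∧ d ∣ n), ((ww ((n : ℝ) / N) : ℝ) : ℂ) *
      Qs4 (β (a * Y)) (n * h0) (h2 * Y) (Wh (fun y => h y ^ 2)) Y‖ ≤ ε2 * N * Y := by
    intro d
    by_cases hd : 1 ≤ d
    · have hD : 1 ≤ Nat.lcm Q d * h0 := Nat.mul_pos (Nat.lcm_pos hQ0 hd) hh0
      obtain ⟨N0, hN0⟩ := hQ (Nat.lcm Q d * h0) hD h h1 h2 hh (ε2 / h0) (by positivity)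
      refine ⟨N0, fun _ N hN a ha => ?_⟩
      have hN' : N0 ≤ N * h0 := le_trans hN (Nat.le_mul_of_pos_right N hh0)
      filter_upwards [hN0 (N * h0) hN' a ha] with Y hY
      have e1 : (Icc 1 N).filter (fun n => Q ∣ n ∧ d ∣ n) = (Icc 1 N).filter (fun n => Nat.lcm Q d ∣ n) := by
        refine Finset.filter_congr (fun n _ => ?_)
        exact Nat.lcm_dvd_iff.symm
      have e2 : ∑ n ∈ (Icc 1 N).filter (fun n => Q ∣ n ∧ d ∣ n), ((ww ((n : ℝ) / N) : ℝ) : ℂ) *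
          Qs4 (β (a * Y)) (n * h0) (h2 * Y) (Wh (fun y => h y ^ 2)) Y =
          ∑ m ∈ (Icc 1 (N * h0)).filter (fun m => Nat.lcm Q d * h0 ∣ m), ((ww ((m : ℝ) / (N * h0 : ℕ)) : ℝ) : ℂ) *
          Qs4 (β (a * Y)) m (h2 * Y) (Wh (fun y => h y ^ 2)) Y := by
        rw [e1, ← dsum3_scale (fun m => ((ww ((m : ℝ) / (N * h0 : ℕ)) : ℝ) : ℂ) *
          Qs4 (β (a * Y)) m (h2 * Y) (Wh (fun y => h y ^ 2)) Y) N (Nat.lcm Q d) h0 hh0]
        refine Finset.sum_congr rfl (fun n _ => ?_)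
        have e3 : ((n * h0 : ℕ) : ℝ) / ((N * h0 : ℕ) : ℝ) = (n : ℝ) / N := by
          push_cast
          rw [mul_div_mul_right _ _ hh0R.ne']
        simp only [e3]
      rw [e2]
      refine hY.trans (le_of_eq ?_)
      push_cast
      field_simp
    · exact ⟨0, fun h => absurd h hd⟩
  choose N0 hN0 using hex
  refine ⟨(Icc 1 K).sup N0, fun N hN a ha => ?_⟩
  have hsmall : ∀ᶠ Y : ℝ in atTop, ∀ d ∈ Icc 1 K, ‖∑ n ∈ (Icc 1 N).filter (fun n => Q ∣ n ∧ d ∣ n),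
      ((ww ((n : ℝ) / N) : ℝ) : ℂ) * Qs4 (β (a * Y)) (n * h0) (h2 * Y) (Wh (fun y => h y ^ 2)) Y‖ ≤ ε2 * N * Y := by
    rw [Filter.eventually_all_finset]
    intro d hd
    exact hN0 d (mem_Icc.mp hd).1 N (le_trans (Finset.le_sup hd) hN) a ha
  filter_upwards [hsmall, eventually_ge_atTop ((N : ℝ) * h0), eventually_gt_atTop (0 : ℝ)] with Y hY hYN hY0
  set q : ℕ → ℂ := fun n => Qs4 (β (a * Y)) (n * h0) (h2 * Y) (Wh (fun y => h y ^ 2)) Y with hqdef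
  set Z : ℕ → ℂ := fun d => ∑ n ∈ (Icc 1 N).filter (fun n => Q ∣ n ∧ d ∣ n), ((ww ((n : ℝ) / N) : ℝ) : ℂ) * q n
    with hZ
  have hQb : ∀ n ∈ Icc 1 N, ‖q n‖ ≤ C * (h2 * Y) := by
    intro n hn
    obtain ⟨hn1, hn2⟩ := mem_Icc.mp hn
    refine hCQ (β (a * Y)) (hβ (a * Y)) (n * h0) (Nat.mul_pos hn1 hh0) Y ?_
    have e1 : (n : ℝ) ≤ N := by exact_mod_cast hn2
    push_cast
    have e2 : (n : ℝ) * h0 ≤ N * h0 := mul_le_mul_of_nonneg_right e1 hh0R.le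
    nlinarith
  have hZb : ∀ d ∈ Icc 1 N, ‖Z d‖ ≤ (N / d : ℝ) * (C * (h2 * Y)) := by
    intro d hd
    have hd1 := (mem_Icc.mp hd).1
    have hcard : (((Icc 1 N).filter (fun n => Q ∣ n ∧ d ∣ n)).card : ℝ) ≤ (N / d : ℝ) := by
      have e0 : ((Icc 1 N).filter (fun n => Q ∣ n ∧ d ∣ n)).card ≤ ((Icc 1 N).filter (fun n => d ∣ n)).card := by
        refine Finset.card_le_card (fun n hn => ?_)
        obtain ⟨k1, k2⟩ := mem_filter.1 hn
        exact mem_filter.2 ⟨k1, k2.2⟩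
      have e1 : Icc 1 N = Ioc 0 N := by
        ext x
        rw [mem_Icc, mem_Ioc]
        omega
      have e2 : (((Icc 1 N).filter (fun n => d ∣ n)).card : ℝ) ≤ (N / d : ℝ) := by
        rw [e1, Nat.Ioc_filter_dvd_card_eq_div]
        exact Nat.cast_div_le
      exact le_trans (by exact_mod_cast e0) e2
    calc ‖Z d‖ ≤ ∑ n ∈ (Icc 1 N).filter (fun n => Q ∣ n ∧ d ∣ n), (C * (h2 * Y)) := by
          refine norm_sum_le_of_le _ (fun n hn => ?_)
          rw [norm_mul, Complex.norm_real, Real.norm_eq_abs]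
          have k2 := hw0 ((n : ℝ) / N)
          have k3 := hw1 ((n : ℝ) / N)
          rw [abs_of_nonneg k2]
          calc ww ((n : ℝ) / N) * ‖q n‖ ≤ 1 * (C * (h2 * Y)) :=
                mul_le_mul k3 (hQb n (mem_filter.mp hn).1) (norm_nonneg _) (by norm_num)
            _ = C * (h2 * Y) := one_mul _
      _ = (((Icc 1 N).filter (fun n => Q ∣ n ∧ d ∣ n)).card : ℝ) * (C * (h2 * Y)) := by
          rw [Finset.sum_const, nsmul_eq_mul]
      _ ≤ _ := mul_le_mul_of_nonneg_right hcard (by positivity)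
  have hexch : ∑ n ∈ (Icc 1 N).filter (fun n => Q ∣ n), (((n / n.totient) * ww ((n : ℝ) / N) : ℝ) : ℂ) * q n =
      ∑ d ∈ Icc 1 N, (dsumC d : ℂ) * Z d := by
    have e1 : ∀ n ∈ (Icc 1 N).filter (fun n => Q ∣ n), (((n / n.totient) * ww ((n : ℝ) / N) : ℝ) : ℂ) * q n =
        ∑ d ∈ Icc 1 N, (if d ∣ n then (dsumC d : ℂ) * (((ww ((n : ℝ) / N) : ℝ) : ℂ) * q n) else 0) := by
      intro n hn
      obtain ⟨hn1, hn2⟩ := mem_Icc.mp (mem_filter.1 hn).1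
      have e2 : n.divisors = (Icc 1 N).filter (fun d => d ∣ n) := by
        ext d
        rw [Nat.mem_divisors, mem_filter, mem_Icc]
        constructor
        · rintro ⟨h3, h4⟩
          have h5 := Nat.le_of_dvd hn1 h3
          have h6 := Nat.pos_of_dvd_of_pos h3 hn1
          exact ⟨⟨h6, by omega⟩, h3⟩
        · rintro ⟨_, h3⟩
          exact ⟨h3, by omega⟩
      rw [dsum_eq n hn1, ← Finset.sum_filter, ← e2, ← Finset.sum_mul]
      push_cast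
      ring
    rw [Finset.sum_congr rfl e1, Finset.sum_comm]
    refine Finset.sum_congr rfl (fun d _ => ?_)
    rw [← Finset.sum_filter, ← Finset.mul_sum, Finset.filter_filter]
  rw [hexch]
  have hsplit : ∑ d ∈ Icc 1 N, dsumC d * ‖Z d‖ =
      ∑ d ∈ (Icc 1 N).filter (fun d => d ≤ K), dsumC d * ‖Z d‖ +
      ∑ d ∈ (Icc 1 N).filter (fun d => K < d), dsumC d * ‖Z d‖ := by
    rw [← Finset.sum_filter_add_sum_filter_not (Icc 1 N) (fun d => d ≤ K)]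
    congr 1
    refine Finset.sum_congr (Finset.filter_congr (fun d _ => ?_)) (fun d _ => rfl)
    exact not_le
  have hpart1 : ∑ d ∈ (Icc 1 N).filter (fun d => d ≤ K), dsumC d * ‖Z d‖ ≤ ε / 2 * N * Y := by
    calc ∑ d ∈ (Icc 1 N).filter (fun d => d ≤ K), dsumC d * ‖Z d‖
        ≤ ∑ d ∈ (Icc 1 N).filter (fun d => d ≤ K), dsumC d * (ε2 * N * Y) := by
          refine Finset.sum_le_sum (fun d hd => ?_)
          obtain ⟨hd1, hd2⟩ := mem_filter.mp hd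
          exact mul_le_mul_of_nonneg_left (hY d (mem_Icc.mpr ⟨(mem_Icc.mp hd1).1, hd2⟩)) (dsumC_nonneg d)
      _ ≤ ∑ d ∈ Icc 1 K, dsumC d * (ε2 * N * Y) := by
          refine Finset.sum_le_sum_of_subset_of_nonneg ?_ (fun d _ _ => ?_)
          · intro d hd
            obtain ⟨hd1, hd2⟩ := mem_filter.mp hd
            exact mem_Icc.mpr ⟨(mem_Icc.mp hd1).1, hd2⟩
          · have := dsumC_nonneg d
            positivity
      _ = SK * (ε2 * N * Y) := by rw [← Finset.sum_mul]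
      _ ≤ (SK + 1) * (ε2 * N * Y) := mul_le_mul_of_nonneg_right (by linarith) (by positivity)
      _ = ε / 2 * N * Y := by
          rw [hε2]
          field_simp
  have hpart2 : ∑ d ∈ (Icc 1 N).filter (fun d => K < d), dsumC d * ‖Z d‖ ≤ ε / 2 * N * Y := by
    calc ∑ d ∈ (Icc 1 N).filter (fun d => K < d), dsumC d * ‖Z d‖
        ≤ ∑ d ∈ (Icc 1 N).filter (fun d => K < d), (dsumC d / d) * (C * h2 * N * Y) := by
          refine Finset.sum_le_sum (fun d hd => ?_)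
          have h3 := hZb d (mem_filter.mp hd).1
          calc dsumC d * ‖Z d‖ ≤ dsumC d * ((N / d : ℝ) * (C * (h2 * Y))) :=
                mul_le_mul_of_nonneg_left h3 (dsumC_nonneg d)
            _ = (dsumC d / d) * (C * h2 * N * Y) := by ring
      _ = (∑ d ∈ (Icc 1 N).filter (fun d => K < d), dsumC d / d) * (C * h2 * N * Y) := by
          rw [← Finset.sum_mul]
      _ ≤ (ε / (2 * C * h2)) * (C * h2 * N * Y) :=
          mul_le_mul_of_nonneg_right (htail N) (by positivity)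
      _ = ε / 2 * N * Y := by
          field_simp
  calc ‖∑ d ∈ Icc 1 N, (dsumC d : ℂ) * Z d‖ ≤ ∑ d ∈ Icc 1 N, dsumC d * ‖Z d‖ := by
        refine norm_sum_le_of_le _ (fun d _ => ?_)
        rw [norm_mul, Complex.norm_real, Real.norm_eq_abs, abs_of_nonneg (dsumC_nonneg d)]
    _ ≤ ε * N * Y := by
        rw [hsplit]
        linarith

end Pool.Agent.SplL
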