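import Pool.Agent.Lib_MP_92ef0c_sp.Q4

/-!
# The four entries
-/

set_option autoImplicit false

namespace Pool.Agent.SplL

open Pool.Agent.Spl

/-- the entries -/
def ent (i : Fin 4) (e : Q4) : ℕ := (![e.a, e.b, e.c, e.d] : Fin 4 → ℕ) i

end Pool.Agent.SplL
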