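import Pool.Agent.Lib_MP_92ef0c_la.Law4
import Pool.Agent.Lib_MP_92ef0c_sp.Fin4H

/-!
# The joint law over the factorisations `n = b c`, `n + h = a d`
-/

set_option autoImplicit false

namespace Pool.Agent.SplL

open Finset Pool.Agent.Spl Pool.Agent.SplB Pool.Agent.GaussMR Pool.Agent.OmAll Pool.Agent.OmEq Pool.Agent.LPr
  MeasureTheory Filter

/-- a common lower bound -/
theorem exists_low (u : ℕ → ℝ) (r : ℕ) (h : ∀ i < r, 0 < u i) : ∃ u0 : ℝ, 0 < u0 ∧ ∀ i < r, u0 ≤ u i := by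
  induction r with
  | zero => exact ⟨1, one_pos, fun i hi => absurd hi (Nat.not_lt_zero _)⟩
  | succ r ih =>
    obtain ⟨u0, h0, h1⟩ := ih (fun i hi => h i (by omega))
    refine ⟨min u0 (u r), lt_min h0 (h r (by omega)), fun i hi => ?_⟩
    rcases Nat.lt_succ_iff_lt_or_eq.1 hi with h2 | h2
    · exact (min_le_left _ _).trans (h1 i h2)
    · rw [h2]
      exact min_le_right _ _

/-- common parameters -/
theorem exists_par (r : Fin 4 → ℕ) (u : Fin 4 → ℕ → ℝ) (k : Fin 4 → ℕ → ℕ) (h : ∀ i, ∀ j < r i, 0 < u i j) :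
    ∃ (u0 : ℝ) (K : ℕ), 0 < u0 ∧ 3 < K * u0 ∧ (∀ i, ∀ j < r i, u0 ≤ u i j) ∧ ∀ i, ∀ j < r i, k i j < K := by
  choose w hw hw' using fun i => exists_low (u i) (r i) (h i)
  obtain ⟨i0, hi0⟩ := Finite.exists_min w
  refine ⟨w i0, ⌊3 / w i0⌋₊ + ∑ i, ∑ j ∈ range (r i), k i j + 1, hw i0, ?_, fun i j hj => (hi0 i).trans (hw' i j hj), ?_⟩
  · have h1 : 3 / w i0 < ⌊3 / w i0⌋₊ + 1 := Nat.lt_floor_add_one _
    rw [div_lt_iff₀ (hw i0)] at h1
    push_cast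
    have h2 : (0 : ℝ) ≤ ∑ i, ∑ j ∈ range (r i), (k i j : ℝ) := by positivity
    have h3 := mul_nonneg h2 (hw i0).le
    nlinarith
  · intro i j hj
    have h1 : k i j ≤ ∑ j ∈ range (r i), k i j :=
      single_le_sum (f := fun j => k i j) (fun _ _ => Nat.zero_le _) (mem_range.2 hj)
    have h2 : ∑ j ∈ range (r i), k i j ≤ ∑ i, ∑ j ∈ range (r i), k i j :=
      single_le_sum (f := fun i => ∑ j ∈ range (r i), k i j) (fun _ _ => Nat.zero_le _) (mem_univ i)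
    omega

/-- the joint law -/
theorem fac_law4 (B : BS) (h k n0 : ℕ) (hh : 0 < h) (hk : 0 < k) (h1 : n0.Coprime k) (h2 : (n0 + h).Coprime k) :
    ∃ κ : ℝ, 0 < κ ∧ ∀ α β γ δ : ℝ, 0 < α → α ≤ β → 0 < γ → γ ≤ δ →
      Tendsto (fun x : ℝ => ((WS h k n0 α β γ δ x).ncard : ℝ) / x) atTop
        (nhds (κ * (Real.log (β / α) * Real.log (δ / γ)))) ∧
      ∀ (r : Fin 4 → ℕ) (u v : Fin 4 → ℕ → ℝ) (l : Fin 4 → ℕ → ℕ), (∀ i, ∀ j < r i, 0 < u i j ∧ u i j ≤ v i j) →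
        ∃ c : Fin 4 → ℝ, (∀ i, Tendsto (fun y : ℝ => (Set.ncard {n : ℕ | 1 ≤ n ∧ (n : ℝ) ≤ y ∧
          ∀ j < r i, wc y (u i j) (v i j) n = l i j} : ℝ) / y) atTop (nhds (c i))) ∧
        ∀ q : ℕ, 0 < q → ∀ s : Fin 4 → ℕ,
        Tendsto (fun x : ℝ => ({e : Q4 | e ∈ WS h k n0 α β γ δ x ∧ PC q s r u v l x e}.ncard : ℝ) / x)
          atTop (nhds (κ * (Real.log (β / α) * Real.log (δ / γ)) * (∏ i, c i) / (q : ℝ) ^ 4)) := by
  classical
  have hex : ∀ m : ℕ, ∃ κ : ℝ, m ∈ CS h k n0 → (0 < κ ∧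
      (∀ t1 t2 u1 u2 : ℝ, t1 ≤ t2 → u1 ≤ u2 → Tendsto (fun X : ℝ => ((Spl.SW h (k * h) m t1 t2 u1 u2 X).card : ℝ) / X) atTop
        (nhds (κ * ((t2 - t1) * (u2 - u1))))) ∧
      ∀ (q K : ℕ) (u0 : ℝ) (r : Fin 4 → ℕ) (u v : Fin 4 → ℕ → ℝ) (k' : Fin 4 → ℕ → ℕ) (c : Fin 4 → ℝ), 0 < q → 0 < u0 →
      (∀ i, ∀ j < r i, u0 ≤ u i j ∧ u i j ≤ v i j) → 3 < K * u0 → (∀ i, ∀ j < r i, k' i j < K) →
      (∀ i, (c i : ℂ) = cG K (u i) (v i) (r i) (k' i)) → ∀ s : Fin 4 → ℕ, ∀ t1 t2 u1 u2 : ℝ, t1 ≤ t2 → u1 ≤ u2 →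
      Tendsto (fun X : ℝ => (((Spl.SW h (k * h) m t1 t2 u1 u2 X).filter (PC q s r u v k' X)).card : ℝ) / X) atTop
        (nhds (κ * ((t2 - t1) * (u2 - u1)) * (∏ i, c i) / (q : ℝ) ^ 4))) := by
    intro m
    by_cases hm : m ∈ CS h k n0
    · obtain ⟨κ, hκ⟩ := law4 B h (k * h) m (hq_of_mem hh hk h1 h2 hm)
      exact ⟨κ, fun _ => hκ⟩
    · exact ⟨0, fun h3 => absurd h3 hm⟩
  choose κ hκ using hex
  refine ⟨∑ m ∈ CS h k n0, κ m, sum_pos (fun m hm => (hκ m hm).1) (cs_nonempty hh hk h1), ?_⟩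
  intro α β γ δ hα hαβ hγ hγδ
  have hβ : 0 < β := hα.trans_le hαβ
  have hδ : 0 < δ := hγ.trans_le hγδ
  have ht : Real.log α ≤ Real.log β := Real.log_le_log hα hαβ
  have hu : Real.log γ ≤ Real.log δ := Real.log_le_log hγ hγδ
  have hl : (Real.log (β / α) * Real.log (δ / γ)) = (Real.log β - Real.log α) * (Real.log δ - Real.log γ) := by
    rw [Real.log_div hβ.ne' hα.ne', Real.log_div hδ.ne' hγ.ne']
  rw [hl]
  refine ⟨?_, fun r u v l huv => ?_⟩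
  · have h3 : Tendsto (fun x : ℝ => ∑ m ∈ CS h k n0,
        ((Spl.SW h (k * h) m (Real.log α) (Real.log β) (Real.log γ) (Real.log δ) x).card : ℝ) / x) atTop
        (nhds (∑ m ∈ CS h k n0, κ m * ((Real.log β - Real.log α) * (Real.log δ - Real.log γ)))) := by
      apply tendsto_finsetSum
      intro m hm
      exact (hκ m hm).2.1 _ _ _ _ ht hu
    rw [← sum_mul] at h3
    refine h3.congr (fun x => ?_)
    have h4 := ncard_WS h k n0 hh hk h1 h2 α β γ δ hα hβ hγ hδ x (fun _ => True)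
    simp only [and_true, filter_true] at h4
    rw [show {e : Q4 | e ∈ WS h k n0 α β γ δ x} = WS h k n0 α β γ δ x from rfl] at h4
    rw [h4]
    push_cast
    rw [sum_div]
  · obtain ⟨u0, K, hu0, hKu, hur, hlK⟩ := exists_par r u l (fun i j hj => (huv i j hj).1)
    have hur' : ∀ i, ∀ j < r i, u0 ≤ u i j ∧ u i j ≤ v i j := fun i j hj => ⟨hur i j hj, (huv i j hj).2⟩
    choose c hc hc1 using fun i => int_lawG K u0 hu0 (u i) (v i) (r i) (hur' i) hKu (l i) (hlK i)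
    refine ⟨c, hc1, fun q hq s => ?_⟩
    have h3 : Tendsto (fun x : ℝ => ∑ m ∈ CS h k n0,
        (((Spl.SW h (k * h) m (Real.log α) (Real.log β) (Real.log γ) (Real.log δ) x).filter
          (PC q s r u v l x)).card : ℝ) / x) atTop
        (nhds (∑ m ∈ CS h k n0, κ m * ((Real.log β - Real.log α) * (Real.log δ - Real.log γ)) * (∏ i, c i) /
          (q : ℝ) ^ 4)) := by
      apply tendsto_finsetSum
      intro m hm
      exact (hκ m hm).2.2 q K u0 r u v l c hq hu0 hur' hKu hlK hc s _ _ _ _ ht hu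
    rw [← sum_div, ← sum_mul, ← sum_mul] at h3
    refine h3.congr (fun x => ?_)
    have h4 := ncard_WS h k n0 hh hk h1 h2 α β γ δ hα hβ hγ hδ x (PC q s r u v l x)
    rw [h4]
    push_cast
    rw [sum_div]

end Pool.Agent.SplL
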