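import Pool.Agent.Lib_MP_f1a94e_lp.IntM
import Pool.Agent.Lib_MP_f1a94e_lp.Fx
import Pool.Agent.Lib_MP_92ef0c_la.BHyp
import Pool.Agent.Lib_MP_92ef0c_lb.MVal2

/-!
# The family of the joint law and its mean values
-/

set_option autoImplicit false

namespace Pool.Agent.SplL

open Finset Pool.Agent.Spl Pool.Agent.SplB Pool.Agent.GaussMR Pool.Agent.OmAll Pool.Agent.OmEq Pool.Agent.LPr
  MeasureTheory Filter

/-- the family, relative to the square root of the scale -/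
noncomputable def fxr (Q : ℕ) (w : ℂ) (φ : ℝ → ℂ) (Y : ℝ) (n : ℕ) : ℂ := fx Q w φ (Real.sqrt Y) n

theorem fx_norm_le (R : ℕ) (w : ℂ) (hw : ‖w‖ = 1) (φ : ℝ → ℂ) (hφ : ∀ t, ‖φ t‖ = 1) (X : ℝ) (n : ℕ) :
    ‖fx R w φ X n‖ ≤ 1 := by
  unfold fx
  split_ifs
  · rw [norm_zero]
    exact zero_le_one
  · rw [norm_mul, norm_pow, hw, one_pow, gx_norm φ hφ, one_mul]

theorem fx_one (R : ℕ) (w : ℂ) (φ : ℝ → ℂ) (X : ℝ) : fx R w φ X 1 = 1 := by
  unfold fx gx
  simp

theorem fx_at_prime (R : ℕ) (w : ℂ) (φ : ℝ → ℂ) (X : ℝ) {p : ℕ} (hp : p.Prime) (h : ¬ p ∣ R) :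
    fx R w φ X p = w * φ (Real.log p / Real.log X) := by
  unfold fx
  have h1 : p.Coprime R := (Nat.Prime.coprime_iff_not_dvd hp).2 h
  rw [if_neg (by rintro (h' | h'); exacts [hp.ne_zero h', h' h1]), ArithmeticFunction.cardFactors_apply_prime hp,
    pow_one, gx_prime φ X hp]

/-- step functions are one near zero -/
theorem stepf_low (φ : ℝ → ℂ) (hφ : StepF φ) : ∃ δ : ℝ, 0 < δ ∧ ∀ t, t ≤ δ → φ t = 1 := by
  obtain ⟨r, c, u, v, huv, hex⟩ := hφ.ex
  have hδ : ∃ δ : ℝ, 0 < δ ∧ ∀ i, δ ≤ u i := by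
    rcases isEmpty_or_nonempty (Fin r) with h | h
    · exact ⟨1, one_pos, fun i => h.elim i⟩
    · obtain ⟨i0, hi0⟩ := Finite.exists_min u
      exact ⟨u i0, (huv i0).1, hi0⟩
  obtain ⟨δ, hδ, hδu⟩ := hδ
  refine ⟨δ, hδ, fun t ht => ?_⟩
  rw [hex, sum_eq_zero, add_zero]
  intro i _
  refine if_neg fun h => ?_
  linarith [h.1, hδu i]

theorem fs_fx (Q : ℕ) (w : ℂ) (hw : ‖w‖ = 1) (φ : ℝ → ℂ) (hφ : StepF φ) : FS Q w (fxr Q w φ) := by
  obtain ⟨δ, hδ, hδ1⟩ := stepf_low φ hφ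
  refine ⟨fun Y => fx_mul Q w φ _, fun Y => fx_norm_le Q w hw φ hφ.un _, fun Y => fx_one Q w φ _, fun Y p hp hd => ?_,
    ⟨δ / 2, by positivity, fun Y hY p hp hd hpY => ?_⟩⟩
  · unfold fxr fx
    exact if_pos (Or.inr fun h => (Nat.Prime.coprime_iff_not_dvd hp).1 h hd)
  · unfold fxr
    rw [fx_at_prime Q w φ _ hp hd]
    have hp1 : (1 : ℝ) < p := by exact_mod_cast hp.one_lt
    have hY1 : 1 < Y := by
      by_contra h
      have h1 : Y = 1 := le_antisymm (not_lt.1 h) hY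
      rw [h1, Real.one_rpow] at hpY
      linarith
    have hl : 0 < Real.log Y := Real.log_pos hY1
    have h2 : Real.log p ≤ δ / 2 * Real.log Y := by
      rw [← Real.log_rpow (by linarith)]
      exact Real.log_le_log (by linarith) hpY
    have h3 : Real.log (Real.sqrt Y) = Real.log Y / 2 := Real.log_sqrt (by linarith)
    have h4 : Real.log p / Real.log (Real.sqrt Y) ≤ δ := by
      rw [h3, div_le_iff₀ (by positivity)]
      linarith
    rw [hδ1 _ h4, mul_one]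

/-- mean values in reduced classes, `w = 1` -/
theorem mf_fx_one (B : BS) (Q : ℕ) (hQ : 0 < Q) (φ : ℝ → ℂ) (hφ : StepF φ) :
    Tendsto (mf Q (fxr Q 1 φ)) atTop (nhds (mu φ)) := by
  classical
  have hF := fs_fx 1 1 norm_one φ hφ
  -- the mean value without coprimality condition
  have h1 : Tendsto (mf 1 (fxr 1 1 φ)) atTop (nhds (mu φ)) := by
    have e1 := (mu_tendsto φ hφ).comp sqrt_atTop
    have e2 : Tendsto (fun Y : ℝ => (⌊Real.sqrt Y⌋₊ : ℝ) / Real.sqrt Y) atTop (nhds 1) :=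
      tendsto_nat_floor_div_atTop.comp sqrt_atTop
    have e3 : Tendsto (fun Y : ℝ => (((⌊Real.sqrt Y⌋₊ : ℝ) / Real.sqrt Y : ℝ) : ℂ)) atTop (nhds 1) := by
      have := (Complex.continuous_ofReal.tendsto (1 : ℝ)).comp e2
      rwa [Complex.ofReal_one] at this
    have e4 := e1.div e3 one_ne_zero
    rw [div_one] at e4
    refine e4.congr' ?_
    filter_upwards [eventually_gt_atTop (0 : ℝ)] with Y hY
    have hs : (Real.sqrt Y : ℂ) ≠ 0 := by
      exact_mod_cast (Real.sqrt_pos.2 hY).ne'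
    rw [Pi.div_apply, Function.comp_apply]
    unfold mf
    have g1 : ∑ n ∈ Icc 1 ⌊Real.sqrt Y⌋₊, f00 1 n = (⌊Real.sqrt Y⌋₊ : ℂ) := by
      have : ∀ n ∈ Icc 1 ⌊Real.sqrt Y⌋₊, f00 1 n = 1 := by
        intro n hn
        rw [mem_Icc] at hn
        exact f00_coprime (by omega) (Nat.coprime_one_right n)
      rw [sum_congr rfl this]
      simp
    have g2 : ∑ n ∈ Icc 1 ⌊Real.sqrt Y⌋₊, fxr 1 1 φ Y n = ∑ n ∈ Icc 1 ⌊Real.sqrt Y⌋₊, gx φ (Real.sqrt Y) n := by
      refine sum_congr rfl fun n hn => ?_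
      rw [mem_Icc] at hn
      unfold fxr fx
      rw [if_neg (by rintro (h | h); exacts [by omega, h (Nat.coprime_one_right n)]), one_pow, one_mul]
    rw [g1, g2]
    push_cast
    rw [div_div_div_cancel_right₀ hs]
  -- the classes modulo `Q`
  have h2 : Tendsto (fun Y : ℝ => (∑ n ∈ Icc 1 ⌊Real.sqrt Y⌋₊, (fxr Q 1 φ Y n - mf 1 (fxr 1 1 φ) Y * f00 Q n)) /
      Real.sqrt Y) atTop (nhds 0) := by
    have e1 : Tendsto (fun Y : ℝ => ∑ r ∈ (range Q).filter (fun r => r.Coprime Q),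
        (∑ n ∈ (Icc 1 ⌊1 * Real.sqrt Y⌋₊).filter (fun n => n ≡ r [MOD Q]),
        (fxr 1 1 φ Y n - mf 1 (fxr 1 1 φ) Y * f00 1 n)) / Real.sqrt Y) atTop (nhds 0) := by
      have := tendsto_finsetSum ((range Q).filter (fun r => r.Coprime Q)) fun r _ =>
        B.mf_prog 1 1 one_pos one_pos 1 (one_pow 1) (fxr 1 1 φ) hF Q hQ r 1 one_pos
      rwa [sum_const_zero] at this
    refine e1.congr fun Y => ?_
    rw [← sum_div]
    congr 1
    simp only [one_mul]
    have e2 : ∀ n ∈ Icc 1 ⌊Real.sqrt Y⌋₊, fxr Q 1 φ Y n - mf 1 (fxr 1 1 φ) Y * f00 Q n =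
        if n.Coprime Q then fxr 1 1 φ Y n - mf 1 (fxr 1 1 φ) Y * f00 1 n else 0 := by
      intro n hn
      rw [mem_Icc] at hn
      have hn0 : n ≠ 0 := by omega
      split_ifs with hc
      · rw [f00_coprime hn0 hc, f00_coprime hn0 (Nat.coprime_one_right n)]
        unfold fxr fx
        rw [if_neg (by rintro (h | h); exacts [hn0 h, h hc]),
          if_neg (by rintro (h | h); exacts [hn0 h, h (Nat.coprime_one_right n)])]
      · rw [f00_not hc]
        unfold fxr fx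
        rw [if_pos (Or.inr hc), mul_zero, sub_zero]
    rw [sum_congr rfl e2, ← sum_filter]
    have e3 : ∀ r ∈ (range Q).filter (fun r => r.Coprime Q),
        (Icc 1 ⌊Real.sqrt Y⌋₊).filter (fun n => n ≡ r [MOD Q]) =
        ((Icc 1 ⌊Real.sqrt Y⌋₊).filter (fun n => n.Coprime Q)).filter (fun n => n % Q = r) := by
      intro r hr
      rw [mem_filter, mem_range] at hr
      ext n
      simp only [mem_filter]
      have hr' : r % Q = r := Nat.mod_eq_of_lt hr.1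
      constructor
      · rintro ⟨k1, k2⟩
        refine ⟨⟨k1, ?_⟩, ?_⟩
        · unfold Nat.Coprime
          rw [Nat.ModEq.gcd_eq k2]
          exact hr.2
        · have := k2
          unfold Nat.ModEq at this
          rw [this, hr']
      · rintro ⟨⟨k1, k2⟩, k3⟩
        refine ⟨k1, ?_⟩
        unfold Nat.ModEq
        rw [k3, hr']
    rw [sum_congr rfl fun r hr => by rw [e3 r hr]]
    refine sum_fiberwise_of_maps_to ?_ _
    intro n hn
    rw [mem_filter] at hn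
    rw [mem_filter, mem_range]
    refine ⟨Nat.mod_lt n hQ, ?_⟩
    unfold Nat.Coprime
    rw [Nat.ModEq.gcd_eq (Nat.mod_modEq n Q)]
    exact hn.2
  -- conclusion
  obtain ⟨c, hc, hlow⟩ := f00_low hQ
  have h3 : Tendsto (fun Y : ℝ => mf Q (fxr Q 1 φ) Y - mf 1 (fxr 1 1 φ) Y) atTop (nhds 0) := by
    have h4 : Tendsto (fun Y : ℝ => (1 / c) * ‖(∑ n ∈ Icc 1 ⌊Real.sqrt Y⌋₊,
        (fxr Q 1 φ Y n - mf 1 (fxr 1 1 φ) Y * f00 Q n)) / (Real.sqrt Y : ℂ)‖) atTop (nhds 0) := by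
      have := (tendsto_norm_zero.comp h2).const_mul (1 / c)
      rwa [mul_zero] at this
    refine squeeze_zero_norm' ?_ h4
    filter_upwards [hlow, eventually_gt_atTop (0 : ℝ)] with Y hY hY0
    have hs := Real.sqrt_pos.2 hY0
    have hD : ∑ n ∈ Icc 1 ⌊Real.sqrt Y⌋₊, f00 Q n ≠ 0 := by
      intro h
      rw [h, norm_zero] at hY
      have : 0 < c * Real.sqrt Y := by positivity
      linarith
    have e1 : mf Q (fxr Q 1 φ) Y - mf 1 (fxr 1 1 φ) Y = (∑ n ∈ Icc 1 ⌊Real.sqrt Y⌋₊,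
        (fxr Q 1 φ Y n - mf 1 (fxr 1 1 φ) Y * f00 Q n)) / ∑ n ∈ Icc 1 ⌊Real.sqrt Y⌋₊, f00 Q n := by
      rw [sum_sub_distrib, ← mul_sum, sub_div, mul_div_assoc, div_self hD, mul_one]
      rfl
    rw [e1, norm_div, norm_div, Complex.norm_real, Real.norm_eq_abs, abs_of_pos hs, ← mul_div_assoc, one_div,
      inv_mul_eq_div, div_div]
    exact div_le_div_of_nonneg_left (norm_nonneg _) (by positivity) hY
  have h5 := h3.add h1
  rw [zero_add] at h5
  refine h5.congr fun Y => ?_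
  ring

/-- the mean values of the family -/
theorem mf_fx (B : BS) (q Q : ℕ) (hq : 0 < q) (hQ : 0 < Q) (w : ℂ) (hw : w ^ q = 1) (φ : ℝ → ℂ) (hφ : StepF φ) :
    Tendsto (mf Q (fxr Q w φ)) atTop (nhds (mm w φ)) := by
  have hn : ‖w‖ = 1 := Complex.norm_eq_one_of_pow_eq_one hw hq.ne'
  unfold mm
  split_ifs with h
  · rw [h]
    exact mf_fx_one B Q hQ φ hφ
  · exact B.mf_zero q Q hq hQ w hw h _ (fs_fx Q w hn φ hφ)

end Pool.Agent.SplL
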