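import Pool.Agent.Lib_MP_92ef0c_la.LDefs

/-!
# Linear combinations of row functions
-/

set_option autoImplicit false

namespace Pool.Agent.SplL

open Finset Pool.Agent.Spl Pool.Agent.SplB Pool.Agent.GaussMR Pool.Agent.OmAll Pool.Agent.OmEq MeasureTheory Filter

/-- bounded functions times functions tending to zero -/
theorem bdd_mul_zero {s F : ℝ → ℂ} {C : ℝ} (hs : ∀ X, ‖s X‖ ≤ C) (hF : Tendsto F atTop (nhds 0)) :
    Tendsto (fun X => s X * F X) atTop (nhds 0) := by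
  have h1 : Tendsto (fun X => C * ‖F X‖) atTop (nhds 0) := by
    have := (tendsto_norm_zero.comp hF).const_mul C
    rwa [mul_zero] at this
  refine squeeze_zero_norm (fun X => ?_) h1
  rw [norm_mul]
  exact mul_le_mul_of_nonneg_right (hs X) (norm_nonneg _)

/-- PROOF. `R2 α (s β1 + t β2) = s R2 α β1 + t R2 α β2`; bounded factors times functions tending to `0`. -/
theorem TVR.comb_right {α β1 β2 : ℝ → ℕ × ℕ → ℂ} (h1 : TVR α β1) (h2 : TVR α β2) (s t : ℝ → ℂ) (C : ℝ)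
    (hs : ∀ X, ‖s X‖ ≤ C) (ht : ∀ X, ‖t X‖ ≤ C) : TVR α (fun X z => s X * β1 X z + t X * β2 X z) := by
  intro a ha n M _ hn hM ψ hψ b W hW h0
  have e1 := bdd_mul_zero (s := fun X => s (a * X)) (C := C) (fun X => hs _) (h1 a ha n M hn hM ψ hψ b W hW h0)
  have e2 := bdd_mul_zero (s := fun X => t (a * X)) (C := C) (fun X => ht _) (h2 a ha n M hn hM ψ hψ b W hW h0)
  have e3 := e1.add e2
  rw [add_zero] at e3
  refine e3.congr fun X => ?_
  rw [← mul_div_assoc, ← mul_div_assoc, ← add_div, mul_sum, mul_sum, ← sum_add_distrib]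
  congr 1
  refine sum_congr rfl fun e _ => ?_
  unfold R2
  ring

theorem TVR.comb_left {α1 α2 β : ℝ → ℕ × ℕ → ℂ} (h1 : TVR α1 β) (h2 : TVR α2 β) (s t : ℝ → ℂ) (C : ℝ)
    (hs : ∀ X, ‖s X‖ ≤ C) (ht : ∀ X, ‖t X‖ ≤ C) : TVR (fun X z => s X * α1 X z + t X * α2 X z) β := by
  intro a ha n M _ hn hM ψ hψ b W hW h0
  have e1 := bdd_mul_zero (s := fun X => s (a * X)) (C := C) (fun X => hs _) (h1 a ha n M hn hM ψ hψ b W hW h0)
  have e2 := bdd_mul_zero (s := fun X => t (a * X)) (C := C) (fun X => ht _) (h2 a ha n M hn hM ψ hψ b W hW h0)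
  have e3 := e1.add e2
  rw [add_zero] at e3
  refine e3.congr fun X => ?_
  rw [← mul_div_assoc, ← mul_div_assoc, ← add_div, mul_sum, mul_sum, ← sum_add_distrib]
  congr 1
  refine sum_congr rfl fun e _ => ?_
  unfold R2
  ring

theorem CHR.comb_right {α β1 β2 : ℝ → ℕ × ℕ → ℂ} (h1 : CHR α β1) (h2 : CHR α β2) (s t : ℝ → ℂ) (C : ℝ)
    (hs : ∀ X, ‖s X‖ ≤ C) (ht : ∀ X, ‖t X‖ ≤ C) : CHR α (fun X z => s X * β1 X z + t X * β2 X z) := by
  intro a ha n M _ hn hM ψ hψ b W hW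
  have e1 := bdd_mul_zero (s := fun X => s (a * X)) (C := C) (fun X => hs _) (h1 a ha n M hn hM ψ hψ b W hW)
  have e2 := bdd_mul_zero (s := fun X => t (a * X)) (C := C) (fun X => ht _) (h2 a ha n M hn hM ψ hψ b W hW)
  have e3 := e1.add e2
  rw [add_zero] at e3
  refine e3.congr fun X => ?_
  rw [← mul_div_assoc, ← mul_div_assoc, ← add_div, mul_sum, mul_sum, ← sum_add_distrib]
  congr 1
  refine sum_congr rfl fun e _ => ?_
  unfold R2
  ring

theorem CHR.comb_left {α1 α2 β : ℝ → ℕ × ℕ → ℂ} (h1 : CHR α1 β) (h2 : CHR α2 β) (s t : ℝ → ℂ) (C : ℝ)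
    (hs : ∀ X, ‖s X‖ ≤ C) (ht : ∀ X, ‖t X‖ ≤ C) : CHR (fun X z => s X * α1 X z + t X * α2 X z) β := by
  intro a ha n M _ hn hM ψ hψ b W hW
  have e1 := bdd_mul_zero (s := fun X => s (a * X)) (C := C) (fun X => hs _) (h1 a ha n M hn hM ψ hψ b W hW)
  have e2 := bdd_mul_zero (s := fun X => t (a * X)) (C := C) (fun X => ht _) (h2 a ha n M hn hM ψ hψ b W hW)
  have e3 := e1.add e2
  rw [add_zero] at e3
  refine e3.congr fun X => ?_
  rw [← mul_div_assoc, ← mul_div_assoc, ← add_div, mul_sum, mul_sum, ← sum_add_distrib]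
  congr 1
  refine sum_congr rfl fun e _ => ?_
  unfold R2
  ring

/-- the integral in `MRG` is homogeneous (used with `s = 1 / 2`) -/
theorem MRG.smul {β : ℝ → ℕ × ℕ → ℂ} (h : MRG β) (s : ℂ) (hs : ‖s‖ ≤ 1) : MRG (fun X z => s * β X z) := by
  intro m hm b K hK ε hε
  obtain ⟨H0, hH0, h1⟩ := h m hm b K hK ε hε
  refine ⟨H0, hH0, fun H hH a ha => ?_⟩
  filter_upwards [h1 H hH a ha] with X hX
  have e1 : ∀ τ, ‖S2 (fun z => s * β (a * X) z) m b (Real.sqrt X) (K * Real.sqrt X) (H / X) τ‖ ^ 2 =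
      ‖s‖ ^ 2 * ‖S2 (β (a * X)) m b (Real.sqrt X) (K * Real.sqrt X) (H / X) τ‖ ^ 2 := by
    intro τ
    unfold S2
    rw [← mul_sum, norm_mul, mul_pow]
  simp only [e1]
  rw [integral_const_mul]
  have h2 : ‖s‖ ^ 2 ≤ 1 := pow_le_one₀ (norm_nonneg _) hs
  have h3 : 0 ≤ ∫ τ, ‖S2 (β (a * X)) m b (Real.sqrt X) (K * Real.sqrt X) (H / X) τ‖ ^ 2 :=
    integral_nonneg fun _ => by positivity
  exact (mul_le_of_le_one_left h3 h2).trans hX

/-- PROOF. `tvf` for the matrices of `SQ`: as `tvfQ` in `Lib_MP_92ef0c_sp/Tvf2.lean`, `M = Q`, `ψ x1 x2 x3 x4 = 1` if `x2 x3 = n0` in `ZMod Q`, else `0`. -/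
theorem TVR.sq {α β : ℝ → ℕ × ℕ → ℂ} (h : TVR α β) (h0 Q n0 : ℕ) (hQ : HQ h0 Q n0) (a : ℝ) (ha : 0 < a) (b : ℝ)
    (W : ℝ → ℝ → ℝ → ℂ) (hW : TS b W) (hz : ∀ y, (∫ t, ∫ u, W y t u) = 0) :
    Tendsto (fun X : ℝ => (∑ e ∈ SQ h0 Q n0 (b * X), R2 (α (a * X)) (β (a * X)) e *
      W (yS e / X) (tS e) (uS e)) / X) atTop (nhds 0) := by
  classical
  have : NeZero Q := ⟨hQ.posQ.ne'⟩
  have hsub : h0.primeFactors ⊆ Q.primeFactors := Nat.primeFactors_mono hQ.dvd hQ.posQ.ne'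
  have e1 := h a ha h0 Q hQ.pos hsub
    (fun _ x2 x3 _ => if x2 * x3 = (n0 : ZMod Q) then 1 else 0)
    (fun x1 x2 x3 x4 => by split_ifs <;> simp) b W hW hz
  refine e1.congr fun X => ?_
  congr 1
  unfold SQ
  rw [sum_filter]
  refine sum_congr rfl fun e _ => ?_
  have hiff : ((e.b : ZMod Q) * (e.c : ZMod Q) = (n0 : ZMod Q)) ↔ e.b * e.c ≡ n0 [MOD Q] := by
    rw [← Nat.cast_mul]
    exact ZMod.natCast_eq_natCast_iff _ _ _
  unfold cz
  beta_reduce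
  by_cases h : e.b * e.c ≡ n0 [MOD Q]
  · rw [if_pos h, if_pos (hiff.2 h), mul_one]
  · rw [if_neg h, if_neg (fun h' => h (hiff.1 h')), mul_zero, zero_mul]

end Pool.Agent.SplL
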