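import Pool.Agent.Lib_MP_92ef0c_sp.TSL
import Pool.Agent.Lib_MP_f1a94e_eq.RedB

/-!
# The difference of a test function and its integral times `ps0 t * ps0 u`
-/

set_option autoImplicit false

namespace Pool.Agent.SplL

open Finset Pool.Agent.Spl Pool.Agent.GaussMR Pool.Agent.OmAll Pool.Agent.OmEq MeasureTheory Filter

theorem z4_int1 {b : ℝ} {W : ℝ → ℝ → ℝ → ℂ} (hW : TS b W) (y t : ℝ) : Integrable (fun u => W y t u) := by
  obtain ⟨R, -, hR⟩ := hW.bdd
  have hc : Continuous (fun u => W y t u) :=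
    hW.cont.comp (Continuous.prodMk_right y |>.comp (Continuous.prodMk_right t))
  refine hc.integrable_of_hasCompactSupport (HasCompactSupport.intro (isCompact_Icc (a := -R) (b := R)) ?_)
  intro u hu
  by_contra hcon
  exact hu (abs_le.mp (hR y t u hcon).2.2)

theorem z4_int2 {b : ℝ} {W : ℝ → ℝ → ℝ → ℂ} (hW : TS b W) (y : ℝ) : Integrable (fun t => ∫ u, W y t u) := by
  obtain ⟨R, -, hR⟩ := hW.bdd
  have h1 : (fun t => ∫ u, W y t u) = fun t => ∫ u in Set.Icc (-R) R, W y t u := by
    funext t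
    rw [MeasureTheory.setIntegral_eq_integral_of_forall_compl_eq_zero]
    intro u hu
    by_contra hcon
    exact hu (abs_le.mp (hR y t u hcon).2.2)
  have hc : Continuous (fun t => ∫ u, W y t u) := by
    rw [h1]
    refine continuous_parametric_integral_of_continuous ?_ isCompact_Icc
    exact hW.cont.comp (Continuous.prodMk_right y)
  refine hc.integrable_of_hasCompactSupport (HasCompactSupport.intro (isCompact_Icc (a := -R) (b := R)) ?_)
  intro t ht
  have h2 : (fun u => W y t u) = fun _ => 0 := by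
    funext u
    by_contra hcon
    exact ht (abs_le.mp (hR y t u hcon).2.1)
  rw [h2, integral_zero]

theorem z4_ps0_intg : Integrable (fun t => ((ps0 t : ℝ) : ℂ)) := by
  have hc : Continuous (fun t => ((ps0 t : ℝ) : ℂ)) := Complex.continuous_ofReal.comp redb_ps0_cont
  refine hc.integrable_of_hasCompactSupport (HasCompactSupport.intro (isCompact_Icc (a := (-1 : ℝ)) (b := 1)) ?_)
  intro t ht
  have : ps0 t = 0 := by
    apply redb_ps0_zero
    by_contra hcon
    push Not at hcon
    exact ht (abs_le.mp hcon.le)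
  rw [this, Complex.ofReal_zero]

theorem z4_ps0_intC : (∫ t, ((ps0 t : ℝ) : ℂ)) = 1 := by
  rw [integral_complex_ofReal, redb_ps0_int, Complex.ofReal_one]

theorem z4_zero {b : ℝ} {W : ℝ → ℝ → ℝ → ℂ} (hW : TS b W) (y : ℝ) :
    (∫ t, ∫ u, (W y t u - (∫ t', ∫ u', W y t' u') * ((ps0 t * ps0 u : ℝ) : ℂ))) = 0 := by
  set c : ℂ := ∫ t', ∫ u', W y t' u' with hc
  have h1 : ∀ t, (∫ u, (W y t u - c * ((ps0 t * ps0 u : ℝ) : ℂ))) = (∫ u, W y t u) - c * ((ps0 t : ℝ) : ℂ) := by
    intro t
    have e1 : (fun u => W y t u - c * ((ps0 t * ps0 u : ℝ) : ℂ)) =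
        fun u => W y t u - (c * ((ps0 t : ℝ) : ℂ)) * ((ps0 u : ℝ) : ℂ) := by
      funext u
      push_cast
      ring
    rw [e1, integral_sub (z4_int1 hW y t) (z4_ps0_intg.const_mul _), integral_const_mul, z4_ps0_intC, mul_one]
  simp_rw [h1]
  rw [integral_sub (z4_int2 hW y) (z4_ps0_intg.const_mul _), integral_const_mul, z4_ps0_intC, mul_one, ← hc,
    sub_self]

end Pool.Agent.SplL
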