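import Pool.Agent.Lib_MP_92ef0c_la.Apx4
import Pool.Agent.Lib_MP_92ef0c_la.Cs4
import Pool.Agent.Lib_MP_92ef0c_la.LinR
import Pool.Agent.Lib_MP_92ef0c_la.Zero4
import Pool.Agent.Lib_MP_92ef0c_sp.Apx3
import Pool.Agent.Lib_MP_92ef0c_sp.ApxO3
import Pool.Agent.Lib_MP_92ef0c_sp.Cs3

/-!
# Small correlations of the second rows give small sums
-/

set_option autoImplicit false

namespace Pool.Agent.SplL

open Finset Pool.Agent.Spl Pool.Agent.SplB Pool.Agent.GaussMR Pool.Agent.OmAll Pool.Agent.OmEq MeasureTheory Filter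

open Classical in
/-- sums over matrices with small weights -/
theorem limh4_small {h0 Q n0 : ℕ} (hh0 : 0 < h0) {α β : ℕ × ℕ → ℂ} (hα : ∀ z, ‖α z‖ ≤ 1) (hβ : ∀ z, ‖β z‖ ≤ 1) {C : ℝ}
    (hcnt : ∀ n : ℕ, 0 < n → ∀ x : ℝ, (n : ℝ) ≤ x →
      (((SN n x).filter (fun e => |tS e| ≤ 1 ∧ |uS e| ≤ 1)).card : ℝ) ≤ C * x) (x : ℝ) (hx : (h0 : ℝ) ≤ x)
    (ε : ℝ) (hε : 0 ≤ ε) (w : Q4 → ℂ) (hw : ∀ e ∈ SQ h0 Q n0 x, ‖w e‖ ≤ ε) :
    ‖∑ e ∈ SQ h0 Q n0 x, R2 α β e * (w e * ((ps0 (tS e) * ps0 (uS e) : ℝ) : ℂ))‖ ≤ ε * (C * x) := by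
  have h1 : ‖∑ e ∈ SQ h0 Q n0 x, R2 α β e * (w e * ((ps0 (tS e) * ps0 (uS e) : ℝ) : ℂ))‖ ≤
      ∑ e ∈ SQ h0 Q n0 x, if |tS e| ≤ 1 ∧ |uS e| ≤ 1 then ε else 0 := by
    apply norm_sum_le_of_le
    intro e he
    by_cases ht : |tS e| ≤ 1 ∧ |uS e| ≤ 1
    · rw [if_pos ht, norm_mul, norm_mul, Complex.norm_real, Real.norm_eq_abs,
        abs_of_nonneg (mul_nonneg (limh_ps0_nonneg _) (limh_ps0_nonneg _))]
      have h2 : ‖R2 α β e‖ ≤ 1 := norm_R2_le hα hβ e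
      have h4 := hw e he
      have h5 : ps0 (tS e) * ps0 (uS e) ≤ 1 := mul_le_one₀ (limh_ps0_le _) (limh_ps0_nonneg _) (limh_ps0_le _)
      have h6 : 0 ≤ ps0 (tS e) * ps0 (uS e) := mul_nonneg (limh_ps0_nonneg _) (limh_ps0_nonneg _)
      calc ‖R2 α β e‖ * (‖w e‖ * (ps0 (tS e) * ps0 (uS e))) ≤ 1 * (ε * 1) := by gcongr
        _ = ε := by ring
    · rw [if_neg ht]
      have h2 : ps0 (tS e) * ps0 (uS e) = 0 := by
        rw [not_and_or, not_le, not_le] at ht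
        rcases ht with ht | ht
        · rw [limh_ps0_zero ht.le, zero_mul]
        · rw [limh_ps0_zero ht.le, mul_zero]
      rw [h2]
      simp
  refine h1.trans ?_
  rw [← sum_filter, sum_const, nsmul_eq_mul]
  have h2 := hcnt h0 hh0 x hx
  have h3 : (((SQ h0 Q n0 x).filter (fun e => |tS e| ≤ 1 ∧ |uS e| ≤ 1)).card : ℝ) ≤
      (((SN h0 x).filter (fun e => |tS e| ≤ 1 ∧ |uS e| ≤ 1)).card : ℝ) := by
    have : (SQ h0 Q n0 x).filter (fun e => |tS e| ≤ 1 ∧ |uS e| ≤ 1) ⊆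
        (SN h0 x).filter (fun e => |tS e| ≤ 1 ∧ |uS e| ≤ 1) := by
      apply filter_subset_filter
      unfold SQ
      exact filter_subset _ _
    exact_mod_cast card_le_card this
  calc (((SQ h0 Q n0 x).filter (fun e => |tS e| ≤ 1 ∧ |uS e| ≤ 1)).card : ℝ) * ε ≤ (C * x) * ε :=
        mul_le_mul_of_nonneg_right (h3.trans h2) hε
    _ = ε * (C * x) := by ring

/-- PROOF. Copy of `limH3` (`Lib_MP_92ef0c_sp/LimH3.lean`) with `csN4`, `apxO4` (`Φ X = R2 (α (a X)) (β (a X))`), `TVR.sq`. With `X = Y / J` the family at `a Y` is the family at `(a J) X`: use `GmSmall4` and `TVR.sq` with `a J` (`N0`, `J0` do not depend on it). -/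
theorem limH4 (h0 Q n0 : ℕ) (hQ : HQ h0 Q n0) (α β : ℝ → ℕ × ℕ → ℂ) (hα : ∀ X z, ‖α X z‖ ≤ 1) (hβ : ∀ X z, ‖β X z‖ ≤ 1)
    (hT : TVR α β) (hG : GmSmall4 h0 Q n0 β) (h : ℝ → ℝ) (h1 h2 : ℝ) (hh : HF h h1 h2) (b : ℝ) (hb : h2 ≤ b)
    (a : ℝ) (ha : 0 < a) :
    Tendsto (fun Y : ℝ => (∑ e ∈ SQ h0 Q n0 (b * Y), R2 (α (a * Y)) (β (a * Y)) e * Wh h (yS e / Y) (tS e) (uS e)) / Y)
      atTop (nhds 0) := by
  classical
  apply limh_tend
  intro ε hε
  obtain ⟨C, hC, hcnt⟩ := cnt3 1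
  have h20 : (1 : ℝ) ≤ h2 := hh.one
  have h2p : (0 : ℝ) < h2 := by linarith
  have h0p : 0 < h0 := hQ.pos
  set η : ℝ := ε / (6 * C * h2) with hη
  have hη0 : 0 < η := by positivity
  set ε' : ℝ := ε ^ 2 / (108 * h2) with hε'
  have hε'0 : 0 < ε' := by positivity
  obtain ⟨N0, hN0⟩ := hG h h1 h2 hh ε' hε'0
  obtain ⟨N1, hN1⟩ := exists_nat_ge (324 * h2 ^ 2 / ε ^ 2)
  set N : ℕ := max N0 (max N1 1) with hN
  have hNN0 : N0 ≤ N := le_max_left _ _
  have hNN1 : N1 ≤ N := (le_max_left _ _).trans (le_max_right _ _)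
  have hN1' : 1 ≤ N := (le_max_right _ _).trans (le_max_right _ _)
  have hNr : (1 : ℝ) ≤ N := by exact_mod_cast hN1'
  have hNbig : 9 * h2 ^ 2 * (N + 1) ≤ ε ^ 2 / 18 * N ^ 2 := by
    have h3 : 324 * h2 ^ 2 / ε ^ 2 ≤ N := hN1.trans (by exact_mod_cast hNN1)
    rw [div_le_iff₀ (by positivity)] at h3
    have h4 : 9 * h2 ^ 2 * ((N : ℝ) + 1) ≤ 18 * h2 ^ 2 * N := by nlinarith [sq_nonneg h2]
    have h5 : 18 * h2 ^ 2 * N ≤ ε ^ 2 / 18 * N ^ 2 := by nlinarith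
    linarith
  obtain ⟨J0, hJ0⟩ := hN0 N hNN0
  obtain ⟨J1, hJ1, hcr⟩ := crho h h1 h2 hh N hN1' η hη0
  set J : ℕ := max J0 (max J1 N) with hJ
  have hJJ0 : J0 ≤ J := le_max_left _ _
  have hJJ1 : J1 ≤ J := (le_max_left _ _).trans (le_max_right _ _)
  have hJN : N ≤ J := (le_max_right _ _).trans (le_max_right _ _)
  have hJ1' : 1 ≤ J := hN1'.trans hJN
  have hJr : (1 : ℝ) ≤ J := by exact_mod_cast hJ1'
  have hJNr : (N : ℝ) ≤ J := by exact_mod_cast hJN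
  set b1 : ℝ := ((J : ℝ) + N) * h2 with hb1
  have hb1p : 0 < b1 := by positivity
  have hb1J : b1 ≤ 2 * J * h2 := by
    rw [hb1]
    have h3 := mul_le_mul_of_nonneg_right hJNr h2p.le
    linarith only [h3]
  have hb1h : J * h2 ≤ b1 := by
    rw [hb1]
    have h3 : 0 ≤ (N : ℝ) * h2 := by positivity
    linarith only [h3]
  have hb11 : 1 ≤ b1 := by nlinarith
  have hTS : TS b1 (WO3 h J N) := WO3_ts h h1 h2 hh J N hJ1' hN1' b1 (le_refl _)
  have hTS2 := hTS.sub (ts_c2 hTS).2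
  have haJ : 0 < a * (J : ℝ) := mul_pos ha (by linarith only [hJr])
  have ev1 := hJ0 J hJJ0 (a * J) haJ
  have ev2 := limh_ev (apxO4 h0 Q n0 h0p (fun X => R2 (α (a * J * X)) (β (a * J * X)))
    (fun X e => norm_R2_le (hα _) (hβ _) e) h h1 h2 hh J N hJ1' hN1' b1 hb1p) (ε := ε / 6)
    (by positivity)
  have ev3 := limh_ev (hT.sq h0 Q n0 hQ (a * J) haJ b1 _ hTS2
    (z4_zero hTS)) (ε := ε / 6) (by positivity)
  have ev4 : ∀ᶠ X : ℝ in atTop, (h0 : ℝ) + 1 ≤ X := eventually_ge_atTop _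
  have hall := ((ev1.and ev2).and (ev3.and ev4))
  have htend : Tendsto (fun Y : ℝ => Y / J) atTop atTop :=
    tendsto_id.atTop_div_const (by linarith)
  filter_upwards [htend.eventually hall] with Y hY
  obtain ⟨⟨hG1, hO⟩, ⟨hV, hXh⟩⟩ := hY
  set X : ℝ := Y / J with hX
  have hh0r : (0 : ℝ) ≤ h0 := Nat.cast_nonneg h0
  have hX1 : (1 : ℝ) ≤ X := by linarith
  have hX0 : (0 : ℝ) < X := by linarith
  have hYX : Y = J * X := by
    rw [hX]
    field_simp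
  have hY0 : (0 : ℝ) < Y := by
    rw [hYX]
    positivity
  have haY : a * Y = a * J * X := by
    rw [hYX]
    ring
  rw [haY]
  obtain ⟨α', hα'⟩ : ∃ α' : ℕ × ℕ → ℂ, α' = α (a * J * X) := ⟨_, rfl⟩
  obtain ⟨β', hβ'⟩ : ∃ β' : ℕ × ℕ → ℂ, β' = β (a * J * X) := ⟨_, rfl⟩
  have hα1 : ∀ z, ‖α' z‖ ≤ 1 := by
    rw [hα']
    exact hα _
  have hβ1 : ∀ z, ‖β' z‖ ≤ 1 := by
    rw [hβ']
    exact hβ _
  rw [← hα', ← hβ'] at hO hV ⊢
  rw [← hβ'] at hG1
  -- the sums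
  set A : ℂ := ∑ e ∈ SQ h0 Q n0 (b * Y), R2 α' β' e * Wh h (yS e / Y) (tS e) (uS e) with hA
  have hA2 : A = ∑ e ∈ SQ h0 Q n0 (b1 * X), R2 α' β' e *
      (((h (yS e / X / J) : ℝ) : ℂ) * ((ps0 (tS e) * ps0 (uS e) : ℝ) : ℂ)) := by
    rw [hA]
    have hz : ∀ e : Q4, h2 * Y ≤ yS e → Wh h (yS e / Y) (tS e) (uS e) = 0 := by
      intro e he
      have h3 : h (yS e / Y) = 0 := by
        apply hh.hi
        rw [le_div_iff₀ hY0]
        exact he
      unfold Wh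
      rw [h3]
      simp
    have hs1 : ∑ e ∈ SQ h0 Q n0 (b * Y), R2 α' β' e * Wh h (yS e / Y) (tS e) (uS e) =
        ∑ e ∈ SQ h0 Q n0 (h2 * Y), R2 α' β' e * Wh h (yS e / Y) (tS e) (uS e) := by
      symm
      apply sum_subset
      · intro e he
        rw [mem_SQ] at he ⊢
        exact ⟨⟨he.1.1, he.1.2.trans (mul_le_mul_of_nonneg_right hb hY0.le)⟩, he.2⟩
      · intro e he hne
        rw [mem_SQ] at he hne
        have : h2 * Y ≤ yS e := by
          by_contra hc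
          push Not at hc
          exact hne ⟨⟨he.1.1, hc.le⟩, he.2⟩
        rw [hz e this]
        simp
    have hs2 : ∑ e ∈ SQ h0 Q n0 (b1 * X), R2 α' β' e * Wh h (yS e / Y) (tS e) (uS e) =
        ∑ e ∈ SQ h0 Q n0 (h2 * Y), R2 α' β' e * Wh h (yS e / Y) (tS e) (uS e) := by
      symm
      apply sum_subset
      · intro e he
        rw [mem_SQ] at he ⊢
        refine ⟨⟨he.1.1, he.1.2.trans ?_⟩, he.2⟩
        rw [hYX]
        have h3 := mul_le_mul_of_nonneg_right hb1h hX0.le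
        linarith only [h3]
      · intro e he hne
        rw [mem_SQ] at he hne
        have : h2 * Y ≤ yS e := by
          by_contra hc
          push Not at hc
          exact hne ⟨⟨he.1.1, hc.le⟩, he.2⟩
        rw [hz e this]
        simp
    rw [hs1, ← hs2]
    apply sum_congr rfl
    intro e _
    have h3 : yS e / Y = yS e / X / J := by
      rw [hYX, div_div]
      ring_nf
    unfold Wh
    rw [h3]
    push_cast
    ring
  set c : ℝ → ℂ := fun y => ∫ t, ∫ u, WO3 h J N y t u with hc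
  have hcW : ∀ y, c y = ∫ s, WO h J N y s := fun y => WO3_int h h1 h2 hh J N hJ1' hN1' y
  set S1 : ℂ := ∑ e ∈ SQ h0 Q n0 (b1 * X), R2 α' β' e * WO3 h J N (yS e / X) (tS e) (uS e) with hS1
  set S2 : ℂ := ∑ e ∈ SQ h0 Q n0 (b1 * X), R2 α' β' e *
    (c (yS e / X) * ((ps0 (tS e) * ps0 (uS e) : ℝ) : ℂ)) with hS2
  have hb1X : (h0 : ℝ) ≤ b1 * X := by
    have h3 : X ≤ b1 * X := le_mul_of_one_le_left hX0.le hb11
    linarith only [h3, hXh]
  -- S2 and A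
  have hd1 : ‖S2 - ((N : ℝ) / J : ℝ) * A‖ ≤ (η * (N / J)) * (C * (b1 * X)) := by
    have h3 : S2 - ((N : ℝ) / J : ℝ) * A = ∑ e ∈ SQ h0 Q n0 (b1 * X), R2 α' β' e *
        ((c (yS e / X) - (((N : ℝ) / J * h (yS e / X / J) : ℝ) : ℂ)) *
          ((ps0 (tS e) * ps0 (uS e) : ℝ) : ℂ)) := by
      rw [hA2, hS2, mul_sum, ← sum_sub_distrib]
      apply sum_congr rfl
      intro e _
      push_cast
      ring
    rw [h3]
    apply limh4_small h0p hα1 hβ1 hcnt (b1 * X) hb1X _ (by positivity)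
    intro e _
    rw [hcW]
    exact hcr J hJJ1 (yS e / X)
  have hd2 : ‖S1 - S2‖ ≤ ε / 6 * X := by
    have h3 : S1 - S2 = ∑ e ∈ SQ h0 Q n0 (b1 * X), R2 α' β' e *
      (WO3 h J N (yS e / X) (tS e) (uS e) -
        (∫ t', ∫ u', WO3 h J N (yS e / X) t' u') * ((ps0 (tS e) * ps0 (uS e) : ℝ) : ℂ)) := by
      rw [hS1, hS2, ← sum_sub_distrib]
      apply sum_congr rfl
      intro e _
      simp only [hc]
      ring
    rw [← h3, norm_div, Complex.norm_real, Real.norm_eq_abs, abs_of_pos hX0, div_le_iff₀ hX0] at hV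
    exact hV
  have hd3 : ‖SX4 h0 Q n0 α' β' h J N (b1 * X) X - S1‖ ≤ ε / 6 * X := by
    rw [norm_div, Complex.norm_real, Real.norm_eq_abs, abs_of_pos hX0, div_le_iff₀ hX0] at hO
    exact hO
  have hSX : ‖SX4 h0 Q n0 α' β' h J N (b1 * X) X‖ ≤ ε / 3 * N * X := by
    have h3 := csN4 h0 Q n0 hQ α' β' hα1 hβ1 h hh.nn hh.le (fun y hy => hh.lo y (hy.trans hh.pos.le)) h2 hh.hi
      J N hJ1' hN1' X hX1 h20 (b1 * X) ((((J : ℝ) + N) ^ 2 * (h0 + 1) * h2) * X) (le_refl _) (le_refl _)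
    have h4 : 3 * h2 * X * (3 * h2 * X * (N + 1) +
        2 * ‖∑ n ∈ Icc 1 N, Gm4 h0 Q n0 β' h J N n ((((J : ℝ) + N) ^ 2 * (h0 + 1) * h2) * X) X‖) ≤
        (ε / 3 * N * X) ^ 2 := by
      have h5 : 3 * h2 * X * (3 * h2 * X * (N + 1) +
        2 * ‖∑ n ∈ Icc 1 N, Gm4 h0 Q n0 β' h J N n ((((J : ℝ) + N) ^ 2 * (h0 + 1) * h2) * X) X‖) ≤
        3 * h2 * X * (3 * h2 * X * (N + 1) + 2 * (ε' * N ^ 2 * X)) := by
        apply mul_le_mul_of_nonneg_left _ (by positivity)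
        linarith
      refine h5.trans ?_
      have h6 : 3 * h2 * X * (3 * h2 * X * (N + 1) + 2 * (ε' * N ^ 2 * X)) =
          X ^ 2 * (9 * h2 ^ 2 * (N + 1) + 6 * h2 * ε' * N ^ 2) := by ring
      have h7 : 6 * h2 * ε' = ε ^ 2 / 18 := by
        rw [hε']
        field_simp
        norm_num
      rw [h6, h7]
      have h8 : (ε / 3 * N * X) ^ 2 = X ^ 2 * (ε ^ 2 / 18 * N ^ 2 + ε ^ 2 / 18 * N ^ 2) := by ring
      rw [h8]
      apply mul_le_mul_of_nonneg_left _ (sq_nonneg X)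
      linarith
    exact le_of_sq_le_sq (h3.trans h4) (by positivity)
  -- conclusion
  have htot : ‖((N : ℝ) / J : ℝ) * A‖ ≤ (η * (N / J)) * (C * (b1 * X)) + ε / 6 * X + ε / 6 * X +
      ε / 3 * N * X := by
    have h3 : (((N : ℝ) / J : ℝ) : ℂ) * A = -(S2 - ((N : ℝ) / J : ℝ) * A) - (S1 - S2) -
        (SX4 h0 Q n0 α' β' h J N (b1 * X) X - S1) + SX4 h0 Q n0 α' β' h J N (b1 * X) X := by ring
    calc ‖(((N : ℝ) / J : ℝ) : ℂ) * A‖ = ‖-(S2 - ((N : ℝ) / J : ℝ) * A) - (S1 - S2) -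
        (SX4 h0 Q n0 α' β' h J N (b1 * X) X - S1) + SX4 h0 Q n0 α' β' h J N (b1 * X) X‖ := by rw [← h3]
      _ ≤ ‖-(S2 - ((N : ℝ) / J : ℝ) * A) - (S1 - S2) - (SX4 h0 Q n0 α' β' h J N (b1 * X) X - S1)‖ +
          ‖SX4 h0 Q n0 α' β' h J N (b1 * X) X‖ := norm_add_le _ _
      _ ≤ ‖-(S2 - ((N : ℝ) / J : ℝ) * A) - (S1 - S2)‖ + ‖SX4 h0 Q n0 α' β' h J N (b1 * X) X - S1‖ +
          ‖SX4 h0 Q n0 α' β' h J N (b1 * X) X‖ := by gcongr; exact norm_sub_le _ _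
      _ ≤ ‖-(S2 - ((N : ℝ) / J : ℝ) * A)‖ + ‖S1 - S2‖ + ‖SX4 h0 Q n0 α' β' h J N (b1 * X) X - S1‖ +
          ‖SX4 h0 Q n0 α' β' h J N (b1 * X) X‖ := by gcongr; exact norm_sub_le _ _
      _ ≤ _ := by
          rw [norm_neg]
          linarith
  rw [norm_mul, Complex.norm_real, Real.norm_eq_abs, abs_of_nonneg (by positivity)] at htot
  rw [norm_div, Complex.norm_real, Real.norm_eq_abs, abs_of_pos hY0, div_le_iff₀ hY0]
  have hJ0' : (0 : ℝ) < J := by linarith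
  have hN0' : (0 : ℝ) < N := by linarith
  have h3 : ‖A‖ = (J / N) * ((N : ℝ) / J * ‖A‖) := by field_simp
  have h4 : (J / N) * ((N : ℝ) / J * ‖A‖) ≤ (J / N) * ((η * (N / J)) * (C * (b1 * X)) + ε / 6 * X +
      ε / 6 * X + ε / 3 * N * X) := mul_le_mul_of_nonneg_left htot (by positivity)
  have h5 : (J / N : ℝ) * ((η * (N / J)) * (C * (b1 * X)) + ε / 6 * X + ε / 6 * X + ε / 3 * N * X) =
      η * C * b1 * X + (ε / 3) * (J / N) * X + ε / 3 * (J * X) := by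
    field_simp
    ring
  have h6 : η * C * b1 * X ≤ ε / 3 * (J * X) := by
    have h7 : η * C * b1 * X ≤ η * C * (2 * J * h2) * X := by gcongr
    have h8 : η * C * (2 * J * h2) * X = ε / 3 * (J * X) := by
      rw [hη]
      field_simp
      norm_num
    linarith
  have h7 : (ε / 3) * (J / N : ℝ) * X ≤ ε / 3 * (J * X) := by
    have h8 : (J / N : ℝ) ≤ J := by
      rw [div_le_iff₀ hN0']
      exact le_mul_of_one_le_right (by linarith only [hJr]) hNr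
    have h9 : (J / N : ℝ) * X ≤ J * X := mul_le_mul_of_nonneg_right h8 hX0.le
    rw [mul_assoc (ε / 3)]
    exact mul_le_mul_of_nonneg_left h9 (by linarith only [hε])
  rw [hYX]
  linarith

/-- nonnegative continuous functions of `b c` -/
theorem sm4_real (h0 Q n0 : ℕ) (hQ : HQ h0 Q n0) (α β : ℝ → ℕ × ℕ → ℂ) (hα : ∀ X z, ‖α X z‖ ≤ 1)
    (hβ : ∀ X z, ‖β X z‖ ≤ 1) (hT : TVR α β) (hG : GmSmall4 h0 Q n0 β) (a : ℝ) (ha : 0 < a)
    (b : ℝ) (c : ℝ → ℝ) (hc : Continuous c) (hnn : ∀ y, 0 ≤ c y) (hlo : ∀ y, y ≤ 0 → c y = 0)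
    (hhi : ∀ y, b ≤ y → c y = 0) :
    Tendsto (fun X : ℝ => (∑ e ∈ SQ h0 Q n0 (b * X), R2 (α (a * X)) (β (a * X)) e *
      (((c (yS e / X) : ℝ) : ℂ) * ((ps0 (tS e) * ps0 (uS e) : ℝ) : ℂ))) / X) atTop (nhds 0) := by
  classical
  apply limh_tend
  intro ε hε
  obtain ⟨C, hC, hcnt⟩ := cnt3 1
  set b' : ℝ := max b 1 with hb'
  have hb1 : 1 ≤ b' := le_max_right _ _
  have hbb : b ≤ b' := le_max_left _ _
  set δ : ℝ := ε / (2 * C * b') with hδ
  have hδ0 : 0 < δ := by positivity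
  have hsupp : HasCompactSupport c := by
    apply HasCompactSupport.intro (isCompact_Icc (a := (0 : ℝ)) (b := b))
    intro y hy
    rw [Set.mem_Icc, not_and_or, not_le, not_le] at hy
    rcases hy with hy | hy
    · exact hlo y hy.le
    · exact hhi y hy.le
  obtain ⟨K0, hK0⟩ := hsupp.exists_bound_of_continuous hc
  set K : ℝ := max K0 1 with hK
  have hK1 : 1 ≤ K := le_max_right _ _
  have hKp : 0 < K := by linarith
  have hKc : ∀ y, c y ≤ K := by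
    intro y
    have h1 := hK0 y
    rw [Real.norm_eq_abs, abs_of_nonneg (hnn y)] at h1
    exact h1.trans (le_max_left _ _)
  obtain ⟨h1, hh1, hsmall⟩ : ∃ h1 : ℝ, 0 < h1 ∧ ∀ y, y ≤ h1 → c y ≤ δ := by
    have h2 := Metric.continuousAt_iff.1 (hc.continuousAt (x := 0)) δ hδ0
    obtain ⟨r, hr, h3⟩ := h2
    refine ⟨r / 2, by positivity, ?_⟩
    intro y hy
    rcases le_or_gt y 0 with h0 | h0
    · rw [hlo y h0]
      exact hδ0.le
    · have h4 := h3 (x := y) (by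
        rw [Real.dist_eq, sub_zero, abs_of_pos h0]
        linarith)
      rw [hlo 0 (le_refl 0), Real.dist_eq, sub_zero, abs_of_nonneg (hnn y)] at h4
      exact h4.le
  set h : ℝ → ℝ := fun y => max 0 (c y - δ) / K with hh
  have hHF : HF h h1 b' := by
    refine ⟨?_, ?_, ?_, hh1, hb1, ?_, ?_⟩
    · exact (continuous_const.max (hc.sub continuous_const)).div_const K
    · intro y
      exact div_nonneg (le_max_left _ _) hKp.le
    · intro y
      show max 0 (c y - δ) / K ≤ 1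
      rw [div_le_one hKp]
      apply max_le hKp.le
      linarith [hKc y]
    · intro y hy
      show max 0 (c y - δ) / K = 0
      rw [max_eq_left (by linarith [hsmall y hy]), zero_div]
    · intro y hy
      show max 0 (c y - δ) / K = 0
      rw [hhi y (hbb.trans hy), max_eq_left (by linarith), zero_div]
  have hlim := limh_ev (limH4 h0 Q n0 hQ α β hα hβ hT hG h h1 b' hHF b' (le_refl _) a ha)
    (ε := ε / (2 * K)) (by positivity)
  filter_upwards [hlim, eventually_ge_atTop (1 : ℝ), eventually_ge_atTop (h0 : ℝ)] with X hX1 hX hXh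
  have hX0 : (0 : ℝ) < X := by linarith
  have hs : ∑ e ∈ SQ h0 Q n0 (b * X), R2 (α (a * X)) (β (a * X)) e *
      (((c (yS e / X) : ℝ) : ℂ) * ((ps0 (tS e) * ps0 (uS e) : ℝ) : ℂ)) =
      ∑ e ∈ SQ h0 Q n0 (b' * X), R2 (α (a * X)) (β (a * X)) e *
      (((c (yS e / X) : ℝ) : ℂ) * ((ps0 (tS e) * ps0 (uS e) : ℝ) : ℂ)) := by
    apply sum_subset
    · intro e he
      rw [mem_SQ] at he ⊢
      exact ⟨⟨he.1.1, he.1.2.trans (mul_le_mul_of_nonneg_right hbb hX0.le)⟩, he.2⟩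
    · intro e he hne
      rw [mem_SQ] at he hne
      have h2 : b * X ≤ yS e := by
        by_contra hcon
        push Not at hcon
        exact hne ⟨⟨he.1.1, hcon.le⟩, he.2⟩
      rw [hhi (yS e / X) (by rw [le_div_iff₀ hX0]; exact h2)]
      simp
  have hd : ∑ e ∈ SQ h0 Q n0 (b' * X), R2 (α (a * X)) (β (a * X)) e *
      (((c (yS e / X) : ℝ) : ℂ) * ((ps0 (tS e) * ps0 (uS e) : ℝ) : ℂ)) =
      K * ∑ e ∈ SQ h0 Q n0 (b' * X), R2 (α (a * X)) (β (a * X)) e * Wh h (yS e / X) (tS e) (uS e) +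
      ∑ e ∈ SQ h0 Q n0 (b' * X), R2 (α (a * X)) (β (a * X)) e *
      (((c (yS e / X) - K * h (yS e / X) : ℝ) : ℂ) * ((ps0 (tS e) * ps0 (uS e) : ℝ) : ℂ)) := by
    rw [mul_sum, ← sum_add_distrib]
    apply sum_congr rfl
    intro e _
    unfold Wh
    push_cast
    ring
  have hsm := limh4_small (Q := Q) (n0 := n0) hQ.pos (hα (a * X)) (hβ (a * X)) hcnt (b' * X) (by nlinarith) δ hδ0.le
    (fun e => ((c (yS e / X) - K * h (yS e / X) : ℝ) : ℂ)) (by
      intro e _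
      rw [Complex.norm_real, Real.norm_eq_abs]
      have h2 : K * h (yS e / X) = max 0 (c (yS e / X) - δ) := by
        simp only [hh]
        field_simp
      rw [h2]
      rcases le_total (c (yS e / X) - δ) 0 with h3 | h3
      · rw [max_eq_left h3, sub_zero, abs_of_nonneg (hnn _)]
        linarith
      · rw [max_eq_right h3, sub_sub_cancel, abs_of_pos hδ0])
  rw [norm_div, Complex.norm_real, Real.norm_eq_abs, abs_of_pos hX0, div_le_iff₀ hX0] at hX1 ⊢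
  rw [hs, hd]
  refine (norm_add_le _ _).trans ?_
  rw [norm_mul, Complex.norm_real, Real.norm_eq_abs, abs_of_pos hKp]
  have h2 : K * ‖∑ e ∈ SQ h0 Q n0 (b' * X), R2 (α (a * X)) (β (a * X)) e * Wh h (yS e / X) (tS e) (uS e)‖ ≤
      K * (ε / (2 * K) * X) :=
    mul_le_mul_of_nonneg_left hX1 hKp.le
  have h3 : K * (ε / (2 * K) * X) = ε / 2 * X := by
    field_simp
  have h4 : δ * (C * (b' * X)) = ε / 2 * X := by
    rw [hδ]
    field_simp
  linarith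

/-- PROOF. Copy of `sm3` (`Lib_MP_92ef0c_sp/Sm3.lean`) with `limH4`, `TVR.sq`. -/
theorem sm4 (h0 Q n0 : ℕ) (hQ : HQ h0 Q n0) (α β : ℝ → ℕ × ℕ → ℂ) (hα : ∀ X z, ‖α X z‖ ≤ 1) (hβ : ∀ X z, ‖β X z‖ ≤ 1)
    (hT : TVR α β) (hG : GmSmall4 h0 Q n0 β) (b : ℝ) (W : ℝ → ℝ → ℝ → ℂ) (hW : TS b W) (a : ℝ) (ha : 0 < a) :
    Tendsto (fun Y : ℝ => (∑ e ∈ SQ h0 Q n0 (b * Y), R2 (α (a * Y)) (β (a * Y)) e * W (yS e / Y) (tS e) (uS e)) / Y)
      atTop (nhds 0) := by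
  set c : ℝ → ℂ := fun y => ∫ t, ∫ u, W y t u with hc
  obtain ⟨⟨hcc, hclo, hchi⟩, hTS⟩ := ts_c2 hW
  have hcc : Continuous c := hcc
  have hclo : ∀ y, y ≤ 0 → c y = 0 := hclo
  have hchi : ∀ y, b ≤ y → c y = 0 := hchi
  have hre : Continuous (fun y => (c y).re) := Complex.continuous_re.comp hcc
  have him : Continuous (fun y => (c y).im) := Complex.continuous_im.comp hcc
  have t0 := hT.sq h0 Q n0 hQ a ha b _ (hW.sub hTS) (z4_zero hW)
  have t1 := sm4_real h0 Q n0 hQ α β hα hβ hT hG a ha b (fun y => max 0 (c y).re) (continuous_const.max hre)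
    (fun y => le_max_left _ _) (fun y hy => by simp [hclo y hy]) (fun y hy => by simp [hchi y hy])
  have t2 := sm4_real h0 Q n0 hQ α β hα hβ hT hG a ha b (fun y => max 0 (-(c y).re)) (continuous_const.max hre.neg)
    (fun y => le_max_left _ _) (fun y hy => by simp [hclo y hy]) (fun y hy => by simp [hchi y hy])
  have t3 := sm4_real h0 Q n0 hQ α β hα hβ hT hG a ha b (fun y => max 0 (c y).im) (continuous_const.max him)
    (fun y => le_max_left _ _) (fun y hy => by simp [hclo y hy]) (fun y hy => by simp [hchi y hy])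
  have t4 := sm4_real h0 Q n0 hQ α β hα hβ hT hG a ha b (fun y => max 0 (-(c y).im)) (continuous_const.max him.neg)
    (fun y => le_max_left _ _) (fun y hy => by simp [hclo y hy]) (fun y hy => by simp [hchi y hy])
  have ht := (t0.add (t1.sub t2)).add ((t3.sub t4).const_mul Complex.I)
  rw [sub_zero, mul_zero, add_zero, add_zero] at ht
  refine ht.congr (fun X => ?_)
  rw [← sub_div, ← sub_div, ← mul_div_assoc, ← add_div, ← add_div]
  congr 1
  rw [← sum_sub_distrib, ← sum_sub_distrib, mul_sum, ← sum_add_distrib, ← sum_add_distrib]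
  apply sum_congr rfl
  intro e _
  have hpm : ∀ r : ℝ, max 0 r - max 0 (-r) = r := by
    intro r
    rcases le_total 0 r with h | h
    · rw [max_eq_right h, max_eq_left (by linarith)]
      ring
    · rw [max_eq_left h, max_eq_right (by linarith)]
      ring
  have h1 : ((max 0 (c (yS e / X)).re : ℝ) : ℂ) - ((max 0 (-(c (yS e / X)).re) : ℝ) : ℂ) +
      Complex.I * (((max 0 (c (yS e / X)).im : ℝ) : ℂ) - ((max 0 (-(c (yS e / X)).im) : ℝ) : ℂ)) =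
      c (yS e / X) := by
    rw [← Complex.ofReal_sub, ← Complex.ofReal_sub, hpm, hpm, mul_comm Complex.I]
    exact Complex.re_add_im _
  have h2 : (∫ t', ∫ u', W (yS e / X) t' u') = c (yS e / X) := rfl
  rw [h2]
  linear_combination (R2 (α (a * X)) (β (a * X)) e * ((ps0 (tS e) * ps0 (uS e) : ℝ) : ℂ)) * h1

end Pool.Agent.SplL
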