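import Pool.Agent.Lib_MP_92ef0c_sp.QdS3
import Pool.Agent.Lib_MP_92ef0c_la.Arc4

/-!
# The sums over the determinants divisible by `D`
-/

set_option autoImplicit false

namespace Pool.Agent.SplL

open Finset Pool.Agent.Spl Pool.Agent.SplB Pool.Agent.GaussMR Pool.Agent.OmAll Pool.Agent.OmEq MeasureTheory Filter

theorem q4s_R2 (β : ℕ × ℕ → ℂ) (e : (ℕ × ℕ) × (ℕ × ℕ)) :
    R2 β (cjr β) (mk4 e) = β e.1 * (starRingEnd ℂ) (β e.2) := by
  unfold R2 cjr mk4
  rfl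

theorem q4s_sum (β : ℕ × ℕ → ℂ) (D : ℕ) {h : ℝ → ℝ} {h1 h2 : ℝ} (hh : HF h h1 h2) {N : ℕ} {Y : ℝ}
    (hY : (N : ℝ) ≤ Y) (hY0 : 0 < Y) :
    ∑ n ∈ (Icc 1 N).filter (fun n => D ∣ n), ((ww ((n : ℝ) / N) : ℝ) : ℂ) *
      Qs4 β n (h2 * Y) (Wh (fun y => h y ^ 2)) Y =
    ∑ e ∈ PB (4 * Real.sqrt h2 * Real.sqrt Y) (4 * Real.sqrt h2 * Real.sqrt Y) ×ˢ
        PB (4 * Real.sqrt h2 * Real.sqrt Y) (4 * Real.sqrt h2 * Real.sqrt Y),
      q3K D e.1 e.2 * (β e.1 * (starRingEnd ℂ) (β e.2)) * ((q3T h N Y e : ℝ) : ℂ) := by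
  classical
  have h2p := hh.one
  set R := 4 * Real.sqrt h2 * Real.sqrt Y with hR
  set P := PB R R ×ˢ PB R R with hP
  set T : (ℕ × ℕ) × (ℕ × ℕ) → ℂ := fun e => q3K D e.1 e.2 * (β e.1 * (starRingEnd ℂ) (β e.2)) *
      ((q3T h N Y e : ℝ) : ℂ) with hT
  have e1 : ∀ e ∈ P, T e = ∑ n ∈ Icc 1 N, if e.1.1 * e.2.2 = e.1.2 * e.2.1 + n then T e else 0 := by
    intro e _
    by_cases hc : e.1.2 * e.2.1 < e.1.1 * e.2.2 ∧ e.1.1 * e.2.2 ≤ e.1.2 * e.2.1 + N
    · rw [sum_eq_single (e.1.1 * e.2.2 - e.1.2 * e.2.1)]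
      · rw [if_pos (by omega)]
      · intro n _ hn
        rw [if_neg (by omega)]
      · intro h3
        exfalso
        apply h3
        rw [mem_Icc]
        omega
    · have h0 : T e = 0 := by
        rw [hT]
        dsimp only
        unfold q3T
        rw [if_neg hc, Complex.ofReal_zero, mul_zero]
      rw [h0]
      symm
      apply sum_eq_zero
      intro n _
      rw [ite_self]
  rw [sum_congr rfl e1, sum_comm, sum_filter]
  apply sum_congr rfl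
  intro n hn
  rw [mem_Icc] at hn
  have hn0 : 0 < n := hn.1
  have hnN : (n : ℝ) ≤ N := by exact_mod_cast hn.2
  rw [← sum_filter]
  have hKn : ∀ e : (ℕ × ℕ) × (ℕ × ℕ), e.1.1 * e.2.2 = e.1.2 * e.2.1 + n →
      ((e.1.1 * e.2.2 ≡ e.1.2 * e.2.1 [MOD D]) ↔ D ∣ n) := by
    intro e he
    rw [he]
    constructor
    · intro h3
      have h4 : e.1.2 * e.2.1 + n ≡ e.1.2 * e.2.1 + 0 [MOD D] := h3
      exact (Nat.modEq_zero_iff_dvd).1 (Nat.ModEq.add_left_cancel' _ h4)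
    · intro h3
      have h4 : n ≡ 0 [MOD D] := (Nat.modEq_zero_iff_dvd).2 h3
      exact h4.add_left (e.1.2 * e.2.1)
  split_ifs with hdn
  · unfold Qs4
    rw [mul_sum]
    have him : ∑ i ∈ SN n (h2 * Y), ((ww ((n : ℝ) / N) : ℝ) : ℂ) * (R2 β (cjr β) i *
        Wh (fun y => h y ^ 2) (yS i / Y) (tS i) (uS i)) =
      ∑ e ∈ (SN n (h2 * Y)).image un4, ((ww ((n : ℝ) / N) : ℝ) : ℂ) * (R2 β (cjr β) (mk4 e) *
        Wh (fun y => h y ^ 2) (yS (mk4 e) / Y) (tS (mk4 e)) (uS (mk4 e))) := by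
      rw [sum_image (fun x _ y _ hxy => un4_inj hxy)]
      simp only [mk4_un4]
    rw [him]
    apply sum_congr_of_eq_on_inter
    · intro e he hne
      rw [mem_un4, mem_SN] at he
      obtain ⟨hEn, hm⟩ := he
      have hnP : e ∉ P := by
        intro h3
        exact hne (mem_filter.2 ⟨h3, hEn.1⟩)
      obtain ⟨k1, k2, k3, k4, k5, k6, k7⟩ := hEn
      by_cases hps : ps0 (tS (mk4 e)) = 0
      · unfold Wh
        rw [hps]
        simp
      · by_cases hpu : ps0 (uS (mk4 e)) = 0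
        · unfold Wh
          rw [hpu]
          simp
        · by_cases hh0 : h (yS (mk4 e) / Y) = 0
          · unfold Wh
            dsimp only
            rw [hh0]
            simp
          · exfalso
            apply hnP
            have ht := qds_ps0_ne hps
            have hu := qds_ps0_ne hpu
            unfold tS mk4 at ht
            unfold uS mk4 at hu
            dsimp only at ht hu
            unfold yS mk4 at hm
            dsimp only at hm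
            unfold mk4 at k1 k2 k3 k4 k5 k6 k7
            dsimp only at k1 k2 k3 k4 k5 k6 k7
            have k2' : (0 : ℝ) < e.1.1 := by exact_mod_cast k2
            have k3' : (0 : ℝ) < e.1.2 := by exact_mod_cast k3
            have k4' : (0 : ℝ) < e.2.1 := by exact_mod_cast k4
            have k5' : (0 : ℝ) < e.2.2 := by exact_mod_cast k5
            have k1' : (e.1.1 : ℝ) * e.2.2 = e.1.2 * e.2.1 + n := by exact_mod_cast k1
            have hz : Y ≤ h2 * Y := by nlinarith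
            obtain ⟨b1, b2⟩ := q3_box k2' k5' ht le_rfl (by linarith : (e.1.1 : ℝ) * e.2.2 ≤ 2 * (h2 * Y))
              (by linarith) hY0.le
            obtain ⟨b3, b4⟩ := q3_box k3' k4' hu le_rfl (by linarith : (e.1.2 : ℝ) * e.2.1 ≤ 2 * (h2 * Y))
              (by linarith) hY0.le
            rw [hP, mem_product, mem_PB, mem_PB]
            exact ⟨⟨⟨k2, b1⟩, ⟨k3, b3⟩, k6⟩, ⟨⟨k4, b4⟩, ⟨k5, b2⟩, k7⟩⟩
    · intro e he hne
      rw [mem_filter, hP, mem_product, mem_PB, mem_PB] at he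
      obtain ⟨⟨⟨⟨p1, -⟩, ⟨p2, -⟩, p3⟩, ⟨⟨p4, -⟩, ⟨p5, -⟩, p6⟩⟩, hdet⟩ := he
      rw [mem_un4, mem_SN] at hne
      rw [hT]
      dsimp only
      have hm : ¬ yS (mk4 e) ≤ h2 * Y := by
        intro h3
        apply hne
        exact ⟨⟨hdet, p1, p2, p4, p5, p3, p6⟩, h3⟩
      have hz : h ((e.1.2 : ℝ) * e.2.1 / Y) = 0 := by
        apply hh.hi
        rw [le_div_iff₀ hY0]
        exact (not_le.1 hm).le
      unfold q3T
      rw [hz]
      simp
    · intro e he he'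
      rw [mem_un4, mem_SN] at he
      obtain ⟨hEn, hm⟩ := he
      have hdet : e.1.1 * e.2.2 = e.1.2 * e.2.1 + n := hEn.1
      have hK : q3K D e.1 e.2 = 1 := by
        unfold q3K
        rw [if_pos ((hKn e hdet).2 hdn)]
      have hdet' : (e.1.1 : ℝ) * e.2.2 = e.1.2 * e.2.1 + n := by exact_mod_cast hdet
      have hTT : q3T h N Y e = ww ((n : ℝ) / N) * h ((e.1.2 : ℝ) * e.2.1 / Y) ^ 2 *
          (ps0 (Real.log e.2.2 - Real.log e.1.1) * ps0 (Real.log e.2.1 - Real.log e.1.2)) := by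
        unfold q3T
        rw [if_pos (by omega), hdet']
        congr 4
        ring
      rw [hT]
      dsimp only
      rw [hK, hTT, q4s_R2]
      unfold Wh yS tS uS mk4
      dsimp only
      push_cast
      ring
  · symm
    apply sum_eq_zero
    intro e he
    rw [mem_filter] at he
    have hK : q3K D e.1 e.2 = 0 := by
      unfold q3K
      rw [if_neg (fun h3 => hdn ((hKn e he.2).1 h3))]
    rw [hT]
    dsimp only
    rw [hK]
    simp

/-- PROOF. Copy of `qds3` (`Lib_MP_92ef0c_sp/QdS3.lean`) with `arcp4`; `R2 β (cjr β) (mk4 e) = β e.1 * conj (β e.2)` replaces `q3_F4`; `q3_sum` has to be copied, the other lemmas can be imported. -/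
theorem qds4 (β : ℝ → ℕ × ℕ → ℂ) (hβ : ∀ X z, ‖β X z‖ ≤ 1) (hM : MRG β) : QdSmall4 β := by
  classical
  intro D hD h h1 h2 hh ε hε
  have h1p := hh.pos
  have h2p := hh.one
  by_cases h12 : h1 ≤ h2
  swap
  · -- trivial: `h = 0`
    have hz : ∀ y, h y = 0 := by
      intro y
      rcases le_total y h1 with h3 | h3
      · exact hh.lo y h3
      · exact hh.hi y (by linarith)
    refine ⟨0, fun N _ a _ => ?_⟩
    filter_upwards [eventually_ge_atTop 0] with Y hY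
    have h0 : ∑ n ∈ (Icc 1 N).filter (fun n => D ∣ n), ((ww ((n : ℝ) / N) : ℝ) : ℂ) *
      Qs4 (β (a * Y)) n (h2 * Y) (Wh (fun y => h y ^ 2)) Y = 0 := by
      apply sum_eq_zero
      intro n _
      have : Qs4 (β (a * Y)) n (h2 * Y) (Wh (fun y => h y ^ 2)) Y = 0 := by
        unfold Qs4 Wh
        apply sum_eq_zero
        intro e _
        dsimp only
        rw [hz]
        simp
      rw [this, mul_zero]
    rw [h0, norm_zero]
    positivity
  have hs1 : 0 < Real.sqrt h1 := Real.sqrt_pos.2 h1p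
  have hs2 : 0 < Real.sqrt h2 := Real.sqrt_pos.2 (by linarith)
  have hs12 : Real.sqrt h1 ≤ Real.sqrt h2 := Real.sqrt_le_sqrt h12
  obtain ⟨C, hC, hcntA⟩ := cntA3 (Real.sqrt h1 / 4) (4 * Real.sqrt h2) (4 * Real.sqrt h2) (1 / h1) (by positivity)
    (by linarith) (by positivity) (by positivity)
  obtain ⟨C1, hC1, hcnt⟩ := cnt3 1
  set K : ℝ := C + 2 * C1 * h2 with hK
  have hKp : 0 < K := by positivity
  set η : ℝ := min 1 (ε / (4 * K)) with hηd
  have hη : 0 < η := lt_min one_pos (by positivity)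
  have hη1 : η ≤ 1 := min_le_left _ _
  have hη2 : η * (4 * K) ≤ ε := by
    have := min_le_right 1 (ε / (4 * K))
    rwa [← hηd, le_div_iff₀ (by positivity)] at this
  obtain ⟨N0, hN0⟩ := arcp4 β hβ hM D hD (q3K D) (q3K_bd D) (q3K_per D) (Real.sqrt h1 / 4) (4 * Real.sqrt h2)
    (1 + 1 / h1) (4 * Real.sqrt h2) (by positivity) (by linarith) (by positivity) le_rfl
    (q3F h η (Real.sqrt h1 / 4)) (q3F_cont hh.cont η (by positivity))
    (q3F_van hh hη) (ε / 2) (by linarith)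
  obtain ⟨δ, hδ, hw⟩ := Metric.uniformContinuous_iff.1 (qdsW_uc η hη) (η / 4) (by linarith)
  have hw' : ∀ s s' : ℝ, |s - s'| < δ → |qdsW η s - qdsW η s'| < η / 4 := by
    intro s s' hs
    have := hw (a := s) (b := s') (by rw [Real.dist_eq]; exact hs)
    rwa [Real.dist_eq] at this
  refine ⟨max N0 1, fun N hN a ha => ?_⟩
  have hN1 : 1 ≤ N := (le_max_right _ _).trans hN
  have hN' : (1 : ℝ) ≤ N := by exact_mod_cast hN1
  have hl1 : Tendsto (fun Y : ℝ => (N : ℝ) / (h1 * Y)) atTop (nhds 0) := by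
    have h3 : Tendsto (fun Y : ℝ => ((N : ℝ) / h1) / Y) atTop (nhds 0) := tendsto_const_nhds.div_atTop tendsto_id
    refine h3.congr (fun Y => ?_)
    rw [div_div]
  have hl2 : Tendsto (fun Y : ℝ => h2 * (N : ℝ) / (h1 ^ 2 * Y)) atTop (nhds 0) := by
    have h3 : Tendsto (fun Y : ℝ => (h2 * (N : ℝ) / h1 ^ 2) / Y) atTop (nhds 0) :=
      tendsto_const_nhds.div_atTop tendsto_id
    refine h3.congr (fun Y => ?_)
    rw [div_div]
  filter_upwards [hN0 N ((le_max_left _ _).trans hN) a ha, hcntA N hN1, eventually_gt_atTop 0,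
    eventually_ge_atTop (N : ℝ), hl1.eventually_lt_const (by norm_num : (0 : ℝ) < 1), hl2.eventually_lt_const hδ,
    hl1.eventually_lt_const (by positivity : 0 < η / 2)] with Y hA hB hY0 hY1 hY2 hY3 hY4
  obtain ⟨g, hg⟩ : ∃ g, g = β (a * Y) := ⟨_, rfl⟩
  have hgb : ∀ z, ‖g z‖ ≤ 1 := by
    intro z
    rw [hg]
    exact hβ _ z
  rw [← hg] at hA ⊢
  rw [q4s_sum g D hh hY1 hY0]
  set P := PB (4 * Real.sqrt h2 * Real.sqrt Y) (4 * Real.sqrt h2 * Real.sqrt Y) with hP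
  rw [← sum_product' P P (fun V V' => q3K D V V' * (g V * (starRingEnd ℂ) (g V')) *
        ((q3F h η (Real.sqrt h1 / 4) (V.1 / Real.sqrt Y) (V'.1 / Real.sqrt Y) (dirn V)
          (Y * (dirn V' - dirn V) / N) : ℝ) : ℂ))] at hA
  have hdec : ∑ e ∈ P ×ˢ P, q3K D e.1 e.2 * (g e.1 * (starRingEnd ℂ) (g e.2)) * ((q3T h N Y e : ℝ) : ℂ) =
      ∑ e ∈ P ×ˢ P, q3K D e.1 e.2 * (g e.1 * (starRingEnd ℂ) (g e.2)) *
        ((q3F h η (Real.sqrt h1 / 4) (e.1.1 / Real.sqrt Y) (e.2.1 / Real.sqrt Y) (dirn e.1)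
          (Y * (dirn e.2 - dirn e.1) / N) : ℝ) : ℂ) +
      ∑ e ∈ P ×ˢ P, q3K D e.1 e.2 * (g e.1 * (starRingEnd ℂ) (g e.2)) *
        ((q3T h N Y e - q3F h η (Real.sqrt h1 / 4) (e.1.1 / Real.sqrt Y) (e.2.1 / Real.sqrt Y) (dirn e.1)
          (Y * (dirn e.2 - dirn e.1) / N) : ℝ) : ℂ) := by
    rw [← sum_add_distrib]
    apply sum_congr rfl
    intro e _
    rw [Complex.ofReal_sub]
    ring
  rw [hdec]
  refine (norm_add_le _ _).trans ?_
  have hsec : ‖∑ e ∈ P ×ˢ P, q3K D e.1 e.2 * (g e.1 * (starRingEnd ℂ) (g e.2)) *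
        ((q3T h N Y e - q3F h η (Real.sqrt h1 / 4) (e.1.1 / Real.sqrt Y) (e.2.1 / Real.sqrt Y) (dirn e.1)
          (Y * (dirn e.2 - dirn e.1) / N) : ℝ) : ℂ)‖ ≤
      ε / 2 * N * Y := by
    have hpt : ∀ e ∈ P ×ˢ P, ‖q3K D e.1 e.2 * (g e.1 * (starRingEnd ℂ) (g e.2)) *
        ((q3T h N Y e - q3F h η (Real.sqrt h1 / 4) (e.1.1 / Real.sqrt Y) (e.2.1 / Real.sqrt Y) (dirn e.1)
          (Y * (dirn e.2 - dirn e.1) / N) : ℝ) : ℂ)‖ ≤
        (if Real.sqrt h1 / 4 * Real.sqrt Y ≤ e.1.1 ∧ Real.sqrt h1 / 4 * Real.sqrt Y ≤ e.2.1 ∧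
          |dirn e.2 - dirn e.1| ≤ 1 / h1 * N / Y then η else 0) +
          (if q3Bad h2 η N Y e then 2 else 0) := by
      intro e he
      rw [mem_product, hP, mem_PB, mem_PB] at he
      obtain ⟨⟨⟨p1, -⟩, ⟨p2, -⟩, -⟩, ⟨⟨p4, -⟩, ⟨p5, -⟩, -⟩⟩ := he
      have hcm := q3_cmp hh hη hη1 hN1 hY0 hY2.le hY3 hY4.le hw' e p1 p2 p4 p5
      set DD := q3T h N Y e - q3F h η (Real.sqrt h1 / 4) (e.1.1 / Real.sqrt Y) (e.2.1 / Real.sqrt Y) (dirn e.1)
          (Y * (dirn e.2 - dirn e.1) / N) with hDD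
      have hKf : ‖q3K D e.1 e.2 * (g e.1 * (starRingEnd ℂ) (g e.2))‖ ≤ 1 := by
        rw [norm_mul, norm_mul, RCLike.norm_conj]
        exact mul_le_one₀ (q3K_bd1 D e.1 e.2) (by positivity) (mul_le_one₀ (hgb _) (norm_nonneg _) (hgb _))
      rw [norm_mul, Complex.norm_real, Real.norm_eq_abs]
      refine (mul_le_of_le_one_left (abs_nonneg _) hKf).trans ?_
      have t1 : (0 : ℝ) ≤ if q3Bad h2 η N Y e then 2 else 0 := by split_ifs <;> norm_num
      have t2 : (0 : ℝ) ≤ if Real.sqrt h1 / 4 * Real.sqrt Y ≤ e.1.1 ∧ Real.sqrt h1 / 4 * Real.sqrt Y ≤ e.2.1 ∧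
          |dirn e.2 - dirn e.1| ≤ 1 / h1 * N / Y then η else 0 := by
        split_ifs
        · exact hη.le
        · exact le_rfl
      rcases hcm with ⟨m1, m2⟩ | ⟨m1, m2, m3, m4, m5⟩ | m1
      · rw [if_pos m2]
        linarith
      · rw [if_pos ⟨m2, m3, m4⟩, if_pos m5]
        linarith
      · linarith
    refine (norm_sum_le _ _).trans ((sum_le_sum hpt).trans ?_)
    rw [sum_add_distrib, ← sum_filter, ← sum_filter, sum_const, sum_const, nsmul_eq_mul, nsmul_eq_mul]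
    have hb := q3_bad hC1 hη hη1 h2p hcnt (N := N) (Y := Y) hY1 (4 * Real.sqrt h2 * Real.sqrt Y)
    rw [← hP] at hb
    have hb2 : (((P ×ˢ P).filter (fun e : (ℕ × ℕ) × (ℕ × ℕ) => Real.sqrt h1 / 4 * Real.sqrt Y ≤ e.1.1 ∧
        Real.sqrt h1 / 4 * Real.sqrt Y ≤ e.2.1 ∧ |dirn e.2 - dirn e.1| ≤ 1 / h1 * N / Y)).card : ℝ) ≤ C * N * Y := by
      refine le_trans (le_of_eq ?_) hB
      congr
    have hb1 : (((P ×ˢ P).filter (fun e : (ℕ × ℕ) × (ℕ × ℕ) => q3Bad h2 η N Y e)).card : ℝ) ≤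
        η * N * (C1 * (h2 * Y)) := by
      refine le_trans (le_of_eq ?_) hb
      congr
    have t1 := mul_le_mul_of_nonneg_right hb2 hη.le
    have hNY : 0 ≤ (N : ℝ) * Y := by positivity
    have t3 : C * N * Y * η + η * N * (C1 * (h2 * Y)) * 2 = η * (4 * K) / 4 * ((N : ℝ) * Y) := by
      rw [hK]
      ring
    have t4 : η * (4 * K) / 4 * ((N : ℝ) * Y) ≤ ε / 4 * ((N : ℝ) * Y) :=
      mul_le_mul_of_nonneg_right (by linarith) hNY
    calc _ ≤ C * N * Y * η + η * N * (C1 * (h2 * Y)) * 2 := by linarith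
      _ = η * (4 * K) / 4 * ((N : ℝ) * Y) := t3
      _ ≤ ε / 4 * ((N : ℝ) * Y) := t4
      _ ≤ ε / 2 * ((N : ℝ) * Y) := mul_le_mul_of_nonneg_right (by linarith) hNY
      _ = ε / 2 * N * Y := by ring
  refine (add_le_add hA hsec).trans (le_of_eq ?_)
  ring

end Pool.Agent.SplL
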