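import Pool.Agent.Lib_MP_92ef0c_la.RedB4
import Pool.Agent.Lib_MP_92ef0c_la.DSum4
import Pool.Agent.Lib_MP_92ef0c_la.QdS4
import Pool.Agent.Lib_MP_92ef0c_la.LimH4
import Pool.Agent.Lib_MP_92ef0c_la.BHyp
import Pool.Agent.Lib_MP_92ef0c_lb.MVal2

/-!
# The replacement of both rows by the mean values
-/

set_option autoImplicit false

namespace Pool.Agent.SplL

open Finset Pool.Agent.Spl Pool.Agent.SplB Pool.Agent.GaussMR Pool.Agent.OmAll Pool.Agent.OmEq MeasureTheory Filter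

/-! ### The indicator of the numbers coprime to `Q` -/

theorem fs_f00 (Q : ℕ) : FS Q 1 (fun _ => f00 Q) := by
  refine ⟨fun _ m n => ?_, fun _ n => ?_, fun _ => ?_, fun _ p hp hd => ?_, ⟨1, one_pos, fun _ _ p hp hd _ => ?_⟩⟩
  · by_cases hm : m = 0
    · simp [f00, hm]
    by_cases hn : n = 0
    · simp [f00, hn]
    by_cases h1 : m.Coprime Q
    · by_cases h2 : n.Coprime Q
      · rw [f00_coprime (mul_ne_zero hm hn) (Nat.Coprime.mul_left h1 h2), f00_coprime hm h1, f00_coprime hn h2, one_mul]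
      · rw [f00_not (n := m * n) (fun h => h2 (Nat.Coprime.coprime_mul_left h)), f00_not h2, mul_zero]
    · rw [f00_not (n := m * n) (fun h => h1 (Nat.Coprime.coprime_mul_right h)), f00_not h1, zero_mul]
  · show ‖f00 Q n‖ ≤ 1
    unfold f00
    split_ifs <;> simp
  · show f00 Q 1 = 1
    exact f00_coprime one_ne_zero (Nat.coprime_one_left Q)
  · refine f00_not fun h => ?_
    exact (Nat.Prime.coprime_iff_not_dvd hp).1 h hd
  · exact f00_coprime hp.ne_zero ((Nat.Prime.coprime_iff_not_dvd hp).2 hd)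

theorem cj_f00 (Q : ℕ) : cj (f00 Q) = f00 Q := by
  funext n
  unfold cj f00
  split_ifs <;> simp

/-- zero off the numbers coprime to `Q` -/
theorem fs_zero {Q : ℕ} {z : ℂ} {f : ℝ → ℕ → ℂ} (hf : FS Q z f) (Y : ℝ) {n : ℕ} (h : ¬ n.Coprime Q) : f Y n = 0 := by
  obtain ⟨p, hp, h1, h2⟩ := Nat.Prime.not_coprime_iff_dvd.1 h
  obtain ⟨k, rfl⟩ := h1
  rw [hf.mul, hf.zr Y p hp h2, zero_mul]

/-! ### The centred product -/

/-- the centred product of two families, divided by two -/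
noncomputable def bet (Q : ℕ) (f g : ℝ → ℕ → ℂ) (X : ℝ) (z : ℕ × ℕ) : ℂ :=
  (1 / 2 : ℂ) * pf (f X) (g X) z + (-(mf Q f X * mf Q g X) / 2) * pf (f00 Q) (f00 Q) z

section

variable {q Q : ℕ} {z1 z2 z3 z4 : ℂ} {f1 f2 f g : ℝ → ℕ → ℂ}

theorem norm_pf_le {f g : ℕ → ℂ} (hf : ∀ n, ‖f n‖ ≤ 1) (hg : ∀ n, ‖g n‖ ≤ 1) (z : ℕ × ℕ) : ‖pf f g z‖ ≤ 1 := by
  unfold pf
  rw [norm_mul]
  exact mul_le_one₀ (hf _) (norm_nonneg _) (hg _)

theorem bet_mu (hf : FS Q z3 f) (hg : FS Q z4 g) (X : ℝ) : ‖-(mf Q f X * mf Q g X) / 2‖ ≤ 1 / 2 := by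
  rw [norm_div, norm_neg, norm_mul]
  have h1 := mul_le_one₀ (mf_le_one hf X) (norm_nonneg _) (mf_le_one hg X)
  have h2 : ‖(2 : ℂ)‖ = 2 := by simp
  rw [h2]
  linarith

theorem bet_le (hf : FS Q z3 f) (hg : FS Q z4 g) (X : ℝ) (z : ℕ × ℕ) : ‖bet Q f g X z‖ ≤ 1 := by
  unfold bet
  refine (norm_add_le _ _).trans ?_
  rw [norm_mul, norm_mul]
  have h1 := norm_pf_le (hf.bd X) (hg.bd X) z
  have h2 := norm_pf_le ((fs_f00 Q).bd X) ((fs_f00 Q).bd X) z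
  have h3 := bet_mu hf hg X
  have h4 : ‖(1 / 2 : ℂ)‖ = 1 / 2 := by simp
  rw [h4]
  have h5 : ‖-(mf Q f X * mf Q g X) / 2‖ * ‖pf (f00 Q) (f00 Q) z‖ ≤ 1 / 2 * 1 :=
    mul_le_mul h3 h2 (norm_nonneg _) (by norm_num)
  linarith

theorem bet_zero (hf : FS Q z3 f) (hg : FS Q z4 g) (X : ℝ) (z : ℕ × ℕ) (h : ¬ (z.1.Coprime Q ∧ z.2.Coprime Q)) :
    bet Q f g X z = 0 := by
  have key : ∀ {w w' : ℂ} {u v : ℝ → ℕ → ℂ}, FS Q w u → FS Q w' v → pf (u X) (v X) z = 0 := by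
    intro w w' u v hu hv
    unfold pf
    by_cases h1 : z.1.Coprime Q
    · rw [fs_zero hv X (fun h2 => h ⟨h1, h2⟩), mul_zero]
    · rw [fs_zero hu X h1, zero_mul]
  unfold bet
  rw [key hf hg, key (fs_f00 Q) (fs_f00 Q), mul_zero, mul_zero, add_zero]

theorem cjr_bet (X : ℝ) : cjr (bet Q f g X) = fun z => (1 / 2 : ℂ) * pf (cj (f X)) (cj (g X)) z +
    (starRingEnd ℂ) (-(mf Q f X * mf Q g X) / 2) * pf (f00 Q) (f00 Q) z := by
  funext z
  unfold cjr bet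
  rw [map_add, map_mul, map_mul]
  have h1 : (starRingEnd ℂ) (pf (f X) (g X) z) = pf (cj (f X)) (cj (g X)) z := congrFun (cjr_pf (f X) (g X)) z
  have h2 : (starRingEnd ℂ) (pf (f00 Q) (f00 Q) z) = pf (f00 Q) (f00 Q) z := by
    have := congrFun (cjr_pf (f00 Q) (f00 Q)) z
    rw [cj_f00] at this
    exact this
  rw [h1, h2]
  congr 2
  rw [map_div₀, map_one, map_ofNat]

theorem bet_mr (B : BS) (hq : 0 < q) (hQ : 0 < Q) (hz3 : z3 ^ q = 1) (hz4 : z4 ^ q = 1) (hf : FS Q z3 f) (hg : FS Q z4 g) :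
    MRG (bet Q f g) := by
  have h1 : MRB Q f g (fun Y => mf Q f Y * mf Q g Y) := by
    refine B.mrb q Q hq hQ z3 z4 hz3 hz4 f g hf hg _ ?_
    simp only [sub_self]
    exact tendsto_const_nhds
  have h2 : MRG (fun X z => pf (f X) (g X) z - mf Q f X * mf Q g X * pf (f00 Q) (f00 Q) z) := h1
  have h3 := h2.smul (1 / 2) (by simp; norm_num)
  have h4 : bet Q f g = fun X z => (1 / 2 : ℂ) * (pf (f X) (g X) z - mf Q f X * mf Q g X * pf (f00 Q) (f00 Q) z) := by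
    funext X z
    unfold bet
    ring
  rw [h4]
  exact h3

theorem norm_root (hq : 0 < q) {z : ℂ} (hz : z ^ q = 1) : ‖z‖ = 1 := Complex.norm_eq_one_of_pow_eq_one hz hq.ne'

theorem norm_conj_root (hq : 0 < q) {z : ℂ} (hz : z ^ q = 1) : ‖(starRingEnd ℂ) z‖ = 1 := by
  rw [RCLike.norm_conj]
  exact norm_root hq hz

private theorem half_le (X : ℝ) : ‖(fun _ : ℝ => (1 / 2 : ℂ)) X‖ ≤ 1 := by
  simp
  norm_num

/-- `TVR` for a product and a centred product -/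
theorem tvr_bet (hq : 0 < q) (hQ : 0 < Q) (hz1 : z1 ^ q = 1) (hz2 : z2 ^ q = 1) (hz3 : z3 ^ q = 1) (hz4 : z4 ^ q = 1)
    (hf1 : FS Q z1 f1) (hf2 : FS Q z2 f2) (hf : FS Q z3 f) (hg : FS Q z4 g) :
    TVR (fun X => pf (f1 X) (f2 X)) (bet Q f g) := by
  have h00 := FS.ft hQ (fs_f00 Q)
  have e1 := tvr_pf Q.primeFactors f1 f2 f g z1 z2 z3 z4 (FS.ft hQ hf1) (FS.ft hQ hf2) (FS.ft hQ hf) (FS.ft hQ hg)
    (norm_root hq hz1) (norm_root hq hz2) (norm_root hq hz3) (norm_root hq hz4)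
  have e2 := tvr_pf Q.primeFactors f1 f2 _ _ z1 z2 1 1 (FS.ft hQ hf1) (FS.ft hQ hf2) h00 h00
    (norm_root hq hz1) (norm_root hq hz2) norm_one norm_one
  exact e1.comb_right e2 (fun _ => 1 / 2) (fun X => -(mf Q f X * mf Q g X) / 2) 1 half_le
    (fun X => (bet_mu hf hg X).trans (by norm_num))

/-- `TVR` for the centred product and its conjugate -/
theorem tvr_bb (hq : 0 < q) (hQ : 0 < Q) (hz3 : z3 ^ q = 1) (hz4 : z4 ^ q = 1)
    (hf : FS Q z3 f) (hg : FS Q z4 g) : TVR (bet Q f g) (fun X => cjr (bet Q f g X)) := by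
  have h00 := FS.ft hQ (fs_f00 Q)
  have hF := FS.ft hQ hf
  have hG := FS.ft hQ hg
  have key : ∀ (w w' : ℂ) (u v : ℝ → ℕ → ℂ), FT u Q.primeFactors w → FT v Q.primeFactors w' → ‖w‖ = 1 → ‖w'‖ = 1 →
      TVR (fun X => pf (u X) (v X)) (fun X => cjr (bet Q f g X)) := by
    intro w w' u v hu hv hw hw'
    have e1 := tvr_pf Q.primeFactors u v _ _ w w' _ _ hu hv hF.conj hG.conj hw hw' (norm_conj_root hq hz3)
      (norm_conj_root hq hz4)
    have e2 := tvr_pf Q.primeFactors u v _ _ w w' 1 1 hu hv h00 h00 hw hw' norm_one norm_one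
    have e3 := e1.comb_right e2 (fun _ => 1 / 2) (fun X => (starRingEnd ℂ) (-(mf Q f X * mf Q g X) / 2)) 1 half_le
      (fun X => by rw [RCLike.norm_conj]; exact (bet_mu hf hg X).trans (by norm_num))
    simp only [cjr_bet]
    exact e3
  have e1 := key z3 z4 f g hF hG (norm_root hq hz3) (norm_root hq hz4)
  have e2 := key 1 1 _ _ h00 h00 norm_one norm_one
  exact e1.comb_left e2 (fun _ => 1 / 2) (fun X => -(mf Q f X * mf Q g X) / 2) 1 half_le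
    (fun X => (bet_mu hf hg X).trans (by norm_num))

/-- `CHR` for the centred product and its conjugate -/
theorem chr_bb (hq : 0 < q) (hQ : 0 < Q) (hz3 : z3 ^ q = 1) (hz4 : z4 ^ q = 1)
    (hf : FS Q z3 f) (hg : FS Q z4 g) : CHR (bet Q f g) (fun X => cjr (bet Q f g X)) := by
  have h00 := FS.ft hQ (fs_f00 Q)
  have hF := FS.ft hQ hf
  have hG := FS.ft hQ hg
  have key : ∀ (w w' : ℂ) (u v : ℝ → ℕ → ℂ), FT u Q.primeFactors w → FT v Q.primeFactors w' → ‖w‖ = 1 →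
      CHR (fun X => pf (u X) (v X)) (fun X => cjr (bet Q f g X)) := by
    intro w w' u v hu hv hw
    have e1 := chr_pf Q.primeFactors u v _ _ w w' _ _ hu hv hF.conj hG.conj hw (norm_conj_root hq hz4)
    have e2 := chr_pf Q.primeFactors u v _ _ w w' 1 1 hu hv h00 h00 hw norm_one
    have e3 := e1.comb_right e2 (fun _ => 1 / 2) (fun X => (starRingEnd ℂ) (-(mf Q f X * mf Q g X) / 2)) 1 half_le
      (fun X => by rw [RCLike.norm_conj]; exact (bet_mu hf hg X).trans (by norm_num))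
    simp only [cjr_bet]
    exact e3
  have e1 := key z3 z4 f g hF hG (norm_root hq hz3)
  have e2 := key 1 1 _ _ h00 h00 norm_one
  exact e1.comb_left e2 (fun _ => 1 / 2) (fun X => -(mf Q f X * mf Q g X) / 2) 1 half_le
    (fun X => (bet_mu hf hg X).trans (by norm_num))

/-- the correlations of the centred second rows are small -/
theorem gms_bet (B : BS) (hq : 0 < q) (h0 n0 : ℕ) (hQ : HQ h0 Q n0) (hz3 : z3 ^ q = 1) (hz4 : z4 ^ q = 1)
    (hf : FS Q z3 f) (hg : FS Q z4 g) : GmSmall4 h0 Q n0 (bet Q f g) :=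
  redB4 h0 Q n0 hQ (bet Q f g) (bet_le hf hg) (chr_bb hq hQ.posQ hz3 hz4 hf hg) (tvr_bb hq hQ.posQ hz3 hz4 hf hg)
    (bet_zero hf hg) (dsum4 _ (bet_le hf hg) (qds4 _ (bet_le hf hg) (bet_mr B hq hQ.posQ hz3 hz4 hf hg)) h0 Q hQ.pos hQ.posQ)

/-- replacement of the second row -/
theorem repl2 (B : BS) (hq : 0 < q) (h0 n0 : ℕ) (hQ : HQ h0 Q n0) (hz1 : z1 ^ q = 1) (hz2 : z2 ^ q = 1) (hz3 : z3 ^ q = 1)
    (hz4 : z4 ^ q = 1) (hf1 : FS Q z1 f1) (hf2 : FS Q z2 f2) (hf : FS Q z3 f) (hg : FS Q z4 g) (b : ℝ)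
    (W : ℝ → ℝ → ℝ → ℂ) (hW : TS b W) (a : ℝ) (ha : 0 < a) :
    Tendsto (fun X : ℝ => (∑ e ∈ SQ h0 Q n0 (b * X), (F4 (f1 (a * X)) (f2 (a * X)) (f (a * X)) (g (a * X)) e -
      mf Q f (a * X) * mf Q g (a * X) * F4 (f1 (a * X)) (f2 (a * X)) (f00 Q) (f00 Q) e) *
      W (yS e / X) (tS e) (uS e)) / X) atTop (nhds 0) := by
  have h1 := sm4 h0 Q n0 hQ (fun X => pf (f1 X) (f2 X)) (bet Q f g) (fun X => norm_pf_le (hf1.bd X) (hf2.bd X))
    (bet_le hf hg) (tvr_bet hq hQ.posQ hz1 hz2 hz3 hz4 hf1 hf2 hf hg) (gms_bet B hq h0 n0 hQ hz3 hz4 hf hg) b W hW a ha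
  have h2 := h1.const_mul 2
  rw [mul_zero] at h2
  refine h2.congr fun X => ?_
  rw [← mul_div_assoc, mul_sum]
  congr 1
  refine sum_congr rfl fun e _ => ?_
  unfold F4 R2 bet pf
  ring

end

/-! ### The swap of the rows -/

/-- `(a b; c d) ↦ (d c; b a)` -/
def swp (e : Q4) : Q4 := ⟨e.d, e.c, e.b, e.a⟩

theorem swp_swp (e : Q4) : swp (swp e) = e := rfl

theorem swp_mem {h0 Q n0 : ℕ} {x : ℝ} {e : Q4} (h : e ∈ SQ h0 Q n0 x) : swp e ∈ SQ h0 Q n0 x := by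
  rw [mem_SQ] at h ⊢
  obtain ⟨⟨⟨h1, h2, h3, h4, h5, h6, h7⟩, h8⟩, h9⟩ := h
  refine ⟨⟨⟨?_, h5, h4, h3, h2, h7.symm, h6.symm⟩, ?_⟩, ?_⟩
  · show e.d * e.a = e.c * e.b + h0
    rw [Nat.mul_comm e.d, Nat.mul_comm e.c]
    exact h1
  · unfold yS swp at *
    simp only
    rw [mul_comm]
    exact h8
  · show e.c * e.b ≡ n0 [MOD Q]
    rw [Nat.mul_comm]
    exact h9

theorem sum_swp {h0 Q n0 : ℕ} {x : ℝ} (F : Q4 → ℂ) : ∑ e ∈ SQ h0 Q n0 x, F e = ∑ e ∈ SQ h0 Q n0 x, F (swp e) :=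
  Finset.sum_nbij' swp swp (fun _ h => swp_mem h) (fun _ h => swp_mem h) (fun _ _ => rfl) (fun _ _ => rfl)
    (fun _ _ => rfl)

theorem ts_neg {b : ℝ} {W : ℝ → ℝ → ℝ → ℂ} (hW : TS b W) : TS b (fun y t u => W y (-t) (-u)) := by
  have hc : Continuous (fun v : ℝ × ℝ × ℝ => ((v.1, -v.2.1, -v.2.2) : ℝ × ℝ × ℝ)) := by fun_prop
  refine ⟨hW.cont.comp hc, ?_, fun y t u hy => hW.lo y _ _ hy, fun y t u hy => hW.hi y _ _ hy⟩
  obtain ⟨R, -, hR⟩ := hW.bdd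
  refine Ctw3P.hcs3 _ R fun y t u h => ?_
  have h1 := hR y (-t) (-u) h
  rwa [abs_neg, abs_neg] at h1

section

variable {q Q : ℕ} {z1 z2 z3 z4 : ℂ} {f1 f2 f3 f4 : ℝ → ℕ → ℂ}

/-- replacement of the first row -/
theorem repl1 (B : BS) (hq : 0 < q) (h0 n0 : ℕ) (hQ : HQ h0 Q n0) (hz1 : z1 ^ q = 1) (hz2 : z2 ^ q = 1) (hf1 : FS Q z1 f1)
    (hf2 : FS Q z2 f2) (b : ℝ) (W : ℝ → ℝ → ℝ → ℂ) (hW : TS b W) (a : ℝ) (ha : 0 < a) :
    Tendsto (fun X : ℝ => (∑ e ∈ SQ h0 Q n0 (b * X), (F4 (f1 (a * X)) (f2 (a * X)) (f00 Q) (f00 Q) e -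
      mf Q f1 (a * X) * mf Q f2 (a * X) * F4 (f00 Q) (f00 Q) (f00 Q) (f00 Q) e) *
      W (yS e / X) (tS e) (uS e)) / X) atTop (nhds 0) := by
  have h1 := repl2 B hq h0 n0 hQ (one_pow q) (one_pow q) hz2 hz1 (fs_f00 Q) (fs_f00 Q) hf2 hf1 b _ (ts_neg hW) a ha
  refine h1.congr fun X => ?_
  congr 1
  rw [sum_swp]
  refine sum_congr rfl fun e _ => ?_
  have e1 : yS (swp e) = yS e := mul_comm _ _
  have e2 : tS (swp e) = -tS e := by
    unfold tS swp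
    ring
  have e3 : uS (swp e) = -uS e := by
    unfold uS swp
    ring
  rw [e1, e2, e3, neg_neg, neg_neg]
  unfold F4 swp
  ring

/-- all four entries are coprime to `Q` -/
theorem f4_one (h0 n0 : ℕ) (hQ : HQ h0 Q n0) {x : ℝ} {e : Q4} (he : e ∈ SQ h0 Q n0 x) :
    F4 (f00 Q) (f00 Q) (f00 Q) (f00 Q) e = 1 := by
  rw [mem_SQ] at he
  obtain ⟨⟨⟨h1, h2, h3, h4, h5, h6, h7⟩, h8⟩, h9⟩ := he
  have hbc : (e.b * e.c).Coprime Q := by
    have h10 : (e.b * e.c).gcd Q = n0.gcd Q := Nat.ModEq.gcd_eq h9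
    unfold Nat.Coprime
    rw [h10]
    exact hQ.cop
  have had : (e.a * e.d).Coprime Q := by
    have h10 : e.a * e.d ≡ n0 + h0 [MOD Q] := by
      rw [h1]
      exact Nat.ModEq.add_right h0 h9
    have h11 : (e.a * e.d).gcd Q = (n0 + h0).gcd Q := Nat.ModEq.gcd_eq h10
    unfold Nat.Coprime
    rw [h11]
    exact hQ.cop'
  unfold F4
  rw [f00_coprime h2.ne' (Nat.Coprime.coprime_mul_right had), f00_coprime h3.ne' (Nat.Coprime.coprime_mul_right hbc),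
    f00_coprime h4.ne' (Nat.Coprime.coprime_mul_left hbc), f00_coprime h5.ne' (Nat.Coprime.coprime_mul_left had)]
  norm_num

/-- the main theorem, smooth sums: all four entries are replaced by their mean values -/
theorem main4 (B : BS) (hq : 0 < q) (h0 n0 : ℕ) (hQ : HQ h0 Q n0) (hz1 : z1 ^ q = 1) (hz2 : z2 ^ q = 1) (hz3 : z3 ^ q = 1)
    (hz4 : z4 ^ q = 1) (hf1 : FS Q z1 f1) (hf2 : FS Q z2 f2) (hf3 : FS Q z3 f3) (hf4 : FS Q z4 f4) (b : ℝ)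
    (W : ℝ → ℝ → ℝ → ℂ) (hW : TS b W) (a : ℝ) (ha : 0 < a) :
    Tendsto (fun X : ℝ => (∑ e ∈ SQ h0 Q n0 (b * X), F4 (f1 (a * X)) (f2 (a * X)) (f3 (a * X)) (f4 (a * X)) e *
      W (yS e / X) (tS e) (uS e) - mf Q f1 (a * X) * mf Q f2 (a * X) * mf Q f3 (a * X) * mf Q f4 (a * X) *
      ∑ e ∈ SQ h0 Q n0 (b * X), W (yS e / X) (tS e) (uS e)) / X) atTop (nhds 0) := by
  have h1 := repl2 B hq h0 n0 hQ hz1 hz2 hz3 hz4 hf1 hf2 hf3 hf4 b W hW a ha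
  have h2 := bdd_mul_zero (s := fun X => mf Q f3 (a * X) * mf Q f4 (a * X)) (C := 1)
    (fun X => by
      rw [norm_mul]
      exact mul_le_one₀ (mf_le_one hf3 _) (norm_nonneg _) (mf_le_one hf4 _))
    (repl1 B hq h0 n0 hQ hz1 hz2 hf1 hf2 b W hW a ha)
  have h3 := h1.add h2
  rw [add_zero] at h3
  refine h3.congr fun X => ?_
  rw [← mul_div_assoc, ← add_div, mul_sum, ← sum_add_distrib, mul_sum, ← sum_sub_distrib]
  congr 1
  refine sum_congr rfl fun e he => ?_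
  rw [f4_one h0 n0 hQ he]
  ring

end

end Pool.Agent.SplL
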