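import Pool.Agent.Lib_MP_92ef0c_lb.FDefs
import Pool.Agent.Lib_MP_92ef0c_sp.Sharp3

/-!
# Sharp cut-offs for families
-/

set_option autoImplicit false

namespace Pool.Agent.SplL

open Finset Pool.Agent.Spl Pool.Agent.SplB Pool.Agent.GaussMR Pool.Agent.OmAll Pool.Agent.OmEq MeasureTheory Filter

/-- copy of `sharp3` for a family of functions -/
theorem sharp4 (n : ℕ) (hn : 0 < n) (κ : ℝ) (hκ : ∀ (b : ℝ) (Ψ : ℝ → ℝ → ℝ → ℝ), TR b Ψ →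
      Tendsto (fun X : ℝ => (∑ e ∈ SN n (b * X), Ψ (yS e / X) (tS e) (uS e)) / X) atTop (nhds (κ * ∫ y, ∫ t, ∫ u, Ψ y t u)))
    (Φ : ℝ → Q4 → ℂ) (hΦ : ∀ X e, ‖Φ X e‖ ≤ 1) (L : ℂ) (H : ∀ (b : ℝ) (W : ℝ → ℝ → ℝ → ℂ), TS b W →
      Tendsto (fun X : ℝ => (∑ e ∈ SN n (b * X), Φ X e * W (yS e / X) (tS e) (uS e)) / X) atTop
        (nhds (L * ∫ y, ∫ t, ∫ u, W y t u)))
    (t1 t2 u1 u2 : ℝ) (ht : t1 ≤ t2) (hu : u1 ≤ u2) :
    Tendsto (fun X : ℝ => (∑ e ∈ (SN n X).filter (fun e => (t1 ≤ tS e ∧ tS e ≤ t2) ∧ (u1 ≤ uS e ∧ uS e ≤ u2)), Φ X e) / X)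
      atTop (nhds (L * (((t2 - t1) * (u2 - u1) : ℝ) : ℂ))) := by
  set B : ℝ := |t1| + |t2| + |u1| + |u2| + 1 with hB
  have b1 : -B ≤ t1 - 1 := by
    have := neg_abs_le t1
    have := abs_nonneg t2
    have := abs_nonneg u1
    have := abs_nonneg u2
    linarith
  have b2 : t2 + 1 ≤ B := by
    have := le_abs_self t2
    have := abs_nonneg t1
    have := abs_nonneg u1
    have := abs_nonneg u2
    linarith
  have b3 : -B ≤ u1 - 1 := by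
    have := neg_abs_le u1
    have := abs_nonneg t2
    have := abs_nonneg t1
    have := abs_nonneg u2
    linarith
  have b4 : u2 + 1 ≤ B := by
    have := le_abs_self u2
    have := abs_nonneg t2
    have := abs_nonneg t1
    have := abs_nonneg u1
    linarith
  obtain ⟨C, hC, hcnt⟩ := cnt3 B
  set T : ℝ := t2 - t1 with hT
  set U : ℝ := u2 - u1 with hU
  have hT0 : 0 ≤ T := by linarith
  have hU0 : 0 ≤ U := by linarith
  set M : ℝ := (T + 2) * (U + 2) with hM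
  have hM0 : 0 < M := by positivity
  rw [Metric.tendsto_nhds]
  intro ε hε
  -- choice of `δ`
  set R : ℝ := |κ| * 15 * M + C + ‖L‖ * 3 * M + 1 with hR
  have hR0 : 0 < R := by positivity
  obtain ⟨δ, hδ, hδ1, hδε⟩ : ∃ δ : ℝ, 0 < δ ∧ δ ≤ 1 / 2 ∧ R * δ ≤ ε / 4 := by
    refine ⟨min (1 / 2) (ε / (4 * R)), lt_min (by norm_num) (by positivity), min_le_left _ _, ?_⟩
    calc R * min (1 / 2) (ε / (4 * R)) ≤ R * (ε / (4 * R)) :=
          mul_le_mul_of_nonneg_left (min_le_right _ _) hR0.le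
      _ = ε / 4 := by field_simp
  -- the smooth sum
  have hW : TR 3 (sh3_b δ 1 (δ / 2) t1 t2 δ u1 u2 δ) := sh3_TR (by linarith) hδ hδ (by linarith) (by linarith)
  have hWc : TS 3 (fun y t u => ((sh3_b δ 1 (δ / 2) t1 t2 δ u1 u2 δ y t u : ℝ) : ℂ)) := by
    refine ⟨Complex.continuous_ofReal.comp hW.cont, hW.supp.comp_left (g := fun z : ℝ => (z : ℂ)) (by simp), ?_, ?_⟩
    · intro y t u hy
      rw [hW.lo y t u hy, Complex.ofReal_zero]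
    · intro y t u hy
      rw [hW.hi y t u hy, Complex.ofReal_zero]
  have h1 := H 3 _ hWc
  have hI : (∫ y, ∫ t, ∫ u, ((sh3_b δ 1 (δ / 2) t1 t2 δ u1 u2 δ y t u : ℝ) : ℂ)) =
      ((∫ y, ∫ t, ∫ u, sh3_b δ 1 (δ / 2) t1 t2 δ u1 u2 δ y t u : ℝ) : ℂ) := by
    simp only [integral_complex_ofReal]
  rw [hI] at h1
  set I : ℝ := ∫ y, ∫ t, ∫ u, sh3_b δ 1 (δ / 2) t1 t2 δ u1 u2 δ y t u with hIdef
  have hI1 : |I - T * U| ≤ 3 * δ * M := by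
    rw [hIdef, sh3_b_integral]
    have i1 := sh3_tz_ub (a := δ) (b := 1) (δ := δ / 2) (by linarith) (by linarith)
    have i2 := sh3_tz_ub hδ ht
    have i3 := sh3_tz_ub hδ hu
    have j1 := sh3_tz_lb (a := δ) (b := 1) (δ := δ / 2) (by linarith) (by linarith)
    have j2 := sh3_tz_lb hδ ht
    have j3 := sh3_tz_lb hδ hu
    exact sh3_I hδ hδ1 hT0 hU0 (by linarith) (by linarith) i2 i3 j2 j3
  -- the error function
  have G1 : TR 3 (sh3_b 1 (1 + δ) δ (t1 - δ) (t2 + δ) δ (u1 - δ) (u2 + δ) δ) :=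
    sh3_TR hδ hδ hδ (by linarith) (by linarith)
  have G2 : TR 3 (sh3_b δ (1 + δ) (δ / 2) (t1 - δ) t1 δ (u1 - δ) (u2 + δ) δ) :=
    sh3_TR (by linarith) hδ hδ (by linarith) (by linarith)
  have G3 : TR 3 (sh3_b δ (1 + δ) (δ / 2) t2 (t2 + δ) δ (u1 - δ) (u2 + δ) δ) :=
    sh3_TR (by linarith) hδ hδ (by linarith) (by linarith)
  have G4 : TR 3 (sh3_b δ (1 + δ) (δ / 2) (t1 - δ) (t2 + δ) δ (u1 - δ) u1 δ) :=
    sh3_TR (by linarith) hδ hδ (by linarith) (by linarith)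
  have G5 : TR 3 (sh3_b δ (1 + δ) (δ / 2) (t1 - δ) (t2 + δ) δ u2 (u2 + δ) δ) :=
    sh3_TR (by linarith) hδ hδ (by linarith) (by linarith)
  have k1 := sh3_b_ub (c1 := 3 * δ) (c2 := T + 2) (c3 := U + 2) (a1 := 1) (b1 := 1 + δ) (e1 := δ) (a2 := t1 - δ)
    (b2 := t2 + δ) (e2 := δ) (a3 := u1 - δ) (b3 := u2 + δ) (e3 := δ) hδ hδ hδ (by linarith) (by linarith)
    (by linarith) (by linarith) (by linarith) (by linarith)
  have k2 := sh3_b_ub (c1 := 2) (c2 := 3 * δ) (c3 := U + 2) (a1 := δ) (b1 := 1 + δ) (e1 := δ / 2) (a2 := t1 - δ)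
    (b2 := t1) (e2 := δ) (a3 := u1 - δ) (b3 := u2 + δ) (e3 := δ) (by linarith) hδ hδ (by linarith) (by linarith)
    (by linarith) (by linarith) (by linarith) (by linarith)
  have k3 := sh3_b_ub (c1 := 2) (c2 := 3 * δ) (c3 := U + 2) (a1 := δ) (b1 := 1 + δ) (e1 := δ / 2) (a2 := t2)
    (b2 := t2 + δ) (e2 := δ) (a3 := u1 - δ) (b3 := u2 + δ) (e3 := δ) (by linarith) hδ hδ (by linarith) (by linarith)
    (by linarith) (by linarith) (by linarith) (by linarith)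
  have k4 := sh3_b_ub (c1 := 2) (c2 := T + 2) (c3 := 3 * δ) (a1 := δ) (b1 := 1 + δ) (e1 := δ / 2) (a2 := t1 - δ)
    (b2 := t2 + δ) (e2 := δ) (a3 := u1 - δ) (b3 := u1) (e3 := δ) (by linarith) hδ hδ (by linarith) (by linarith)
    (by linarith) (by linarith) (by linarith) (by linarith)
  have k5 := sh3_b_ub (c1 := 2) (c2 := T + 2) (c3 := 3 * δ) (a1 := δ) (b1 := 1 + δ) (e1 := δ / 2) (a2 := t1 - δ)
    (b2 := t2 + δ) (e2 := δ) (a3 := u2) (b3 := u2 + δ) (e3 := δ) (by linarith) hδ hδ (by linarith) (by linarith)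
    (by linarith) (by linarith) (by linarith) (by linarith)
  have p1 := sh3_b_int_nonneg (a1 := 1) (b1 := 1 + δ) (e1 := δ) (a2 := t1 - δ) (b2 := t2 + δ) (e2 := δ)
    (a3 := u1 - δ) (b3 := u2 + δ) (e3 := δ) hδ hδ hδ (by linarith) (by linarith) (by linarith)
  have p2 := sh3_b_int_nonneg (a1 := δ) (b1 := 1 + δ) (e1 := δ / 2) (a2 := t1 - δ) (b2 := t1) (e2 := δ)
    (a3 := u1 - δ) (b3 := u2 + δ) (e3 := δ) (by linarith) hδ hδ (by linarith) (by linarith) (by linarith)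
  have p3 := sh3_b_int_nonneg (a1 := δ) (b1 := 1 + δ) (e1 := δ / 2) (a2 := t2) (b2 := t2 + δ) (e2 := δ)
    (a3 := u1 - δ) (b3 := u2 + δ) (e3 := δ) (by linarith) hδ hδ (by linarith) (by linarith) (by linarith)
  have p4 := sh3_b_int_nonneg (a1 := δ) (b1 := 1 + δ) (e1 := δ / 2) (a2 := t1 - δ) (b2 := t2 + δ) (e2 := δ)
    (a3 := u1 - δ) (b3 := u1) (e3 := δ) (by linarith) hδ hδ (by linarith) (by linarith) (by linarith)
  have p5 := sh3_b_int_nonneg (a1 := δ) (b1 := 1 + δ) (e1 := δ / 2) (a2 := t1 - δ) (b2 := t2 + δ) (e2 := δ)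
    (a3 := u2) (b3 := u2 + δ) (e3 := δ) (by linarith) hδ hδ (by linarith) (by linarith) (by linarith)
  have hsum := ((((hκ 3 _ G1).add (hκ 3 _ G2)).add (hκ 3 _ G3)).add (hκ 3 _ G4)).add (hκ 3 _ G5)
  set J1 := ∫ y, ∫ t, ∫ u, sh3_b 1 (1 + δ) δ (t1 - δ) (t2 + δ) δ (u1 - δ) (u2 + δ) δ y t u
  set J2 := ∫ y, ∫ t, ∫ u, sh3_b δ (1 + δ) (δ / 2) (t1 - δ) t1 δ (u1 - δ) (u2 + δ) δ y t u
  set J3 := ∫ y, ∫ t, ∫ u, sh3_b δ (1 + δ) (δ / 2) t2 (t2 + δ) δ (u1 - δ) (u2 + δ) δ y t u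
  set J4 := ∫ y, ∫ t, ∫ u, sh3_b δ (1 + δ) (δ / 2) (t1 - δ) (t2 + δ) δ (u1 - δ) u1 δ y t u
  set J5 := ∫ y, ∫ t, ∫ u, sh3_b δ (1 + δ) (δ / 2) (t1 - δ) (t2 + δ) δ u2 (u2 + δ) δ y t u
  have hJ0 : 0 ≤ J1 + J2 + J3 + J4 + J5 := by linarith
  have hJ : J1 + J2 + J3 + J4 + J5 ≤ 15 * δ * M := by
    exact sh3_J hδ hT0 hU0 k1 k2 k3 k4 k5
  have hJκ : κ * J1 + κ * J2 + κ * J3 + κ * J4 + κ * J5 < |κ| * 15 * M * δ + ε / 8 := by
    have e1 : κ * J1 + κ * J2 + κ * J3 + κ * J4 + κ * J5 = κ * (J1 + J2 + J3 + J4 + J5) := by ring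
    rw [e1]
    have e2 : κ * (J1 + J2 + J3 + J4 + J5) ≤ |κ| * (15 * δ * M) :=
      (mul_le_mul_of_nonneg_right (le_abs_self κ) hJ0).trans (mul_le_mul_of_nonneg_left hJ (abs_nonneg κ))
    have e3 : |κ| * (15 * δ * M) = |κ| * 15 * M * δ := by ring
    linarith
  have h5 := (tendsto_order.1 hsum).2 _ hJκ
  have h6 := (Metric.tendsto_nhds.1 h1) (ε / 4) (by linarith)
  filter_upwards [h5, h6, eventually_gt_atTop 0, eventually_ge_atTop ((n : ℝ) / δ)] with X g1 g2 hX hXn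
  have hcnt' := hcnt n hn (δ * X) (by rw [div_le_iff₀ hδ] at hXn; linarith)
  have g3 := sh3_diff n (Φ X) (hΦ X) t1 t2 u1 u2 δ B X hδ hδ1 hX b1 b2 b3 b4
  set F := ∑ e ∈ (SN n X).filter (fun e => (t1 ≤ tS e ∧ tS e ≤ t2) ∧ (u1 ≤ uS e ∧ uS e ≤ u2)), Φ X e with hF
  set K := ∑ e ∈ SN n (3 * X), Φ X e * ((sh3_b δ 1 (δ / 2) t1 t2 δ u1 u2 δ (yS e / X) (tS e) (uS e) : ℝ) : ℂ) with hK
  have g4 : (F / X - L * ((T * U : ℝ) : ℂ) : ℂ) = (F - K) / X + (K / X - L * (I : ℂ)) + L * ((I - T * U : ℝ) : ℂ) := by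
    push_cast
    ring
  rw [dist_eq_norm, g4]
  have g5 : ‖(F - K) / (X : ℂ)‖ ≤ C * δ + (|κ| * 15 * M * δ + ε / 8) := by
    rw [norm_div, Complex.norm_real, Real.norm_eq_abs, abs_of_pos hX, div_le_iff₀ hX]
    refine g3.trans ?_
    have q1 : ∑ e ∈ SN n (3 * X), sh3_G t1 t2 u1 u2 δ (yS e / X) (tS e) (uS e) ≤
        (|κ| * 15 * M * δ + ε / 8) * X := by
      unfold sh3_G
      rw [Finset.sum_add_distrib, Finset.sum_add_distrib, Finset.sum_add_distrib, Finset.sum_add_distrib]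
      rw [← add_div, ← add_div, ← add_div, ← add_div, div_lt_iff₀ hX] at g1
      exact g1.le
    calc _ ≤ C * (δ * X) + (|κ| * 15 * M * δ + ε / 8) * X := add_le_add hcnt' q1
      _ = (C * δ + (|κ| * 15 * M * δ + ε / 8)) * X := by ring
  have g6 : ‖L * ((I - T * U : ℝ) : ℂ)‖ ≤ ‖L‖ * 3 * M * δ := by
    rw [norm_mul, Complex.norm_real, Real.norm_eq_abs]
    calc ‖L‖ * |I - T * U| ≤ ‖L‖ * (3 * δ * M) := mul_le_mul_of_nonneg_left hI1 (norm_nonneg _)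
      _ = ‖L‖ * 3 * M * δ := by ring
  have g7 : ‖(K / (X : ℂ) - L * (I : ℂ))‖ < ε / 4 := by
    rw [← dist_eq_norm]
    exact g2
  have g8 : R * δ = |κ| * 15 * M * δ + C * δ + ‖L‖ * 3 * M * δ + δ := by
    rw [hR]
    ring
  calc ‖(F - K) / (X : ℂ) + (K / X - L * (I : ℂ)) + L * ((I - T * U : ℝ) : ℂ)‖
      ≤ ‖(F - K) / (X : ℂ)‖ + ‖(K / (X : ℂ) - L * (I : ℂ))‖ + ‖L * ((I - T * U : ℝ) : ℂ)‖ := norm_add₃_le
    _ < ε := by linarith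


end Pool.Agent.SplL
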