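import Pool.Agent.Lib_MP_92ef0c_la.Ent
import Pool.Agent.Lib_MP_92ef0c_la.Mean4
import Pool.Agent.Lib_MP_92ef0c_la.Repl4
import Pool.Agent.Lib_MP_92ef0c_la.Sharp4
import Pool.Agent.Lib_MP_92ef0c_sp.Fin3H
import Pool.Agent.Lib_MP_92ef0c_sp.Tot3
import Pool.Agent.Lib_MP_92ef0c_sp.TriInt
import Pool.Agent.Lib_MP_92ef0c_sp.TSL
import Pool.Agent.Lib_MP_f1a94e_eq.Conv
import Pool.Agent.Lib_MP_f1a94e_lp.WinG

/-!
# The joint law over matrices
-/

set_option autoImplicit false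

namespace Pool.Agent.SplL

open Finset Pool.Agent.Spl Pool.Agent.SplB Pool.Agent.GaussMR Pool.Agent.OmAll Pool.Agent.OmEq Pool.Agent.LPr
  MeasureTheory Filter

/-- the sums over windows, general families -/
theorem win4 (B : BS) (h0 Q n0 : ℕ) (hQ : HQ h0 Q n0) : ∃ κ : ℝ, 0 < κ ∧
    ∀ (q : ℕ) (z : Fin 4 → ℂ) (f : Fin 4 → ℝ → ℕ → ℂ) (m : Fin 4 → ℂ), 0 < q → (∀ i, z i ^ q = 1) →
      (∀ i, FS Q (z i) (f i)) → (∀ i, Tendsto (mf Q (f i)) atTop (nhds (m i))) →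
      ∀ t1 t2 u1 u2 : ℝ, t1 ≤ t2 → u1 ≤ u2 →
      Tendsto (fun X : ℝ => (∑ e ∈ Spl.SW h0 Q n0 t1 t2 u1 u2 X, F4 (f 0 X) (f 1 X) (f 2 X) (f 3 X) e) / X) atTop
        (nhds ((∏ i, m i) * ((κ * ((t2 - t1) * (u2 - u1)) : ℝ) : ℂ))) := by
  classical
  obtain ⟨κ, hκ, hlim⟩ := tot3 h0 Q n0 hQ
  obtain ⟨κ', hκ'⟩ := tot1 h0 hQ.pos
  refine ⟨κ, hκ, fun q z f m hq hz hf hm t1 t2 u1 u2 ht hu => ?_⟩
  have hb : ∀ X e, ‖cz Q (psq Q n0) e * F4 (f 0 X) (f 1 X) (f 2 X) (f 3 X) e‖ ≤ 1 := by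
    intro X e
    rw [norm_mul]
    exact mul_le_one₀ (psq_le _ _ _ _ _ _) (norm_nonneg _)
      (norm_F4_le ((hf 0).bd X) ((hf 1).bd X) ((hf 2).bd X) ((hf 3).bd X) e)
  have H : ∀ (b : ℝ) (W : ℝ → ℝ → ℝ → ℂ), TS b W →
      Tendsto (fun X : ℝ => (∑ e ∈ SN h0 (b * X), cz Q (psq Q n0) e * F4 (f 0 X) (f 1 X) (f 2 X) (f 3 X) e *
        W (yS e / X) (tS e) (uS e)) / X) atTop (nhds (((∏ i, m i) * κ) * ∫ y, ∫ t, ∫ u, W y t u)) := by
    intro b W hW
    have e1 := main4 B hq h0 n0 hQ (hz 0) (hz 1) (hz 2) (hz 3) (hf 0) (hf 1) (hf 2) (hf 3) b W hW 1 one_pos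
    simp only [one_mul] at e1
    have e2 := real_to_complex (fun b X => SQ h0 Q n0 (b * X)) yS tS uS κ hlim b W hW
    have e3 := (((((hm 0).mul (hm 1)).mul (hm 2)).mul (hm 3)).mul e2)
    have e4 := e1.add e3
    rw [zero_add] at e4
    have e5 : m 0 * m 1 * m 2 * m 3 * ((κ : ℂ) * ∫ y, ∫ t, ∫ u, W y t u) =
        ((∏ i, m i) * κ) * ∫ y, ∫ t, ∫ u, W y t u := by
      rw [Fin.prod_univ_four]
      ring
    rw [e5] at e4
    refine e4.congr fun X => ?_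
    have e6 : ∑ e ∈ SN h0 (b * X), cz Q (psq Q n0) e * F4 (f 0 X) (f 1 X) (f 2 X) (f 3 X) e *
        W (yS e / X) (tS e) (uS e) = ∑ e ∈ SQ h0 Q n0 (b * X), F4 (f 0 X) (f 1 X) (f 2 X) (f 3 X) e *
        W (yS e / X) (tS e) (uS e) := by
      rw [sum_SQ]
      refine sum_congr rfl fun e _ => ?_
      ring
    rw [e6]
    ring
  have h := sharp4 h0 hQ.pos κ' hκ' _ hb _ H t1 t2 u1 u2 ht hu
  have h2 : (∏ i, m i) * ((κ * ((t2 - t1) * (u2 - u1)) : ℝ) : ℂ) =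
      ((∏ i, m i) * κ) * (((t2 - t1) * (u2 - u1) : ℝ) : ℂ) := by
    push_cast
    ring
  rw [h2]
  refine h.congr fun X => ?_
  rw [sum_SW]

/-- facts on the entries -/
theorem ent_facts (h0 Q n0 : ℕ) (hQ : HQ h0 Q n0) (t1 t2 u1 u2 : ℝ) : ∀ᶠ X : ℝ in atTop,
    ∀ e ∈ Spl.SW h0 Q n0 t1 t2 u1 u2 X, ∀ i, ent i e ≠ 0 ∧ (ent i e).Coprime Q ∧ (ent i e : ℝ) ≤ Real.sqrt X ^ 3 := by
  filter_upwards [eventually_ge_atTop (4 : ℝ), eventually_ge_atTop (h0 : ℝ)] with X hX hX2 e he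
  have hX0 : (0 : ℝ) ≤ X := by linarith
  unfold Spl.SW at he
  rw [mem_filter, mem_SQ] at he
  obtain ⟨⟨⟨hS, hy⟩, hc⟩, -⟩ := he
  obtain ⟨⟨c1, c2⟩, c3, c4⟩ := sq_cop hQ hS hc
  obtain ⟨hdet, pa, pb, pc, pd, -, -⟩ := hS
  have h1 : ((e.b * e.c : ℕ) : ℝ) ≤ X := by
    unfold yS at hy
    push_cast
    exact hy
  have h2 : ((e.a * e.d : ℕ) : ℝ) ≤ X + h0 := by
    rw [hdet]
    push_cast at h1 ⊢
    linarith
  have hs2 : (2 : ℝ) ≤ Real.sqrt X := by
    rw [show (2 : ℝ) = Real.sqrt 4 by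
      rw [show (4 : ℝ) = 2 ^ 2 by norm_num, Real.sqrt_sq (by norm_num)]]
    exact Real.sqrt_le_sqrt hX
  have hs3 : X + h0 ≤ Real.sqrt X ^ 3 := by
    have e1 : Real.sqrt X ^ 3 = Real.sqrt X * X := by
      have := Real.mul_self_sqrt hX0
      calc Real.sqrt X ^ 3 = Real.sqrt X * (Real.sqrt X * Real.sqrt X) := by ring
        _ = Real.sqrt X * X := by rw [this]
    rw [e1]
    nlinarith
  have hb : ∀ m n : ℕ, 0 < m → 0 < n → ((m * n : ℕ) : ℝ) ≤ X + h0 → (m : ℝ) ≤ Real.sqrt X ^ 3 ∧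
      (n : ℝ) ≤ Real.sqrt X ^ 3 := by
    intro m n hm hn h
    have g1 : (m : ℝ) ≤ ((m * n : ℕ) : ℝ) := by exact_mod_cast Nat.le_mul_of_pos_right m hn
    have g2 : (n : ℝ) ≤ ((m * n : ℕ) : ℝ) := by exact_mod_cast Nat.le_mul_of_pos_left n hm
    exact ⟨by linarith, by linarith⟩
  have hh0 : (0 : ℝ) ≤ h0 := Nat.cast_nonneg h0
  obtain ⟨b1, b4⟩ := hb _ _ pa pd h2
  obtain ⟨b2, b3⟩ := hb _ _ pb pc (by linarith)
  intro i
  fin_cases i
  · exact ⟨pa.ne', c1, b1⟩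
  · exact ⟨pb.ne', c2, b2⟩
  · exact ⟨pc.ne', c3, b3⟩
  · exact ⟨pd.ne', c4, b4⟩

/-- the coefficients of the expansion of the indicator -/
noncomputable def cf (q K r s : ℕ) (k : ℕ → ℕ) (p : ℕ × (Fin r → ℕ)) : ℂ :=
  ((zq q ^ (p.1 * s))⁻¹ / q) * ((∏ i : Fin r, (zq K ^ (p.2 i * k i))⁻¹) / (K : ℂ) ^ r)

/-- the index set -/
def ix (q K r : ℕ) : Finset (ℕ × (Fin r → ℕ)) := range q ×ˢ Fintype.piFinset (fun _ : Fin r => range K)

open Classical in
/-- expansion of the indicator, one number -/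
theorem ind1 (q : ℕ) (hq : 0 < q) (Q : ℕ) (K : ℕ) (u0 : ℝ) (hu0 : 0 < u0) (hKu : 3 < K * u0) (u v : ℕ → ℝ)
    (r : ℕ) (hu : ∀ i < r, u0 ≤ u i) (k : ℕ → ℕ) (hk : ∀ i < r, k i < K) (s : ℕ) (X : ℝ) (hX : 2 ≤ X)
    (n : ℕ) (hn : n ≠ 0) (hnX : (n : ℝ) ≤ X ^ 3) (hc : n.Coprime Q) :
    (if ArithmeticFunction.cardFactors n ≡ s [MOD q] ∧ ∀ i < r, wc X (u i) (v i) n = k i then (1 : ℂ) else 0) =
      ∑ p ∈ ix q K r, cf q K r s k p * fx Q (zq q ^ p.1) (phg K u v r p.2) X n := by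
  have hK : 0 < K := by
    rcases Nat.eq_zero_or_pos K with h | h
    · rw [h, Nat.cast_zero, zero_mul] at hKu
      linarith
    · exact h
  have hX1 : (1 : ℝ) < X := by linarith
  have hq0 : (q : ℂ) ≠ 0 := by exact_mod_cast hq.ne'
  have hK0 : (K : ℂ) ≠ 0 := by exact_mod_cast hK.ne'
  set A : ℕ → ℂ := fun i => (zq q ^ (i * s))⁻¹ * (zq q ^ i) ^ ArithmeticFunction.cardFactors n with hA
  set C : (Fin r → ℕ) → ℂ := fun j => (∏ i : Fin r, (zq K ^ (j i * k i))⁻¹) *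
    ∏ i : Fin r, (zq K ^ (j i)) ^ wc X (u i) (v i) n with hC
  have h2 : ∑ p ∈ ix q K r, cf q K r s k p * fx Q (zq q ^ p.1) (phg K u v r p.2) X n =
      (∑ i ∈ range q, A i) * (∑ j ∈ Fintype.piFinset (fun _ : Fin r => range K), C j) / ((q : ℂ) * (K : ℂ) ^ r) := by
    unfold ix
    rw [sum_product, sum_mul_sum, sum_div]
    apply sum_congr rfl
    intro i _
    rw [sum_div]
    apply sum_congr rfl
    intro j _
    unfold fx cf
    rw [if_neg (by tauto), gx_phg K u v r j X hX1]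
    simp only [hA, hC]
    generalize (∏ i : Fin r, (zq K ^ (j i * k i))⁻¹) = c1
    generalize (∏ i : Fin r, (zq K ^ (j i)) ^ wc X (u i) (v i) n) = c2
    generalize (zq q ^ (i * s))⁻¹ = a1
    generalize (zq q ^ i) ^ ArithmeticFunction.cardFactors n = a2
    field_simp
  rw [h2]
  simp only [hA, hC]
  rw [fine_orth hq]
  rw [win_inv K hK r (fun i => k i) (fun i => wc X (u i) (v i) n) (fun i => hk i i.2)
    (fun i => wc_lt K u0 hu0 hKu X hX n hn hnX _ _ (hu i i.2))]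
  have e1 : (∀ i < r, wc X (u i) (v i) n = k i) ↔ ∀ i : Fin r, wc X (u i) (v i) n = k i :=
    ⟨fun h i => h i i.2, fun h i hi => h ⟨i, hi⟩⟩
  by_cases c1 : ArithmeticFunction.cardFactors n ≡ s [MOD q]
  · by_cases c3 : ∀ i : Fin r, wc X (u i) (v i) n = k i
    · rw [if_pos ⟨c1, e1.2 c3⟩, if_pos c1, if_pos c3]
      field_simp
    · rw [if_neg (fun h => c3 (e1.1 h.2)), if_neg c3, mul_zero, zero_div]
  · rw [if_neg (fun h => c1 h.1), if_neg c1, zero_mul, zero_div]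

theorem zq_ne_one {q : ℕ} (hq : 0 < q) {i : ℕ} (hi : i < q) (h0 : i ≠ 0) : zq q ^ i ≠ 1 := by
  intro h
  have h1 : zq q ^ i = zq q ^ 0 := by rw [h, pow_zero]
  rw [fine_pow_eq hq] at h1
  unfold Nat.ModEq at h1
  rw [Nat.mod_eq_of_lt hi, Nat.zero_mod] at h1
  exact h0 h1

theorem zq_root {q : ℕ} (hq : 0 < q) (i : ℕ) : (zq q ^ i) ^ q = 1 := by
  rw [← pow_mul, mul_comm, pow_mul, (fine_prim q hq).pow_eq_one, one_pow]

/-- the value of the limit, one number -/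
theorem cf_sum (q : ℕ) (hq : 0 < q) (K : ℕ) (u v : ℕ → ℝ) (r s : ℕ) (k : ℕ → ℕ) :
    ∑ p ∈ ix q K r, cf q K r s k p * mm (zq q ^ p.1) (phg K u v r p.2) = cG K u v r k / q := by
  unfold ix
  rw [sum_product, sum_eq_single 0]
  · have h1 : ∀ φ : ℝ → ℂ, mm (zq q ^ 0) φ = mu φ := by
      intro φ
      unfold mm
      rw [if_pos (pow_zero _)]
    simp only [h1]
    unfold cG cf
    simp only [zero_mul, pow_zero, inv_one]
    rw [mul_sum, sum_div]
    refine sum_congr rfl fun j _ => ?_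
    ring
  · intro i hi h0
    refine sum_eq_zero fun j _ => ?_
    have h2 : mm (zq q ^ i) (phg K u v r j) = 0 := by
      unfold mm
      rw [if_neg (zq_ne_one hq (mem_range.1 hi) h0)]
    simp only [h2, mul_zero]
  · intro h
    exact absurd (mem_range.2 hq) h

/-- the conditions on the entries -/
def PC (q : ℕ) (s r : Fin 4 → ℕ) (u v : Fin 4 → ℕ → ℝ) (k : Fin 4 → ℕ → ℕ) (x : ℝ) (e : Q4) : Prop :=
  ∀ i, ArithmeticFunction.cardFactors (ent i e) ≡ s i [MOD q] ∧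
    ∀ j < r i, wc (Real.sqrt x) (u i j) (v i j) (ent i e) = k i j

open Classical in
/-- the joint law in one class -/
theorem law4 (B : BS) (h0 Q n0 : ℕ) (hQ : HQ h0 Q n0) : ∃ κ : ℝ, 0 < κ ∧
    (∀ t1 t2 u1 u2 : ℝ, t1 ≤ t2 → u1 ≤ u2 → Tendsto (fun X : ℝ => ((Spl.SW h0 Q n0 t1 t2 u1 u2 X).card : ℝ) / X) atTop
      (nhds (κ * ((t2 - t1) * (u2 - u1))))) ∧
    ∀ (q K : ℕ) (u0 : ℝ) (r : Fin 4 → ℕ) (u v : Fin 4 → ℕ → ℝ) (k : Fin 4 → ℕ → ℕ) (c : Fin 4 → ℝ), 0 < q → 0 < u0 →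
      (∀ i, ∀ j < r i, u0 ≤ u i j ∧ u i j ≤ v i j) → 3 < K * u0 → (∀ i, ∀ j < r i, k i j < K) →
      (∀ i, (c i : ℂ) = cG K (u i) (v i) (r i) (k i)) → ∀ s : Fin 4 → ℕ, ∀ t1 t2 u1 u2 : ℝ, t1 ≤ t2 → u1 ≤ u2 →
      Tendsto (fun X : ℝ => (((Spl.SW h0 Q n0 t1 t2 u1 u2 X).filter (PC q s r u v k X)).card : ℝ) / X) atTop
        (nhds (κ * ((t2 - t1) * (u2 - u1)) * (∏ i, c i) / (q : ℝ) ^ 4)) := by
  obtain ⟨κ, hκ, hW⟩ := win4 B h0 Q n0 hQ
  refine ⟨κ, hκ, ?_, ?_⟩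
  · intro t1 t2 u1 u2 ht hu
    have hm : Tendsto (mf Q (fun _ => f00 Q)) atTop (nhds 1) := by
      obtain ⟨c, hc, hlow⟩ := f00_low hQ.posQ
      refine tendsto_const_nhds.congr' ?_
      filter_upwards [hlow, eventually_gt_atTop (0 : ℝ)] with Y hY hY0
      have hs := Real.sqrt_pos.2 hY0
      have hD : ∑ n ∈ Icc 1 ⌊Real.sqrt Y⌋₊, f00 Q n ≠ 0 := by
        intro h
        rw [h, norm_zero] at hY
        have : 0 < c * Real.sqrt Y := by positivity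
        linarith
      unfold mf
      rw [div_self hD]
    have h1 := hW 1 (fun _ => 1) (fun _ _ => f00 Q) (fun _ => 1) one_pos (fun _ => one_pow 1) (fun _ => fs_f00 Q)
      (fun _ => hm) t1 t2 u1 u2 ht hu
    rw [prod_const_one, one_mul] at h1
    have h2 := (Complex.continuous_re.tendsto _).comp h1
    rw [Complex.ofReal_re] at h2
    refine h2.congr fun X => ?_
    have h3 : ∑ e ∈ Spl.SW h0 Q n0 t1 t2 u1 u2 X, F4 (f00 Q) (f00 Q) (f00 Q) (f00 Q) e =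
        (((Spl.SW h0 Q n0 t1 t2 u1 u2 X).card : ℝ) : ℂ) := by
      have h4 : ∀ e ∈ Spl.SW h0 Q n0 t1 t2 u1 u2 X, F4 (f00 Q) (f00 Q) (f00 Q) (f00 Q) e = 1 := by
        intro e he
        unfold Spl.SW at he
        exact f4_one h0 n0 hQ (mem_filter.1 he).1
      rw [sum_congr rfl h4]
      simp
    rw [Function.comp_apply, h3, ← Complex.ofReal_div, Complex.ofReal_re]
  · intro q K u0 r u v k c hq hu0 hu hKu hk hc s t1 t2 u1 u2 ht hu'
    have hK : 0 < K := by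
      rcases Nat.eq_zero_or_pos K with h | h
      · exfalso
        rw [h, Nat.cast_zero, zero_mul] at hKu
        linarith
      · exact h
    set T : ℂ := ((κ * ((t2 - t1) * (u2 - u1)) : ℝ) : ℂ) with hT
    have hterm : ∀ p ∈ Fintype.piFinset (fun i : Fin 4 => ix q K (r i)),
        Tendsto (fun X : ℝ => (∏ i, cf q K (r i) (s i) (k i) (p i)) * ((∑ e ∈ Spl.SW h0 Q n0 t1 t2 u1 u2 X,
          ∏ i, fxr Q (zq q ^ (p i).1) (phg K (u i) (v i) (r i) (p i).2) X (ent i e)) / X)) atTop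
          (nhds ((∏ i, cf q K (r i) (s i) (k i) (p i)) *
            ((∏ i, mm (zq q ^ (p i).1) (phg K (u i) (v i) (r i) (p i).2)) * T))) := by
      intro p _
      have hst : ∀ i, StepF (phg K (u i) (v i) (r i) (p i).2) := fun i =>
        phg_step K hK (u i) (v i) (r i) (fun j hj => ⟨hu0.trans_le (hu i j hj).1, (hu i j hj).2⟩) _
      have h1 := hW q (fun i => zq q ^ (p i).1) (fun i => fxr Q (zq q ^ (p i).1) (phg K (u i) (v i) (r i) (p i).2))
        (fun i => mm (zq q ^ (p i).1) (phg K (u i) (v i) (r i) (p i).2)) hq (fun i => zq_root hq _)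
        (fun i => fs_fx Q _ (fine_norm q hq _) _ (hst i))
        (fun i => mf_fx B q Q hq hQ.posQ _ (zq_root hq _) _ (hst i)) t1 t2 u1 u2 ht hu'
      refine (h1.congr fun X => ?_).const_mul _
      congr 1
      refine sum_congr rfl fun e _ => ?_
      rw [Fin.prod_univ_four]
      rfl
    have hsum := tendsto_finsetSum _ hterm
    have hval : ∑ p ∈ Fintype.piFinset (fun i : Fin 4 => ix q K (r i)), (∏ i, cf q K (r i) (s i) (k i) (p i)) *
        ((∏ i, mm (zq q ^ (p i).1) (phg K (u i) (v i) (r i) (p i).2)) * T) =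
        ((κ * ((t2 - t1) * (u2 - u1)) * (∏ i, c i) / (q : ℝ) ^ 4 : ℝ) : ℂ) := by
      have e1 : ∏ i, ∑ p ∈ ix q K (r i), cf q K (r i) (s i) (k i) p * mm (zq q ^ p.1) (phg K (u i) (v i) (r i) p.2) =
          ∑ p ∈ Fintype.piFinset (fun i : Fin 4 => ix q K (r i)), ∏ i, (cf q K (r i) (s i) (k i) (p i) *
            mm (zq q ^ (p i).1) (phg K (u i) (v i) (r i) (p i).2)) := Finset.prod_univ_sum _ _
      have e2 : ∑ p ∈ Fintype.piFinset (fun i : Fin 4 => ix q K (r i)), (∏ i, cf q K (r i) (s i) (k i) (p i)) *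
          ((∏ i, mm (zq q ^ (p i).1) (phg K (u i) (v i) (r i) (p i).2)) * T) =
          (∑ p ∈ Fintype.piFinset (fun i : Fin 4 => ix q K (r i)), ∏ i, (cf q K (r i) (s i) (k i) (p i) *
            mm (zq q ^ (p i).1) (phg K (u i) (v i) (r i) (p i).2))) * T := by
        rw [sum_mul]
        refine sum_congr rfl fun p _ => ?_
        rw [prod_mul_distrib]
        ring
      rw [e2, ← e1]
      have e3 : ∏ i, ∑ p ∈ ix q K (r i), cf q K (r i) (s i) (k i) p * mm (zq q ^ p.1) (phg K (u i) (v i) (r i) p.2) =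
          ∏ i, ((c i : ℂ) / q) := by
        refine prod_congr rfl fun i _ => ?_
        rw [cf_sum q hq, hc i]
      rw [e3, prod_div_distrib, prod_const, hT]
      simp only [card_univ, Fintype.card_fin]
      push_cast
      ring
    rw [hval] at hsum
    have hre := (Complex.continuous_re.tendsto _).comp hsum
    rw [Complex.ofReal_re] at hre
    refine hre.congr' ?_
    have hs2 : ∀ᶠ X : ℝ in atTop, (2 : ℝ) ≤ Real.sqrt X := sqrt_atTop.eventually_ge_atTop 2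
    filter_upwards [ent_facts h0 Q n0 hQ t1 t2 u1 u2, hs2] with X hX hX2
    rw [Function.comp_apply]
    have h1 : (((Spl.SW h0 Q n0 t1 t2 u1 u2 X).filter (PC q s r u v k X)).card : ℂ) =
        ∑ e ∈ Spl.SW h0 Q n0 t1 t2 u1 u2 X, (if PC q s r u v k X e then (1 : ℂ) else 0) := by
      rw [card_filter]
      push_cast
      rfl
    have h2 : ∀ e ∈ Spl.SW h0 Q n0 t1 t2 u1 u2 X, (if PC q s r u v k X e then (1 : ℂ) else 0) =
        ∑ p ∈ Fintype.piFinset (fun i : Fin 4 => ix q K (r i)), (∏ i, cf q K (r i) (s i) (k i) (p i)) *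
          ∏ i, fxr Q (zq q ^ (p i).1) (phg K (u i) (v i) (r i) (p i).2) X (ent i e) := by
      intro e he
      have g1 : (if PC q s r u v k X e then (1 : ℂ) else 0) = ∏ i, (if
          ArithmeticFunction.cardFactors (ent i e) ≡ s i [MOD q] ∧
            ∀ j < r i, wc (Real.sqrt X) (u i j) (v i j) (ent i e) = k i j then (1 : ℂ) else 0) := by
        by_cases h : PC q s r u v k X e
        · rw [if_pos h]
          symm
          refine prod_eq_one fun i _ => ?_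
          rw [if_pos (h i)]
        · rw [if_neg h]
          symm
          unfold PC at h
          push Not at h
          obtain ⟨i, hi⟩ := h
          refine prod_eq_zero (mem_univ i) ?_
          rw [if_neg]
          rintro ⟨k1, k2⟩
          obtain ⟨j, hj, hj'⟩ := hi k1
          exact hj' (k2 j hj)
      rw [g1]
      have g2 : ∀ i, (if ArithmeticFunction.cardFactors (ent i e) ≡ s i [MOD q] ∧
            ∀ j < r i, wc (Real.sqrt X) (u i j) (v i j) (ent i e) = k i j then (1 : ℂ) else 0) =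
          ∑ p ∈ ix q K (r i), cf q K (r i) (s i) (k i) p *
            fxr Q (zq q ^ p.1) (phg K (u i) (v i) (r i) p.2) X (ent i e) := by
        intro i
        obtain ⟨k1, k2, k3⟩ := hX e he i
        exact ind1 q hq Q K u0 hu0 hKu (u i) (v i) (r i) (fun j hj => (hu i j hj).1) (k i) (hk i) (s i)
          (Real.sqrt X) hX2 (ent i e) k1 k3 k2
      rw [prod_congr rfl fun i _ => g2 i, Finset.prod_univ_sum]
      refine sum_congr rfl fun p _ => ?_
      rw [prod_mul_distrib]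
    have h3 : ∑ p ∈ Fintype.piFinset (fun i : Fin 4 => ix q K (r i)), (∏ i, cf q K (r i) (s i) (k i) (p i)) *
        ((∑ e ∈ Spl.SW h0 Q n0 t1 t2 u1 u2 X,
          ∏ i, fxr Q (zq q ^ (p i).1) (phg K (u i) (v i) (r i) (p i).2) X (ent i e)) / X) =
        (((Spl.SW h0 Q n0 t1 t2 u1 u2 X).filter (PC q s r u v k X)).card : ℂ) / X := by
      rw [h1, sum_congr rfl h2, sum_comm, sum_div]
      refine sum_congr rfl fun p _ => ?_
      rw [← mul_sum, mul_div_assoc]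
    rw [h3, ← Complex.ofReal_natCast, ← Complex.ofReal_div, Complex.ofReal_re]

end Pool.Agent.SplL
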