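import Pool.Agent.Lib_MP_92ef0c_sp.PsiA
import Pool.Agent.Lib_MP_92ef0c_sp.PsiB
import Pool.Agent.Lib_MP_92ef0c_sp.TSL
import Pool.Agent.Lib_MP_92ef0c_la.CtwT3

/-!
# Moves with residue classes, for families
-/

set_option autoImplicit false

namespace Pool.Agent.SplL

open Finset Pool.Agent.Spl Pool.Agent.SplB Pool.Agent.GaussMR Pool.Agent.OmAll Pool.Agent.OmEq MeasureTheory Filter

/-- PROOF. `χ⁻¹ v = 1` for the trivial character and a unit `v`. -/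
theorem avA_eq (M : ℕ) [NeZero M] (ψ : ZMod M → ZMod M → ZMod M → ZMod M → ℂ) : avA M ψ = psA M ψ 1 := by
  funext x1 x2 x3 x4
  unfold avA psA
  congr 1
  refine Finset.sum_congr rfl fun v _ => ?_
  have h1 : (1 : DirichletCharacter ℂ M)⁻¹ (v : ZMod M) = 1 := by
    rw [inv_one, MulChar.one_apply v.isUnit]
  rw [h1, one_mul]

private theorem pt3_re_lt {z : ℂ} (hz : ‖z‖ = 1) (h1 : z ≠ 1) : z.re < 1 := by
  rcases lt_or_eq_of_le (hz ▸ Complex.re_le_norm z) with h | h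
  · exact h
  · exfalso
    apply h1
    have h2 := Complex.sq_norm_sub_sq_re z
    rw [hz, h] at h2
    have h3 : z.im = 0 := by
      have : z.im ^ 2 = 0 := by rw [← h2]; norm_num
      exact pow_eq_zero_iff (two_ne_zero) |>.1 this
    exact Complex.ext (by simpa using h) (by simpa using h3)

private theorem pt3_cmpA (n M : ℕ) [NeZero M] (E : Finset ℕ) (T : ℕ)
    (f1 f2 f3 f4 : ℕ → ℂ) (ω1 ω4 : ℂ) (h1m : ∀ m n, f1 (m * n) = f1 m * f1 n) (h1b : ∀ n, ‖f1 n‖ ≤ 1)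
    (h1 : ∀ p : ℕ, p ≤ T → p.Prime → p ∉ E → f1 p = ω1) (h2 : ∀ m, ‖f2 m‖ ≤ 1)
    (h3 : ∀ m, ‖f3 m‖ ≤ 1) (h4m : ∀ m n, f4 (m * n) = f4 m * f4 n) (h4b : ∀ n, ‖f4 n‖ ≤ 1)
    (h4 : ∀ p : ℕ, p ≤ T → p.Prime → p ∉ E → f4 p = ω4)
    (hω4 : ‖ω4‖ = 1) (ψ : ZMod M → ZMod M → ZMod M → ZMod M → ℂ)
    (hψ : ∀ x1 x2 x3 x4, ‖ψ x1 x2 x3 x4‖ ≤ 1) (χ : DirichletCharacter ℂ M) :
    CmpTA n (E ∪ M.primeFactors) T (fun p => ω1 * (starRingEnd ℂ) ω4 * χ ((p : ZMod M)))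
      (fun e => F4 f1 f2 f3 f4 e * cz M (psA M ψ χ) e) := by
  classical
  refine ⟨fun e => ?_, ?_⟩
  · rw [norm_mul]
    exact mul_le_one₀ (norm_F4_le h1b h2 h3 h4b e) (norm_nonneg _) (psA_le M ψ hψ χ _ _ _ _)
  · intro p a b c d hp hT hE _ _
    have hE1 : p ∉ E := fun h => hE (Finset.mem_union_left _ h)
    have hcop : p.Coprime M := by
      rw [Nat.Prime.coprime_iff_not_dvd hp]
      intro hd
      exact hE (Finset.mem_union_right _ (Nat.mem_primeFactors.mpr ⟨hp, hd, NeZero.ne M⟩))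
    have hw : ((ZMod.unitOfCoprime p hcop : (ZMod M)ˣ) : ZMod M) = (p : ZMod M) := ZMod.coe_unitOfCoprime p hcop
    have e1 : f1 (p * a) = ω1 * f1 a := by rw [h1m, h1 p hT hp hE1]
    have e2 : f4 (p * d) = ω4 * f4 d := by rw [h4m, h4 p hT hp hE1]
    have e3 : (starRingEnd ℂ) ω4 * ω4 = 1 := by
      rw [mul_comm, Complex.mul_conj, Complex.normSq_eq_norm_sq, hω4]
      norm_num
    have e4 := psA_mul M ψ χ (ZMod.unitOfCoprime p hcop) (a : ZMod M) (b : ZMod M) (c : ZMod M)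
      ((p : ZMod M) * (d : ZMod M))
    have e5 : (((ZMod.unitOfCoprime p hcop)⁻¹ : (ZMod M)ˣ) : ZMod M) * ((p : ZMod M) * (d : ZMod M)) = (d : ZMod M) := by
      rw [← hw, ← mul_assoc, Units.inv_mul, one_mul]
    rw [e5, hw] at e4
    show F4 f1 f2 f3 f4 ⟨p * a, b, c, d⟩ * cz M (psA M ψ χ) ⟨p * a, b, c, d⟩ =
      ω1 * (starRingEnd ℂ) ω4 * χ ((p : ZMod M)) * (F4 f1 f2 f3 f4 ⟨a, b, c, p * d⟩ *
        cz M (psA M ψ χ) ⟨a, b, c, p * d⟩)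
    unfold F4 cz
    simp only [Nat.cast_mul]
    rw [e4, e1, e2]
    calc ω1 * f1 a * f2 b * f3 c * f4 d * (χ (p : ZMod M) * psA M ψ χ a b c ((p : ZMod M) * (d : ZMod M)))
        = ω1 * f1 a * f2 b * f3 c * f4 d * (χ (p : ZMod M) * psA M ψ χ a b c ((p : ZMod M) * (d : ZMod M))) *
          ((starRingEnd ℂ) ω4 * ω4) := by rw [e3, mul_one]
      _ = _ := by ring

private theorem pt3_evA (n M : ℕ) [NeZero M] (E : Finset ℕ)
    (f1 f2 f3 f4 : ℝ → ℕ → ℂ) (ω1 ω4 : ℂ) (h1 : FT f1 E ω1) (h2 : ∀ X m, ‖f2 X m‖ ≤ 1)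
    (h3 : ∀ X m, ‖f3 X m‖ ≤ 1) (h4 : FT f4 E ω4) (hω4 : ‖ω4‖ = 1)
    (ψ : ZMod M → ZMod M → ZMod M → ZMod M → ℂ)
    (hψ : ∀ x1 x2 x3 x4, ‖ψ x1 x2 x3 x4‖ ≤ 1) (χ : DirichletCharacter ℂ M) :
    ∀ T : ℕ, ∀ᶠ X : ℝ in atTop, CmpTA n (E ∪ M.primeFactors) T
      (fun p => ω1 * (starRingEnd ℂ) ω4 * χ ((p : ZMod M)))
      (fun e => F4 (f1 X) (f2 X) (f3 X) (f4 X) e * cz M (psA M ψ χ) e) := by
  intro T
  filter_upwards [h1.pr T, h4.pr T] with X hX1 hX4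
  exact pt3_cmpA n M E T _ _ _ _ ω1 ω4 (h1.mul X) (h1.bd X) hX1 (h2 X) (h3 X) (h4.mul X) (h4.bd X)
    hX4 hω4 ψ hψ χ

private theorem pt3_g (M : ℕ) [NeZero M] (E : Finset ℕ) (ω : ℂ) (hω : ‖ω‖ = 1) (χ : DirichletCharacter ℂ M) :
    ∀ p : ℕ, p.Prime → p ∉ E ∪ M.primeFactors → ‖ω * χ ((p : ZMod M))‖ = 1 := by
  classical
  intro p hp hpE
  have hpn : ¬ p ∣ M := fun h => hpE (mem_union_right _ (Nat.mem_primeFactors.2 ⟨hp, h, NeZero.ne M⟩))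
  have hcop : p.Coprime M := (Nat.Prime.coprime_iff_not_dvd hp).2 hpn
  rw [norm_mul, hω, one_mul]
  have h3 := DirichletCharacter.unit_norm_eq_one χ (ZMod.unitOfCoprime p hcop)
  rwa [ZMod.coe_unitOfCoprime] at h3

/-- PROOF. Copy of `pairA` (`Lib_MP_92ef0c_sp/PsiA.lean`) with `ctwTA`: for every `T`, for large `X` the functions `f1 X`, `f4 X` take the values `ω1`, `ω4` at the primes `p ≤ T`, `p ∉ E` (`FT.pr`), so `CmpTA` holds for `F4 .. * cz M (psA M ψ χ)`. -/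
theorem pairTA (n M : ℕ) [NeZero M] (hn : 0 < n) (hnM : n.primeFactors ⊆ M.primeFactors) (E : Finset ℕ)
    (f1 f2 f3 f4 : ℝ → ℕ → ℂ) (ω1 ω4 : ℂ) (h1 : FT f1 E ω1) (h2 : ∀ X m, ‖f2 X m‖ ≤ 1) (h3 : ∀ X m, ‖f3 X m‖ ≤ 1)
    (h4 : FT f4 E ω4) (hω1 : ‖ω1‖ = 1) (hω4 : ‖ω4‖ = 1) (ψ : ZMod M → ZMod M → ZMod M → ZMod M → ℂ)
    (hψ : ∀ x1 x2 x3 x4, ‖ψ x1 x2 x3 x4‖ ≤ 1) (b : ℝ) (W : ℝ → ℝ → ℝ → ℂ) (hW : TS b W)
    (h0 : ω1 * (starRingEnd ℂ) ω4 ≠ 1 ∨ ∀ y u, (∫ t, W y t u) = 0) :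
    Tendsto (fun X : ℝ => (∑ e ∈ SN n (b * X), F4 (f1 X) (f2 X) (f3 X) (f4 X) e * cz M ψ e *
      W (yS e / X) (tS e) (uS e)) / X) atTop (nhds 0) := by
  classical
  set ω : ℂ := ω1 * (starRingEnd ℂ) ω4 with hωd
  have hω : ‖ω‖ = 1 := by
    rw [hωd, norm_mul, Complex.norm_conj, hω1, hω4, one_mul]
  have key : ∀ χ : DirichletCharacter ℂ M, Tendsto (fun X : ℝ => (∑ e ∈ SN n (b * X),
      (F4 (f1 X) (f2 X) (f3 X) (f4 X) e * cz M (psA M ψ χ) e) * W (yS e / X) (tS e) (uS e)) / X)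
      atTop (nhds 0) := by
    intro χ
    have hC := pt3_evA n M E f1 f2 f3 f4 ω1 ω4 h1 h2 h3 h4 hω4 ψ hψ χ
    rcases h0 with h | h
    · exact ctwTA n hn _ (hnM.trans subset_union_right) _ (pt3_g M E ω hω χ) (max 0 ω.re) (le_max_left _ _)
        (max_le zero_le_one (pt3_re_lt hω h).le) (npS M χ ω hω _).1 _ hC b W hW
        (Or.inl (max_lt zero_lt_one (pt3_re_lt hω h)))
    · exact ctwTA n hn _ (hnM.trans subset_union_right) _ (pt3_g M E ω hω χ) (max 0 ω.re) (le_max_left _ _)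
        (max_le zero_le_one (hω ▸ Complex.re_le_norm _)) (npS M χ ω hω _).1 _ hC b W hW (Or.inr h)
  have hsum := tendsto_finsetSum (Finset.univ : Finset (DirichletCharacter ℂ M)) fun χ _ => key χ
  rw [Finset.sum_const_zero] at hsum
  refine hsum.congr fun X => ?_
  rw [← Finset.sum_div, Finset.sum_comm]
  congr 1
  refine Finset.sum_congr rfl fun e _ => ?_
  rw [← Finset.sum_mul, ← Finset.mul_sum]
  congr 2
  exact psA_sum M ψ _ _ _ _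

/-- PROOF. Copy of `pairA1`. -/
theorem pairTA1 (n M : ℕ) [NeZero M] (hn : 0 < n) (hnM : n.primeFactors ⊆ M.primeFactors) (E : Finset ℕ)
    (f1 f2 f3 f4 : ℝ → ℕ → ℂ) (ω1 ω4 : ℂ) (h1 : FT f1 E ω1) (h2 : ∀ X m, ‖f2 X m‖ ≤ 1) (h3 : ∀ X m, ‖f3 X m‖ ≤ 1)
    (h4 : FT f4 E ω4) (hω1 : ‖ω1‖ = 1) (hω4 : ‖ω4‖ = 1) (ψ : ZMod M → ZMod M → ZMod M → ZMod M → ℂ)
    (hψ : ∀ x1 x2 x3 x4, ‖ψ x1 x2 x3 x4‖ ≤ 1) (b : ℝ) (W : ℝ → ℝ → ℝ → ℂ) (hW : TS b W) :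
    Tendsto (fun X : ℝ => (∑ e ∈ SN n (b * X), F4 (f1 X) (f2 X) (f3 X) (f4 X) e * (cz M ψ e - cz M (psA M ψ 1) e) *
      W (yS e / X) (tS e) (uS e)) / X) atTop (nhds 0) := by
  classical
  set ω : ℂ := ω1 * (starRingEnd ℂ) ω4 with hωd
  have hω : ‖ω‖ = 1 := by
    rw [hωd, norm_mul, Complex.norm_conj, hω1, hω4, one_mul]
  have key : ∀ χ ∈ (Finset.univ : Finset (DirichletCharacter ℂ M)).erase 1, Tendsto (fun X : ℝ =>
      (∑ e ∈ SN n (b * X), (F4 (f1 X) (f2 X) (f3 X) (f4 X) e * cz M (psA M ψ χ) e) *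
        W (yS e / X) (tS e) (uS e)) / X)
      atTop (nhds 0) := by
    intro χ hχ
    have hχ1 : χ ≠ 1 := (Finset.mem_erase.1 hχ).1
    have hC := pt3_evA n M E f1 f2 f3 f4 ω1 ω4 h1 h2 h3 h4 hω4 ψ hψ χ
    exact ctwTA n hn _ (hnM.trans subset_union_right) _ (pt3_g M E ω hω χ) 0 le_rfl zero_le_one
      ((npS M χ ω hω _).2 hχ1) _ hC b W hW (Or.inl zero_lt_one)
  have hsum := tendsto_finsetSum ((Finset.univ : Finset (DirichletCharacter ℂ M)).erase 1) key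
  rw [Finset.sum_const_zero] at hsum
  refine hsum.congr fun X => ?_
  rw [← Finset.sum_div, Finset.sum_comm]
  congr 1
  refine Finset.sum_congr rfl fun e _ => ?_
  rw [← Finset.sum_mul, ← Finset.mul_sum]
  congr 2
  have h5 := psA_sum M ψ (e.a : ZMod M) (e.b : ZMod M) (e.c : ZMod M) (e.d : ZMod M)
  rw [← Finset.add_sum_erase _ _ (Finset.mem_univ (1 : DirichletCharacter ℂ M))] at h5
  show ∑ χ ∈ (Finset.univ : Finset (DirichletCharacter ℂ M)).erase 1,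
    psA M ψ χ (e.a : ZMod M) (e.b : ZMod M) (e.c : ZMod M) (e.d : ZMod M) =
    ψ (e.a : ZMod M) (e.b : ZMod M) (e.c : ZMod M) (e.d : ZMod M) -
      psA M ψ 1 (e.a : ZMod M) (e.b : ZMod M) (e.c : ZMod M) (e.d : ZMod M)
  rw [← h5]
  ring

/-- PROOF. Copy of `pairB` (`Lib_MP_92ef0c_sp/PsiB.lean`) with `ctwTB`. -/
theorem pairTB (n M : ℕ) [NeZero M] (hn : 0 < n) (hnM : n.primeFactors ⊆ M.primeFactors) (E : Finset ℕ)
    (f1 f2 f3 f4 : ℝ → ℕ → ℂ) (ω2 ω3 : ℂ) (h1 : ∀ X m, ‖f1 X m‖ ≤ 1) (h2 : FT f2 E ω2) (h3 : FT f3 E ω3)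
    (h4 : ∀ X m, ‖f4 X m‖ ≤ 1) (hω2 : ‖ω2‖ = 1) (hω3 : ‖ω3‖ = 1) (ψ : ZMod M → ZMod M → ZMod M → ZMod M → ℂ)
    (hψ : ∀ x1 x2 x3 x4, ‖ψ x1 x2 x3 x4‖ ≤ 1) (b : ℝ) (W : ℝ → ℝ → ℝ → ℂ) (hW : TS b W)
    (h0 : ω2 * (starRingEnd ℂ) ω3 ≠ 1 ∨ ∀ y t, (∫ u, W y t u) = 0) :
    Tendsto (fun X : ℝ => (∑ e ∈ SN n (b * X), F4 (f1 X) (f2 X) (f3 X) (f4 X) e * cz M ψ e *
      W (yS e / X) (tS e) (uS e)) / X) atTop (nhds 0) := by
  classical
  set ω : ℂ := ω2 * (starRingEnd ℂ) ω3 with hωdef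
  have hω : ‖ω‖ = 1 := by rw [hωdef, norm_mul, RCLike.norm_conj, hω2, hω3, one_mul]
  have hω33 : (starRingEnd ℂ) ω3 * ω3 = 1 := by
    rw [mul_comm, Complex.mul_conj, Complex.normSq_eq_norm_sq, hω3]
    norm_num
  have key : ∀ χ : DirichletCharacter ℂ M,
      Tendsto (fun X : ℝ => (∑ e ∈ SN n (b * X), (F4 (f1 X) (f2 X) (f3 X) (f4 X) e *
        cz M (PsiBP.psB M ψ χ) e) * W (yS e / X) (tS e) (uS e)) / X) atTop (nhds 0) := by
    intro χ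
    refine ctwTB n hn (E ∪ M.primeFactors) (hnM.trans subset_union_right) (fun p => ω * χ ((p : ZMod M))) ?_
      (max 0 ω.re) (le_max_left _ _) (max_le zero_le_one ((Complex.re_le_norm ω).trans hω.le))
      (npS M χ ω hω (E ∪ M.primeFactors)).1
      (fun X e => F4 (f1 X) (f2 X) (f3 X) (f4 X) e * cz M (PsiBP.psB M ψ χ) e) ?_ b W hW ?_
    · exact pt3_g M E ω hω χ
    · intro T
      filter_upwards [h2.pr T, h3.pr T] with X hX2 hX3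
      refine ⟨fun e => ?_, ?_⟩
      · rw [norm_mul]
        exact mul_le_one₀ (norm_F4_le (h1 X) (h2.bd X) (h3.bd X) (h4 X) e) (norm_nonneg _)
          (PsiBP.psB_le M ψ hψ χ _ _ _ _)
      · intro p a b' c d hp hpT hpE _ _
        have hpM : ¬ p ∣ M := fun h => hpE (mem_union_right _ (Nat.mem_primeFactors.2 ⟨hp, h, NeZero.ne M⟩))
        have hpE' : p ∉ E := fun h => hpE (mem_union_left _ h)
        have hu : p.Coprime M := (Nat.Prime.coprime_iff_not_dvd hp).2 hpM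
        set w : (ZMod M)ˣ := ZMod.unitOfCoprime p hu with hw
        have hwp : (w : ZMod M) = (p : ZMod M) := ZMod.coe_unitOfCoprime p hu
        have e1 : cz M (PsiBP.psB M ψ χ) ⟨a, p * b', c, d⟩ =
            χ (p : ZMod M) * cz M (PsiBP.psB M ψ χ) ⟨a, b', p * c, d⟩ := by
          unfold cz
          simp only
          rw [Nat.cast_mul, Nat.cast_mul, ← hwp, ← PsiBP.psB_mul, Units.inv_mul_cancel_left]
        have e2 : F4 (f1 X) (f2 X) (f3 X) (f4 X) ⟨a, p * b', c, d⟩ =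
            ω * F4 (f1 X) (f2 X) (f3 X) (f4 X) ⟨a, b', p * c, d⟩ := by
          unfold F4
          simp only
          rw [h2.mul, h3.mul, hX2 p hpT hp hpE', hX3 p hpT hp hpE', hωdef]
          linear_combination (-(f1 X a * ω2 * f2 X b' * f3 X c * f4 X d)) * hω33
        rw [e1, e2]
        ring
    · rcases h0 with h0 | h0
      · exact Or.inl (max_lt one_pos (pt3_re_lt hω h0))
      · exact Or.inr h0
  have hsum := tendsto_finsetSum (univ : Finset (DirichletCharacter ℂ M)) (fun χ _ => key χ)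
  rw [sum_const_zero] at hsum
  refine hsum.congr fun X => ?_
  rw [← sum_div, sum_comm]
  congr 1
  refine sum_congr rfl fun e _ => ?_
  rw [← sum_mul, ← mul_sum]
  congr 2
  unfold cz
  exact PsiBP.psB_sum M ψ _ _ _ _

private theorem pt3_int_t {b : ℝ} {W : ℝ → ℝ → ℝ → ℂ} (hW : TS b W) (y u : ℝ) : Integrable (fun t => W y t u) := by
  obtain ⟨R, -, hR⟩ := hW.bdd
  have hc : Continuous (fun t => W y t u) :=
    hW.cont.comp (continuous_const.prodMk (continuous_id.prodMk continuous_const))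
  apply hc.integrable_of_hasCompactSupport
  apply HasCompactSupport.intro (isCompact_Icc (a := -R) (b := R))
  intro t ht
  by_contra hne
  exact ht (Set.mem_Icc.2 (abs_le.1 (hR y t u hne).2.1))

private theorem pt3_w1 {b : ℝ} {W : ℝ → ℝ → ℝ → ℂ} (hW : TS b W) (y u : ℝ) :
    (∫ t, (W y t u - ((ps0 t : ℝ) : ℂ) * ∫ t', W y t' u)) = 0 := by
  have h1 : Integrable (fun t => ((ps0 t : ℝ) : ℂ) * ∫ t', W y t' u) :=
    (limh_ps0_cont.integrable_of_hasCompactSupport limh_ps0_supp).ofReal.mul_const _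
  rw [integral_sub (pt3_int_t hW y u) h1, integral_mul_const, limh_ps0_intC, one_mul, sub_self]

private theorem pt3_w2 {b : ℝ} {W : ℝ → ℝ → ℝ → ℂ} (hW : TS b W) (h0 : ∀ y, (∫ t, ∫ u, W y t u) = 0) (y t : ℝ) :
    (∫ u, (((ps0 t : ℝ) : ℂ) * ∫ t', W y t' u)) = 0 := by
  rw [integral_const_mul, ← ts_swap hW y, h0 y, mul_zero]

/-- PROOF. As `tvf2` (`Lib_MP_92ef0c_sp/Tvf2.lean`) with `pairTA` and `pairTB`, for the families `X ↦ f_i (a X)` (`FT.dil`), `F4_R2`. -/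
theorem tvr_pf (E : Finset ℕ) (f1 f2 f3 f4 : ℝ → ℕ → ℂ) (ω1 ω2 ω3 ω4 : ℂ) (h1 : FT f1 E ω1) (h2 : FT f2 E ω2)
    (h3 : FT f3 E ω3) (h4 : FT f4 E ω4) (hω1 : ‖ω1‖ = 1) (hω2 : ‖ω2‖ = 1) (hω3 : ‖ω3‖ = 1) (hω4 : ‖ω4‖ = 1) :
    TVR (fun X => pf (f1 X) (f2 X)) (fun X => pf (f3 X) (f4 X)) := by
  intro a ha n M _ hn hnM ψ hψ b W hW h0
  have hW2 := ts_c1 hW
  have hW1 := hW.sub hW2
  have e1 := pairTA n M hn hnM E (fun X => f1 (a * X)) (fun X => f2 (a * X)) (fun X => f3 (a * X))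
    (fun X => f4 (a * X)) ω1 ω4 (h1.dil ha) (fun X => h2.bd (a * X)) (fun X => h3.bd (a * X)) (h4.dil ha)
    hω1 hω4 ψ hψ b _ hW1 (Or.inr fun y u => pt3_w1 hW y u)
  have e2 := pairTB n M hn hnM E (fun X => f1 (a * X)) (fun X => f2 (a * X)) (fun X => f3 (a * X))
    (fun X => f4 (a * X)) ω2 ω3 (fun X => h1.bd (a * X)) (h2.dil ha) (h3.dil ha) (fun X => h4.bd (a * X))
    hω2 hω3 ψ hψ b _ hW2 (Or.inr fun y t => pt3_w2 hW h0 y t)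
  have e3 := e1.add e2
  rw [add_zero] at e3
  refine e3.congr fun X => ?_
  rw [← add_div, ← sum_add_distrib]
  congr 1
  refine sum_congr rfl fun e _ => ?_
  rw [← F4_R2]
  ring

/-- PROOF. `pairTA1` for the families `X ↦ f_i (a X)` (`FT.dil`), `F4_R2`, `avA_eq`. -/
theorem chr_pf (E : Finset ℕ) (f1 f2 f3 f4 : ℝ → ℕ → ℂ) (ω1 ω2 ω3 ω4 : ℂ) (h1 : FT f1 E ω1) (h2 : FT f2 E ω2)
    (h3 : FT f3 E ω3) (h4 : FT f4 E ω4) (hω1 : ‖ω1‖ = 1) (hω4 : ‖ω4‖ = 1) :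
    CHR (fun X => pf (f1 X) (f2 X)) (fun X => pf (f3 X) (f4 X)) := by
  intro a ha n M _ hn hnM ψ hψ b W hW
  have e1 := pairTA1 n M hn hnM E (fun X => f1 (a * X)) (fun X => f2 (a * X)) (fun X => f3 (a * X))
    (fun X => f4 (a * X)) ω1 ω4 (h1.dil ha) (fun X => h2.bd (a * X)) (fun X => h3.bd (a * X)) (h4.dil ha)
    hω1 hω4 ψ hψ b W hW
  refine e1.congr fun X => ?_
  congr 1
  refine sum_congr rfl fun e _ => ?_
  rw [← F4_R2, avA_eq]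

end Pool.Agent.SplL
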