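import Pool.Agent.Lib_MP_92ef0c_la.Prof4A
import Pool.Agent.Lib_MP_92ef0c_la.FacLaw4
import Pool.Agent.Lib_MP_92ef0c_pc.Many

/-!
# Many `n` with prescribed profiles of the four factors
-/

set_option autoImplicit false

namespace Pool.Agent.SplL

open Finset Pool.Agent.Spl Pool.Agent.SplB Pool.Agent.GaussMR Pool.Agent.OmAll Pool.Agent.OmEq Pool.Agent.LPr
  MeasureTheory Filter

/-- lower bound for the number of factorisations, distinct exponents -/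
theorem ws_lowG (B : BS) (h k n0 : ℕ) (hh : 0 < h) (hk : 0 < k) (h1 : n0.Coprime k) (h2 : (n0 + h).Coprime k)
    (α β γ δ : ℝ) (hα : 0 < α) (hαβ : α < β) (hγ : 0 < γ) (hγδ : γ < δ) (q : ℕ) (hq : 0 < q) (s kk : Fin 4 → ℕ)
    (t : (i : Fin 4) → Fin (kk i) → ℝ) (hinj : ∀ i, Function.Injective (t i)) (ε : ℝ) (hε : 0 < ε) (hε1 : ε ≤ 1)
    (ht : ∀ i j, ε < t i j) (hs : ∀ i, ∑ j, t i j < 1) :
    ∃ c x0 : ℝ, 0 < c ∧ ∀ x : ℝ, x0 ≤ x → c * x ≤
      ((Set.ncard {e : Q4 | e ∈ WS h k n0 α β γ δ x ∧ PB4 q s kk t ε e}) : ℝ) := by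
  classical
  have hβ : 0 < β := hα.trans hαβ
  have hδ0 : 0 < δ := hγ.trans hγδ
  set C : ℝ := 1 + Real.sqrt ((1 + h) / α) + Real.sqrt (1 / γ) + Real.sqrt δ + Real.sqrt (β * (1 + h)) with hC
  have hCp : 0 < C := by positivity
  have hle1 : ∀ i j, t i j ≤ 1 := fun i j =>
    (single_le_sum (f := t i) (fun j _ => (hε.trans (ht i j)).le) (mem_univ j)).trans (hs i).le
  choose d1 hd1 hd1a H1 using fun i => big_prof4 (kk i) (t i) (hinj i) ε hε (ht i) (hle1 i) C hCp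
  choose d3 hd3 H3 using fun i => pos_prof (kk i) (t i) (hinj i) (ε / 2) (by linarith) (fun j => by linarith [ht i j]) (hs i)
  obtain ⟨i1, hi1⟩ := Finite.exists_min d1
  obtain ⟨i3, hi3⟩ := Finite.exists_min d3
  set η : ℝ := min (min (d1 i1) (d3 i3)) (ε / 2) with hη
  have hη0 : 0 < η := lt_min (lt_min (hd1 _) (hd3 _)) (by linarith)
  have he1 : ∀ i, η ≤ d1 i := fun i => ((min_le_left _ _).trans (min_le_left _ _)).trans (hi1 i)
  have he3 : ∀ i, η ≤ d3 i := fun i => ((min_le_left _ _).trans (min_le_right _ _)).trans (hi3 i)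
  have he5 : η ≤ ε / 2 := min_le_right _ _
  choose x1 hx1 H1' using fun i => H1 i η hη0 (he1 i)
  obtain ⟨κ, hκ, hlaw⟩ := fac_law4 B h k n0 hh hk h1 h2
  obtain ⟨hcnt, hlaw⟩ := hlaw α β γ δ hα hαβ.le hγ hγδ.le
  obtain ⟨c, hc, hlim⟩ := hlaw (fun i => kk i + 1) (fun i => vL (kk i) (t i) η ε) (fun i => vR (kk i) (t i))
    (fun i => vK (kk i)) (fun i => v_win (kk i) (t i) η ε hη0.le hε hε1 (fun j => by linarith [ht i j]))
  simp only [v_iff] at hc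
  have hcpos : ∀ i, 0 < c i := fun i => H3 i η hη0 (he3 i) (c i) (hc i)
  have hlim := hlim q hq s
  have hl1 : 0 < Real.log (β / α) := Real.log_pos (by rwa [lt_div_iff₀ hα, one_mul])
  have hl2 : 0 < Real.log (δ / γ) := Real.log_pos (by rwa [lt_div_iff₀ hγ, one_mul])
  set c0 : ℝ := κ * (Real.log (β / α) * Real.log (δ / γ)) * (∏ i, c i) / (q : ℝ) ^ 4 with hc0
  have hc0pos : 0 < c0 := by
    have : (0 : ℝ) < q := by exact_mod_cast hq
    have h3 : 0 < ∏ i, c i := prod_pos fun i _ => hcpos i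
    positivity
  -- few matrices with a small product
  have hev1 : ∀ᶠ x : ℝ in atTop, ((WS h k n0 α β γ δ (x ^ (1 - η))).ncard : ℝ) ≤ c0 / 4 * x := by
    set L : ℝ := κ * (Real.log (β / α) * Real.log (δ / γ)) with hL
    have hLp : 0 < L := by positivity
    have hη1 : η < 1 := by linarith
    have g1 : Tendsto (fun x : ℝ => x ^ (1 - η)) atTop atTop := tendsto_rpow_atTop (by linarith)
    have g2 := (hcnt.comp g1).eventually (gt_mem_nhds (lt_add_one L))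
    have g3 : Tendsto (fun x : ℝ => x ^ (-η)) atTop (nhds 0) := tendsto_rpow_neg_atTop hη0
    have g4 : ∀ᶠ x : ℝ in atTop, x ^ (-η) < (c0 / 4) / (L + 1) := g3.eventually (gt_mem_nhds (by positivity))
    filter_upwards [g2, g4, eventually_gt_atTop 0] with x k2 k4 hx
    rw [Function.comp_apply, div_lt_iff₀ (Real.rpow_pos_of_pos hx _)] at k2
    rw [lt_div_iff₀ (by positivity)] at k4
    have h5 : x ^ (1 - η) = x * x ^ (-η) := by
      rw [sub_eq_add_neg, Real.rpow_add hx, Real.rpow_one]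
    have h6 : (L + 1) * x ^ (1 - η) = x * (x ^ (-η) * (L + 1)) := by
      rw [h5]
      ring
    have h7 : x * (x ^ (-η) * (L + 1)) ≤ x * (c0 / 4) := mul_le_mul_of_nonneg_left k4.le hx.le
    linarith
  have hev2 := hlim.eventually (lt_mem_nhds (half_lt_self hc0pos))
  obtain ⟨x3, hx3⟩ := eventually_atTop.1 (hev1.and (hev2.and (eventually_gt_atTop (1 : ℝ))))
  have hbig : ∀ i, ∃ x4 : ℝ, ∀ x : ℝ, x4 ≤ x → x1 i ≤ Real.sqrt x := fun i =>
    eventually_atTop.1 (sqrt_atTop.eventually_ge_atTop (x1 i))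
  choose x4 hx4 using hbig
  obtain ⟨i4, hi4⟩ := Finite.exists_max x4
  refine ⟨c0 / 4, max (x4 i4) x3, by positivity, fun x hx => ?_⟩
  have hxx : ∀ i, x1 i ≤ Real.sqrt x := fun i => hx4 i x ((hi4 i).trans ((le_max_left _ _).trans hx))
  obtain ⟨g1, g2, g3⟩ := hx3 x ((le_max_right _ _).trans hx)
  have hx0 : 0 < x := by linarith
  rw [lt_div_iff₀ hx0] at g2
  have hfin : (WS h k n0 α β γ δ x).Finite := Pool.Agent.Spc.WS_finite hh hα hβ hγ hδ0 g3.le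
  have hfin2 : (WS h k n0 α β γ δ (x ^ (1 - η))).Finite :=
    Pool.Agent.Spc.WS_finite hh hα hβ hγ hδ0 (Real.one_le_rpow g3.le (by linarith))
  have hsub : {e : Q4 | e ∈ WS h k n0 α β γ δ x ∧ PC q s (fun i => kk i + 1) (fun i => vL (kk i) (t i) η ε)
      (fun i => vR (kk i) (t i)) (fun i => vK (kk i)) x e} ⊆
      {e : Q4 | e ∈ WS h k n0 α β γ δ x ∧ PB4 q s kk t ε e} ∪ WS h k n0 α β γ δ (x ^ (1 - η)) := by
    rintro e ⟨he, hP⟩
    obtain ⟨hy1, hy2, hy3⟩ := size4 hα hβ hγ hδ0 he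
    by_cases hm : x ^ (1 - η) < ((e.b * e.c : ℕ) : ℝ)
    · left
      refine ⟨he, fun i => ⟨(hP i).1, ?_⟩⟩
      have k1 := (hP i).2
      rw [v_iff] at k1
      have k2 : Real.sqrt x ^ (1 - η) < yr e := by
        unfold yr
        have : Real.sqrt x ^ (1 - η) = Real.sqrt (x ^ (1 - η)) := by
          rw [Real.sqrt_eq_rpow, Real.sqrt_eq_rpow, ← Real.rpow_mul hx0.le, ← Real.rpow_mul hx0.le, mul_comm]
        rw [this]
        exact Real.sqrt_lt_sqrt (Real.rpow_nonneg hx0.le _) hm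
      exact H1' i (Real.sqrt x) (hxx i) (yr e) k2 hy2 (ent i e) (hy3 i).1 (hy3 i).2 k1.1 k1.2
    · right
      push Not at hm
      obtain ⟨⟨k1, k2, k3⟩, k4⟩ := he
      exact ⟨⟨k1, k2, hm⟩, k4⟩
  have hcard := Set.ncard_le_ncard hsub ((hfin.subset fun e he => he.1).union hfin2)
  have hcard2 := hcard.trans (Set.ncard_union_le _ _)
  have hcard3 : (Set.ncard {e : Q4 | e ∈ WS h k n0 α β γ δ x ∧ PC q s (fun i => kk i + 1)
      (fun i => vL (kk i) (t i) η ε) (fun i => vR (kk i) (t i)) (fun i => vK (kk i)) x e} : ℝ) ≤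
      (Set.ncard {e : Q4 | e ∈ WS h k n0 α β γ δ x ∧ PB4 q s kk t ε e} : ℝ) +
        ((WS h k n0 α β γ δ (x ^ (1 - η))).ncard : ℝ) := by
    exact_mod_cast hcard2
  linarith

/-- lower bound for the number of factorisations -/
theorem ws_lowP (B : BS) (h k n0 : ℕ) (hh : 0 < h) (hk : 0 < k) (h1 : n0.Coprime k) (h2 : (n0 + h).Coprime k)
    (α β γ δ : ℝ) (hα : 0 < α) (hαβ : α < β) (hγ : 0 < γ) (hγδ : γ < δ) (q : ℕ) (hq : 0 < q) (s kk : Fin 4 → ℕ)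
    (t : (i : Fin 4) → Fin (kk i) → ℝ) (ε : ℝ) (hε : 0 < ε) (ht : ∀ i j, 0 < t i j) (hs : ∀ i, ∑ j, t i j ≤ 1) :
    ∃ c x0 : ℝ, 0 < c ∧ ∀ x : ℝ, x0 ≤ x → c * x ≤
      ((Set.ncard {e : Q4 | e ∈ WS h k n0 α β γ δ x ∧ PB4 q s kk t ε e}) : ℝ) := by
  classical
  choose μ hμ hμt using fun i => exists_lowF (kk i) (t i) (ht i)
  obtain ⟨i0, hi0⟩ := Finite.exists_min μ
  set ε' : ℝ := min (min (ε / 2) 1) (μ i0 / 2) with hε'
  have g1 : 0 < ε' := lt_min (lt_min (by linarith) one_pos) (by have := hμ i0; linarith)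
  have g2 : ε' ≤ ε / 2 := (min_le_left _ _).trans (min_le_left _ _)
  have g3 : ε' ≤ 1 := (min_le_left _ _).trans (min_le_right _ _)
  have g4 : ∀ i, ε' ≤ μ i / 2 := fun i => (min_le_right _ _).trans (by linarith [hi0 i])
  choose τ hτ1 hτ2 hτ3 hτ4 using fun i => pert4 (kk i) (t i) (ht i) (hs i) ε hε (μ i) (hμ i) (hμt i) ε' g2 (g4 i)
  obtain ⟨c, x0, hc, H⟩ := ws_lowG B h k n0 hh hk h1 h2 α β γ δ hα hαβ hγ hγδ q hq s kk τ hτ1 ε' g1 g3 hτ2 hτ3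
  refine ⟨c, max x0 1, hc, fun x hx => (H x ((le_max_left _ _).trans hx)).trans ?_⟩
  norm_cast
  have hx1 : (1 : ℝ) ≤ x := (le_max_right _ _).trans hx
  refine Set.ncard_le_ncard ?_ ((Pool.Agent.Spc.WS_finite hh hα (hα.trans hαβ) hγ (hγ.trans hγδ) hx1).subset fun e he => he.1)
  rintro e ⟨he, hP⟩
  refine ⟨he, fun i => ⟨(hP i).1, ?_⟩⟩
  exact hτ4 i (yr e) _ (size4 hα (hα.trans hαβ) hγ (hγ.trans hγδ) he).1 (hP i).2

/-- many `n` -/
theorem n_prof (B : BS) (h k n0 : ℕ) (hh : 0 < h) (hk : 0 < k) (h1 : n0.Coprime k) (h2 : (n0 + h).Coprime k)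
    (α β γ δ : ℝ) (hα : 0 < α) (hαβ : α < β) (hγ : 0 < γ) (hγδ : γ < δ) (q : ℕ) (hq : 0 < q) (s kk : Fin 4 → ℕ)
    (t : (i : Fin 4) → Fin (kk i) → ℝ) (ε : ℝ) (hε : 0 < ε) (ht : ∀ i j, 0 < t i j) (hs : ∀ i, ∑ j, t i j ≤ 1)
    (A : ℝ) (hA : 4 * Real.log 2 < A) :
    ∀ᶠ x : ℝ in atTop, x / Real.log x ^ A ≤
      (Set.ncard {n : ℕ | (n : ℝ) ≤ x ∧ ∃ e : Q4, e.b * e.c = n ∧ e ∈ WS h k n0 α β γ δ x ∧ PB4 q s kk t ε e} : ℝ) := by
  obtain ⟨c, x0, hc, H⟩ := ws_lowP B h k n0 hh hk h1 h2 α β γ δ hα hαβ hγ hγδ q hq s kk t ε hε ht hs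
  exact Pool.Agent.Spc.many_n h k n0 hh α β γ δ hα (hα.trans hαβ) hγ (hγ.trans hγδ) (PB4 q s kk t ε) c x0 hc H A hA

end Pool.Agent.SplL
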