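import Pool.Agent.Lib_MP_f1a94e_lp.PosG
import Pool.Agent.Lib_MP_f1a94e_lp.PertP
import Pool.Agent.Lib_MP_92ef0c_sp.Fin4H
import Pool.Agent.Lib_MP_92ef0c_la.Big4
import Pool.Agent.Lib_MP_92ef0c_la.Ent
import Pool.Agent.Lib_MP_92ef0c_lb.FDefs

/-!
# Many `n` with prescribed profiles of the four factors, preparations
-/

set_option autoImplicit false

namespace Pool.Agent.SplL

open Finset Pool.Agent.Spl Pool.Agent.SplB Pool.Agent.GaussMR Pool.Agent.OmAll Pool.Agent.OmEq Pool.Agent.LPr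
  MeasureTheory Filter

/-- left ends of the windows -/
noncomputable def vL (k : ℕ) (t : Fin k → ℝ) (δ ε : ℝ) (i : ℕ) : ℝ := if h : i < k then t ⟨i, h⟩ - δ else ε / 2

/-- right ends of the windows -/
noncomputable def vR (k : ℕ) (t : Fin k → ℝ) (i : ℕ) : ℝ := if h : i < k then t ⟨i, h⟩ else 2

/-- the numbers of prime factors -/
def vK (k : ℕ) (i : ℕ) : ℕ := if i < k then 1 else k

theorem v_iff (k : ℕ) (t : Fin k → ℝ) (δ ε x : ℝ) (n : ℕ) :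
    (∀ i < k + 1, wc x (vL k t δ ε i) (vR k t i) n = vK k i) ↔
      ((∀ i, wc x (t i - δ) (t i) n = 1) ∧ wc x (ε / 2) 2 n = k) := by
  constructor
  · intro h
    refine ⟨fun i => ?_, ?_⟩
    · have h1 := h i (by omega)
      unfold vL vR vK at h1
      rw [dif_pos i.2, dif_pos i.2, if_pos i.2] at h1
      exact h1
    · have h1 := h k (by omega)
      unfold vL vR vK at h1
      rw [dif_neg (lt_irrefl k), dif_neg (lt_irrefl k), if_neg (lt_irrefl k)] at h1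
      exact h1
  · rintro ⟨h1, h2⟩ i hi
    unfold vL vR vK
    by_cases h : i < k
    · rw [dif_pos h, dif_pos h, if_pos h]
      exact h1 ⟨i, h⟩
    · have h3 : i = k := by omega
      subst h3
      rw [dif_neg (lt_irrefl i), dif_neg (lt_irrefl i), if_neg (lt_irrefl i)]
      exact h2

theorem v_win (k : ℕ) (t : Fin k → ℝ) (δ ε : ℝ) (hδ : 0 ≤ δ) (hε : 0 < ε) (hε2 : ε ≤ 1) (h : ∀ i, δ < t i) :
    ∀ i < k + 1, 0 < vL k t δ ε i ∧ vL k t δ ε i ≤ vR k t i := by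
  intro i hi
  unfold vL vR
  by_cases h1 : i < k
  · rw [dif_pos h1, dif_pos h1]
    have := h ⟨i, h1⟩
    constructor <;> linarith
  · rw [dif_neg h1, dif_neg h1]
    constructor <;> linarith

/-- the root of `b c` -/
noncomputable def yr (e : Q4) : ℝ := Real.sqrt ((e.b * e.c : ℕ) : ℝ)

/-- the predicate on the factorisations -/
def PB4 (q : ℕ) (s kk : Fin 4 → ℕ) (t : (i : Fin 4) → Fin (kk i) → ℝ) (ε : ℝ) (e : Q4) : Prop :=
  ∀ i, ArithmeticFunction.cardFactors (ent i e) ≡ s i [MOD q] ∧ BigG (kk i) (t i) ε (yr e) (ent i e)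

/-- sizes of the entries -/
theorem size4 {h k n0 : ℕ} {α β γ δ x : ℝ} (hα : 0 < α) (hβ : 0 < β) (hγ : 0 < γ) (hδ : 0 < δ) {e : Q4}
    (he : e ∈ WS h k n0 α β γ δ x) : 1 ≤ yr e ∧ yr e ≤ Real.sqrt x ∧ ∀ i, ent i e ≠ 0 ∧ (ent i e : ℝ) ≤
      (1 + Real.sqrt ((1 + h) / α) + Real.sqrt (1 / γ) + Real.sqrt δ + Real.sqrt (β * (1 + h))) * yr e := by
  obtain ⟨⟨h1, h2, h3⟩, -, ⟨h4, h5⟩, h6, h7⟩ := he
  have hb0 : 0 < e.b := Nat.pos_of_ne_zero (by rintro h; rw [h, zero_mul] at h2; exact lt_irrefl _ h2)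
  have hc0 : 0 < e.c := Nat.pos_of_ne_zero (by rintro h; rw [h, mul_zero] at h2; exact lt_irrefl _ h2)
  have had : 0 < e.a * e.d := by omega
  have ha0 : 0 < e.a := Nat.pos_of_ne_zero (by rintro h; rw [h, zero_mul] at had; exact lt_irrefl _ had)
  have hd0 : 0 < e.d := Nat.pos_of_ne_zero (by rintro h; rw [h, mul_zero] at had; exact lt_irrefl _ had)
  have hn : (1 : ℝ) ≤ ((e.b * e.c : ℕ) : ℝ) := by exact_mod_cast h2
  have hn0 : (0 : ℝ) ≤ ((e.b * e.c : ℕ) : ℝ) := by linarith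
  have hadr : (e.a : ℝ) * e.d = ((e.b * e.c : ℕ) : ℝ) + h := by exact_mod_cast h1
  have hbcr : (e.b : ℝ) * e.c = ((e.b * e.c : ℕ) : ℝ) := by push_cast; ring
  have hh0 : (0 : ℝ) ≤ h := Nat.cast_nonneg h
  have had2 : (e.a : ℝ) * e.d ≤ (1 + h) * ((e.b * e.c : ℕ) : ℝ) := by
    rw [hadr]
    nlinarith
  have ha' : (0 : ℝ) < e.a := by exact_mod_cast ha0
  have hb' : (0 : ℝ) < e.b := by exact_mod_cast hb0
  have hc' : (0 : ℝ) < e.c := by exact_mod_cast hc0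
  have hd' : (0 : ℝ) < e.d := by exact_mod_cast hd0
  have hy1 : 1 ≤ yr e := by
    unfold yr
    rw [show (1 : ℝ) = Real.sqrt 1 by simp]
    exact Real.sqrt_le_sqrt hn
  have hy0 : 0 ≤ yr e := by linarith
  have key : ∀ (z w : ℝ), 0 ≤ z → 0 ≤ w → z ^ 2 ≤ w * ((e.b * e.c : ℕ) : ℝ) → z ≤ Real.sqrt w * yr e := by
    intro z w hz hw h8
    unfold yr
    rw [← Real.sqrt_mul hw]
    exact Real.le_sqrt_of_sq_le h8
  refine ⟨hy1, Real.sqrt_le_sqrt h3, fun i => ?_⟩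
  have s1 := Real.sqrt_nonneg ((1 + (h : ℝ)) / α)
  have s2 := Real.sqrt_nonneg (1 / γ)
  have s3 := Real.sqrt_nonneg δ
  have s4 := Real.sqrt_nonneg (β * (1 + h))
  have p1 := mul_nonneg s1 hy0
  have p2 := mul_nonneg s2 hy0
  have p3 := mul_nonneg s3 hy0
  have p4 := mul_nonneg s4 hy0
  have hexp : (1 + Real.sqrt ((1 + h) / α) + Real.sqrt (1 / γ) + Real.sqrt δ + Real.sqrt (β * (1 + h))) * yr e =
      yr e + Real.sqrt ((1 + h) / α) * yr e + Real.sqrt (1 / γ) * yr e + Real.sqrt δ * yr e +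
        Real.sqrt (β * (1 + h)) * yr e := by ring
  rw [hexp]
  fin_cases i
  · refine ⟨ha0.ne', ?_⟩
    have h8 : (e.a : ℝ) ^ 2 ≤ (1 + h) / α * ((e.b * e.c : ℕ) : ℝ) := by
      rw [div_mul_eq_mul_div, le_div_iff₀ hα]
      have : α * (e.a : ℝ) ^ 2 ≤ e.a * e.d := by nlinarith
      linarith
    have h9 := key e.a _ ha'.le (by positivity) h8
    show (e.a : ℝ) ≤ _
    linarith
  · refine ⟨hb0.ne', ?_⟩
    have h8 : (e.b : ℝ) ^ 2 ≤ 1 / γ * ((e.b * e.c : ℕ) : ℝ) := by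
      rw [div_mul_eq_mul_div, le_div_iff₀ hγ, ← hbcr]
      nlinarith
    have h9 := key e.b _ hb'.le (by positivity) h8
    show (e.b : ℝ) ≤ _
    linarith
  · refine ⟨hc0.ne', ?_⟩
    have h8 : (e.c : ℝ) ^ 2 ≤ δ * ((e.b * e.c : ℕ) : ℝ) := by
      rw [← hbcr]
      nlinarith
    have h9 := key e.c _ hc'.le hδ.le h8
    show (e.c : ℝ) ≤ _
    linarith
  · refine ⟨hd0.ne', ?_⟩
    have h8 : (e.d : ℝ) ^ 2 ≤ β * (1 + h) * ((e.b * e.c : ℕ) : ℝ) := by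
      have g1 : (e.d : ℝ) ^ 2 ≤ β * (e.a * e.d) := by nlinarith
      have g2 : β * ((e.a : ℝ) * e.d) ≤ β * ((1 + h) * ((e.b * e.c : ℕ) : ℝ)) := mul_le_mul_of_nonneg_left had2 hβ.le
      linarith
    have h9 := key e.d _ hd'.le (by positivity) h8
    show (e.d : ℝ) ≤ _
    linarith

theorem exists_lowF (k : ℕ) (t : Fin k → ℝ) (ht : ∀ i, 0 < t i) : ∃ μ : ℝ, 0 < μ ∧ ∀ i, μ ≤ t i := by
  rcases isEmpty_or_nonempty (Fin k) with h | h
  · exact ⟨1, one_pos, fun i => h.elim i⟩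
  · obtain ⟨i0, hi0⟩ := Finite.exists_min t
    exact ⟨t i0, ht i0, hi0⟩

/-- perturbation of the exponents -/
theorem pert4 (j : ℕ) (s : Fin j → ℝ) (hs0 : ∀ i, 0 < s i) (hsum : ∑ i, s i ≤ 1) (ε : ℝ) (hε : 0 < ε) (ν : ℝ) (hν : 0 < ν)
    (hνs : ∀ i, ν ≤ s i) (ε' : ℝ) (hε' : ε' ≤ ε / 2) (hεν : ε' ≤ ν / 2) :
    ∃ τ : Fin j → ℝ, Function.Injective τ ∧ (∀ i, ε' < τ i) ∧ ∑ i, τ i < 1 ∧
      ∀ (y : ℝ) (n : ℕ), 1 ≤ y → BigG j τ ε' y n → BigG j s ε y n := by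
  have hj : (0 : ℝ) < (j : ℝ) + 1 := by positivity
  obtain ⟨τ, hinj, hτ⟩ := pert j s hs0 (min (ε / (2 * (j + 1))) (ν / 4)) (lt_min (by positivity) (by linarith))
  refine ⟨τ, hinj, fun i => ?_, ?_, fun y n hy hB => ?_⟩
  · have h6 := (hτ i).2.2
    have h7 := hνs i
    have h8 : min (ε / (2 * (j + 1))) (ν / 4) ≤ ν / 4 := min_le_right _ _
    linarith
  · rcases Nat.eq_zero_or_pos j with h0 | h0
    · subst h0
      simp
    · refine lt_of_lt_of_le (sum_lt_sum_of_nonempty ⟨⟨0, h0⟩, mem_univ _⟩ fun i _ => (hτ i).2.1) hsum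
  · refine BigG.mono j s τ ε ε' (min (ε / (2 * (j + 1))) (ν / 4)) (fun i => (hτ i).2.1.le) (fun i => (hτ i).2.2.le)
      (le_min (by positivity) (by linarith)) ?_ y hy n hB
    have h9 : min (ε / (2 * (j + 1))) (ν / 4) ≤ ε / (2 * (j + 1)) := min_le_left _ _
    have h10 : ((j : ℝ) + 1) * min (ε / (2 * (j + 1))) (ν / 4) ≤ (j + 1) * (ε / (2 * (j + 1))) :=
      mul_le_mul_of_nonneg_left h9 hj.le
    have h11 : ((j : ℝ) + 1) * (ε / (2 * (j + 1))) = ε / 2 := by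
      field_simp
    linarith

end Pool.Agent.SplL
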